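import Pool.Agent.Work.MP_8c604c_gt.OD.JP
import Pool.Agent.Work.MP_8c604c_gt.B.Ctr
import Pool.Agent.Work.MP_8c604c_gt.OG.HS
import Pool.Agent.Work.MP_8c604c_gt.T.Cx
import Pool.Agent.Work.MP_8c604c_gt.OZ.S6

-- merged part: Pool.Agent.Work.MP_8c604c_gt.OT.Sw
section
/-!
The invariant map on loops of speed less than one (owner helper12).
-/

noncomputable section

set_option linter.unusedSectionVars false

namespace Pool.Agent.Work.MP_8c604c_gt.OT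

open Set Real Topology Pool.Agent.Work.MP_849ab0_ag.G T

theorem sweeps {X Y N : Type} [TopologicalSpace X] [TopologicalSpace Y] [PseudoMetricSpace N]
    (C : B.Comb Y N) (F : B.Flo X) (p : C(X, Y)) (hp : ∀ x, B.ShortL C.j fun t => p (F.φ t x))
    (L : List C(X, ℂ))
    (hf : ∀ f ∈ L, ∀ t x, f (F.φ t x) = Complex.exp (2 * t * Complex.I) * f x) :
    ∃ p' : C(X, Y), p.Homotopic p' ∧ (∀ x, B.ShortL C.j fun t => p' (F.φ t x)) ∧
      ∀ x, (∃ f ∈ L, 1 ≤ ‖f x‖) → ∀ t, p' (F.φ t x) = p' x := by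
  induction L with
  | nil => exact ⟨p, .refl _, hp, by simp⟩
  | cons f L ih =>
    obtain ⟨p', h1, h2, h3⟩ := ih fun g hg => hf g (List.mem_cons_of_mem _ hg)
    obtain ⟨G, k0, -, k2, k3⟩ := B.sweep C F p' h2 f (hf f List.mem_cons_self) one_pos
    refine ⟨G.comp ⟨fun x => (1, x), by fun_prop⟩, h1.trans ⟨⟨G.comp ⟨fun z => (z.1, z.2), by fun_prop⟩,
      fun x => k0 _ le_rfl x, fun x => rfl⟩⟩, k2 1, fun x ⟨g, hg, e⟩ => k3 x ?_⟩
    rcases List.mem_cons.1 hg with rfl | hg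
    · exact .inl e
    · exact .inr (h3 x ⟨g, hg, e⟩)

variable {V : Type} [NormedAddCommGroup V] [InnerProductSpace ℝ V] [FiniteDimensional ℝ V]
  {𝕄 : Mf V} {m : ℕ}

namespace TD1

variable (D : TD1 𝕄)

/-- the manifold with the distance `d` -/
def MN (_D : TD1 𝕄) : Type := 𝕄.M

instance : PseudoMetricSpace D.MN where
  dist p q := D.d p.1 q.1
  dist_self p := D.d_self p.2
  dist_comm p q := D.symm _ p.2 _ q.2
  dist_triangle p q s := D.tri _ p.2 _ q.2 _ s.2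

open Classical in
/-- minimal geodesics -/
def comb : B.Comb 𝕄.M D.MN where
  j p := p
  sg a p q := if h : (p.1, q.1) ∈ D.Nb then ⟨D.mv (p.1, q.1) (a * D.d p.1 q.1), D.mv_mem h _⟩ else p
  cont := by
    refine IsInducing.subtypeVal.continuousOn_iff.2 (ContinuousOn.congr
      (f := fun z : ℝ × 𝕄.M × 𝕄.M => D.mv (z.2.1.1, z.2.2.1) (z.1 * D.d z.2.1.1 z.2.2.1))
      (D.contOn_mv (by fun_prop) (by fun_prop) (continuousOn_fst.mul (D.contOn_d (by fun_prop)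
        (by fun_prop) (fun z _ => z.2.1.2) fun z _ => z.2.2.2)) fun z h => D.nb z.2.1.2 z.2.2.2 h)
      fun z h => ?_)
    simp only [Function.comp, dif_pos (D.nb z.2.1.2 z.2.2.2 h)]
  zero p q h := by
    rw [dif_pos (D.nb p.2 q.2 h)]
    exact Subtype.ext (D.mv_le (D.nb p.2 q.2 h) (by simp))
  one p q h := by
    rw [dif_pos (D.nb p.2 q.2 h)]
    exact Subtype.ext (D.mv_ge (D.nb p.2 q.2 h) (by simp))
  self a p := by
    split_ifs
    · exact Subtype.ext (D.mv_self _ _)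
    · rfl
  lip p q h a b := by
    rw [dif_pos (D.nb p.2 q.2 h), dif_pos (D.nb p.2 q.2 h)]
    refine (D.mv_lip (D.nb p.2 q.2 h) _ _).trans_eq ?_
    rw [← sub_mul, abs_mul, abs_of_nonneg (D.d_nonneg p.2 q.2)]
    rfl

/-- the rotation of short loops -/
def flo (m : ℕ) : B.Flo (D.Ls 1 ×ˢ Sp m : Set (LA V m)) where
  φ t x := ⟨ac 1 (cs t) x.1, (D.inv_Ls 1).ac _ _ x.2⟩
  cont := (continuous_ac.comp ((continuous_cs.comp continuous_fst).prodMk
    (continuous_subtype_val.comp continuous_snd))).subtype_mk _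
  zero x := Subtype.ext (by simp only [cs_zero, ac_one])
  add s t x := Subtype.ext (by simp only [cs_add, ac_mul])
  per x := Subtype.ext (by simp only [cs_pi, ac_one])

theorem shortL {x : LS V} (hx : x ∈ D.Ls 1) :
    B.ShortL D.comb.j fun t => ⟨x.1 (cs t), hx.1.1 _⟩ := by
  have l0 := hx.1.2.1.1
  have h : LipschitzOnWith ⟨x.2, l0⟩ (fun t => D.comb.j ⟨x.1 (cs t), hx.1.1 _⟩) univ :=
    .of_dist_le_mul fun s _ t _ => hx.1.2.2 s t
  have h1 := h.comp_eVariationOn_le (g := id) (s := Icc 0 π) (mapsTo_univ _ _)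
  have h2 := ((monotoneOn_id (s := Icc 0 π)).eVariationOn_eq ⟨le_rfl, pi_pos.le⟩ ⟨pi_pos.le, le_rfl⟩).le
  rw [inter_self] at h2
  refine (h1.trans (mul_le_mul_right h2 _)).trans_lt ?_
  rw [← ENNReal.ofReal_coe_nnreal, ← ENNReal.ofReal_mul (NNReal.coe_nonneg _),
    ENNReal.ofReal_lt_ofReal_iff pi_pos]
  have := ((D.mem_Ls).1 hx).2
  change x.2 * (π - 0) < π
  nlinarith [pi_pos]

/-- `ρ` is an invariant map on the loops of speed less than one that is homotopic to the base point -/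
structure Ret (m : ℕ) (ρ : BQ V m 1 → V) : Prop where
  cont : ContinuousOn ρ (Bo m 1 (D.Ls 1))
  mem : MapsTo ρ (Bo m 1 (D.Ls 1)) 𝕄.M
  ht : ∃ F : LA V m × ℝ → V, ContinuousOn F ((D.Ls 1 ×ˢ Sp m) ×ˢ Icc 0 1) ∧
    MapsTo F ((D.Ls 1 ×ˢ Sp m) ×ˢ Icc 0 1) 𝕄.M ∧
    ∀ x ∈ D.Ls 1 ×ˢ Sp m, F (x, 0) = ρ (qB 1 x) ∧ F (x, 1) = x.1.1 1

open Classical in
theorem exists_ret (m : ℕ) : ∃ ρ, D.Ret m ρ := by
  obtain ⟨p, ⟨G⟩, -, h⟩ := sweeps D.comb (D.flo m) ⟨fun x => ⟨x.1.1.1 1, x.2.1.1.1 _⟩, by fun_prop⟩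
    (fun x => by
      convert D.shortL x.2.1 using 3 with t
      change sh (cs t ^ 1) _ 1 = _
      rw [pow_one, sh_at_one])
    (List.ofFn fun j : Fin (m + 1) => ⟨fun x => x.1.2 j, by fun_prop⟩) (fun f hf t x => by
      obtain ⟨j, rfl⟩ := List.mem_ofFn.1 hf
      rw [← B.coe_cs]
      rfl)
  have cd := (D.inv_Ls 1).cd (m := m) (k := 1) (D.lc_Ls 1)
  let P : LA V m → V := fun x => if k : x ∈ D.Ls 1 ×ˢ Sp m then (p ⟨x, k⟩).1 else 0
  have e : ∀ x ∈ D.Ls 1 ×ˢ Sp m, P (oB (qB 1 x)) = P x := fun x hx => cd.out_eq (fun θ y hy => by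
    obtain ⟨t, -, rfl⟩ := exists_cs θ
    obtain ⟨i, -, e⟩ := Finset.exists_mem_eq_sup Finset.univ Finset.univ_nonempty fun i => ‖y.2 i‖₊
    have e1 : ‖y.2 i‖ = 1 := by rw [← mem_Sp.1 hy.2, Pi.norm_def, e, coe_nnnorm]
    simp only [P, dif_pos hy, dif_pos (cd.act (cs t) hy)]
    exact congrArg _ (h ⟨y, hy⟩ ⟨_, List.mem_ofFn.2 ⟨i, rfl⟩, e1.ge⟩ t)) hx
  refine ⟨fun y => P (oB y), cd.contOn (F := P) ?_ e, fun y hy => ?_,
    fun z => if k : z.1 ∈ D.Ls 1 ×ˢ Sp m then (G.symm (projIcc 0 1 zero_le_one z.2, ⟨z.1, k⟩)).1 else 0,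
    ?_, fun z hz => ?_, fun x hx => ⟨?_, ?_⟩⟩
  · rw [continuousOn_iff_continuous_domRestrict]
    exact (continuous_subtype_val.comp p.continuous).congr fun x => by
      simp only [domRestrict_apply, P, dif_pos x.2, Function.comp]
  · simp only [P, dif_pos (cd.out_mem hy)]
    exact Subtype.prop _
  · rw [continuousOn_iff_continuous_domRestrict]
    refine (continuous_subtype_val.comp (G.symm.continuous.comp (((continuous_projIcc (h := zero_le_one)).comp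
      (continuous_snd.comp continuous_subtype_val)).prodMk ((continuous_fst.comp
        continuous_subtype_val).subtype_mk fun z => z.2.1)))).congr fun z => ?_
    simp only [domRestrict_apply, dif_pos z.2.1, Function.comp]
  · simp only [dif_pos hz.1]
    exact Subtype.prop _
  · rw [e x hx]
    simp only [P, dif_pos hx, projIcc_left]
    exact congrArg _ (G.symm.apply_zero _)
  · simp only [dif_pos hx, projIcc_right]
    exact congrArg _ (G.symm.apply_one _)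

/-- the invariant map -/
def mB (m : ℕ) : BQ V m 1 → V := Classical.epsilon (D.Ret m)

theorem ret (m : ℕ) : D.Ret m (D.mB m) := Classical.epsilon_spec (D.exists_ret m)

end TD1

end Pool.Agent.Work.MP_8c604c_gt.OT
end
end

-- merged part: Pool.Agent.Work.MP_8c604c_gt.OT.RD
section
/-!
The bundles over the Borel constructions `D.GB 1`, `D.GB 2` of the closed geodesics, the pushes, and the class `yp`
(owner helper12).
-/

noncomputable section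

set_option linter.unusedSectionVars false

namespace Pool.Agent.Work.MP_8c604c_gt.OT

open Set Topology Matrix Pool.Agent.Work.MP_849ab0_ag.G T
open scoped Kronecker

variable {V : Type} [NormedAddCommGroup V] [InnerProductSpace ℝ V] [FiniteDimensional ℝ V]
  {𝕄 : Mf V} {m k : ℕ}

/-- forget the speed -/
def pj (x : LA V m) : LM V × CM m := (x.1.1, x.2)

/-- the index set of the complexification -/
abbrev IC (N : ℕ) : Type := Fin (Module.finrank ℝ (RN N))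

/-- the contraction with the sphere coordinate -/
def ctr {N : ℕ} (ζ : CM m) (v : IC N × Fin (m + 1) → ℂ) : IC N → ℂ := fun i => ∑ j, star (v (i, j)) * ζ j

/-- the pair of real vectors of an element of the tensor product with the line -/
def dec {N : ℕ} (ζ : CM m) (v : IC N × Fin (m + 1) → ℂ) : RN N × RN N := (cre (ctr ζ v), cim (ctr ζ v))

theorem sp_ex' {X : Type} [TopologicalSpace X] [RegularSpace X] [SecondCountableTopology X] {U : Set X}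
    {p : ℤ} {b : H (U ×ˢ Sp m) univ} (hb : IsDeg p b) (hp : p ≤ 2 * m) :
    ∃ a : H U univ, b = pull Prod.fst (U ×ˢ Sp m) univ a := ⟨_, (sp_low' one_mem_Sp hb hp).symm⟩

theorem isConnected_Sp : IsConnected (Sp m) :=
  isConnected_sphere (by
    rw [← Module.finrank_eq_rank, Module.finrank_pi_fintype]
    simp only [Complex.finrank_real_complex, Finset.sum_const, Finset.card_univ, Fintype.card_fin, smul_eq_mul]
    exact_mod_cast (by omega : 1 < (m + 1) * 2)) _ zero_le_one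

theorem continuous_pj : Continuous (pj : LA V m → _) := by unfold pj; fun_prop

theorem CD.out_eq' {Y Q J T : Type} [TopologicalSpace Y] [TopologicalSpace Q] [Fintype J] [Nonempty Y]
    {s : Circle → Y → Y} {q : Y → Q} {ζ : Y → J → ℂ} {E : Set Y} {B : Set Q} (h : CD s q ζ E B)
    {F : Y → T} {y : Y} (e : ∀ θ, F (s θ y) = F y) : F (out q (q y)) = F y := by
  obtain ⟨θ, k⟩ := exists_out h.orb y
  rw [k, e]

namespace TD

variable (D : TD 𝕄 m) (Q : MT 𝕄)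

/-- closed geodesics with speed one -/
def S1 : Set (LS V) := D.S ×ˢ {1}

/-- closed geodesics with a sphere coordinate -/
def Xt : Set (LA V m) := D.S1 ×ˢ Sp m

/-- the Borel construction on the closed geodesics -/
def GB (k : ℕ) : Set (BQ V m k) := Bo m k D.S1

/-- the first negative bundle -/
def Kq (y : BQ V m 1) : RN D.N →L[ℝ] RN D.N := D.K (pj (oB y))

/-- its pull-back -/
def K2 (y : BQ V m 2) : RN D.N →L[ℝ] RN D.N := D.Kq (kpB y)

/-- the bundle of rank eight -/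
def Pq (y : BQ V m 2) : RN D.N' →L[ℝ] RN D.N' := D.P (pj (oB y))

/-- the tensor product of the complexification of `K2` with the line bundle -/
def EC (y : BQ V m 2) : Matrix (IC D.N × Fin (m + 1)) (IC D.N × Fin (m + 1)) ℂ :=
  cx D.Kq (kpB y) ⊗ₖ LB y

/-- the ambient fibre of the second negative bundle -/
abbrev A2 : Type := RN D.N × (IC D.N × Fin (m + 1) → ℂ) × RN D.N'

/-- the second negative bundle, of rank 29 -/
def E2 (y : BQ V m 2) : D.A2 →L[ℝ] D.A2 := (D.K2 y).prodMap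
  (((LinearMap.toContinuousLinearMap (D.EC y).mulVecLin).restrictScalars ℝ).prodMap (D.Pq y))

/-- the first push -/
def PU1 (z : BQ V m 1 × RN D.N) : BQ V m 1 := qB 1 (D.pu1 (pj (oB z.1), z.2), (oB z.1).2)

/-- the second push -/
def PU2 (z : BQ V m 2 × D.A2) : BQ V m 1 :=
  qB 1 (D.pu2 (pj (oB z.1), z.2.1, dec (oB z.1).2 z.2.2.1, z.2.2.2), (oB z.1).2)

/-- an orientation of `Kq` -/
def o1 : BQ V m 1 → RN D.N [⋀^Fin 7]→L[ℝ] ℝ := Classical.epsilon (Ori D.Kq 7 (D.GB 1))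

/-- an orientation of `Pq` -/
def oP : BQ V m 2 → RN D.N' [⋀^Fin 8]→L[ℝ] ℝ := Classical.epsilon (Ori D.Pq 8 (D.GB 2))

/-- the total space of `Kq` -/
def T1 : Set (BQ V m 1 × RN D.N) := totR D.Kq (D.GB 1)

/-- the nonzero vectors -/
def P1 : Set (BQ V m 1 × RN D.N) := D.T1 \ zs _ _

/-- the total space upstairs -/
def T1u : Set (LA V m × RN D.N) := {z | z.1 ∈ D.Xt ∧ D.K (pj z.1) z.2 = z.2}

/-- the nonzero vectors upstairs -/
def P1u : Set (LA V m × RN D.N) := D.T1u \ zs _ _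

/-- the Thom class of `Kq` -/
def tau1 : H D.T1 (zs _ _) := thR D.Kq 7 (D.GB 1) D.o1

/-- the Euler class of `Kq` -/
def eK : H (D.GB 1) univ := euR D.Kq 7 D.o1 (D.GB 1)

/-- the Euler class of `Pq` -/
def eP : H (D.GB 2) univ := euR D.Pq 8 D.oP (D.GB 2)

/-- the map of the nonzero vectors to the manifold -/
def mq (z : BQ V m 1 × RN D.N) : V := D.mB m (D.PU1 z)

/-- the class `y` on the nonzero vectors -/
def yp : H D.P1 univ := pull D.mq D.P1 univ Q.y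

theorem inv_S1 : Inv D.S1 := fun θ _ hx => ⟨D.inv θ _ hx.1, hx.2⟩

theorem isCompact_S1 : IsCompact D.S1 := D.cpt.prod isCompact_singleton

theorem isCompact_Xt : IsCompact D.Xt := D.isCompact_S1.prod isCompact_Sp

theorem isCompact_GB : IsCompact (D.GB k) := isCompact_Bo D.isCompact_S1

theorem lc_GB : IsLocallyClosed (D.GB k) := D.isCompact_GB.isClosed.isLocallyClosed

/-- the circle bundle `Xt → GB k`: all of `OT/Bor` applies -/
theorem cdG (k : ℕ) : CD (ac k) (qB k) Prod.snd D.Xt (D.GB k) :=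
  D.inv_S1.cd D.isCompact_S1.isClosed.isLocallyClosed

theorem cb_LB : CB LB 1 (D.GB k) := (D.cdG k).cb

theorem ok_qG (k : ℕ) : Ok (qB k) D.Xt univ (D.GB k) univ := (D.cdG k).ok_q'

theorem ok_kap : Ok kpB (D.GB 2) univ (D.GB 1) univ := ok_kpB subset_rfl

theorem em_kap {A : Set (LS V)} : EM (ac 2) (qB 2) (A ×ˢ Sp m) (ac 1) (qB 1) (A ×ˢ Sp m)
    (fun x => (x.1, x.2 * x.2)) kpB 2 :=
  ⟨two_ne_zero, by fun_prop, fun _ h => ⟨h.1, Sp_sq h.2⟩, fun θ x _ => kp_ac θ x, fun x _ => kpB_q x⟩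

theorem kap_e : pull kpB (D.GB 2) univ (eB (D.GB 1)) = (2 : ℂ) • eB (D.GB 2) := by
  have := em_kap.map_ee (D.cdG 1) (D.cdG 2)
  rwa [Nat.cast_ofNat] at this

/-- the transfers: `tr₂ ∘ κ^* = 2 κ^* ∘ tr₁` -/
theorem kap_tr (c : H D.Xt univ) :
    tB 2 (D.GB 2) univ (pull (fun x => (x.1, x.2 * x.2)) D.Xt univ c) =
      (2 : ℂ) • pull kpB (D.GB 2) univ (tB 1 (D.GB 1) univ c) := by
  have := em_kap.map_tr (D.cdG 1) (D.cdG 2) (sd_univ _ _ _) (sd_univ _ _ _) (fun _ _ _ => trivial) c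
  rwa [Nat.cast_ofNat] at this

theorem ok_Xt : Ok (fun x : LA V m => x.1.1) D.Xt univ D.S univ :=
  .of_mem (.of_continuous (by fun_prop) _) (fun _ h => h.1.1) fun _ _ _ => trivial

theorem ok_slX {ζ : CM m} (h : ζ ∈ Sp m) : Ok (fun c : LM V => ((c, (1 : ℝ)), ζ)) D.S univ D.Xt univ :=
  .of_mem (.of_continuous (by fun_prop) _) (fun _ a => ⟨⟨a, rfl⟩, h⟩) fun _ _ _ => trivial

theorem slX_Xt {ζ : CM m} (h : ζ ∈ Sp m) (a : H D.S univ) :
    pull (fun c : LM V => ((c, (1 : ℝ)), ζ)) D.S univ (pull (fun x : LA V m => x.1.1) D.Xt univ a) = a :=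
  (pull_pull' (F := id) (D.ok_slX h) D.ok_Xt (fun _ _ => rfl) a).trans (pull_id a)

theorem zb_S1 : ZB Prod.fst D.S1 univ D.S univ :=
  .of_inv (s := fun c => (c, 1)) (.of_mem (.of_continuous continuous_fst _) (fun _ h => h.1) fun _ _ _ => trivial)
    (.of_mem (.of_continuous (by fun_prop) _) (fun _ h => ⟨h, rfl⟩) fun _ _ _ => trivial)
    (fun _ h => Prod.ext rfl h.2.symm) fun _ _ => rfl

theorem lc_S1 : IsLocallyClosed D.S1 := D.isCompact_S1.isClosed.isLocallyClosed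

/-- in low degree the sphere coordinate does not contribute -/
theorem Xt_slX {ζ : CM m} (h : ζ ∈ Sp m) {p : ℤ} {a : H D.Xt univ} (ha : IsDeg p a) (hp : p ≤ 2 * m) :
    pull (fun x : LA V m => x.1.1) D.Xt univ (pull (fun c : LM V => ((c, (1 : ℝ)), ζ)) D.S univ a) = a := by
  obtain ⟨a', e⟩ := sp_ex' (U := D.S1) ha hp
  obtain ⟨b, rfl⟩ := D.zb_S1.bij.2 a'
  rw [pull_pull' (F := fun x : LA V m => x.1.1) (ok_fst' _ _) D.zb_S1.ok fun _ _ => rfl] at e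
  rw [e]
  exact congrArg _ (D.slX_Xt h b)

theorem van_Xt {q : ℤ} (v : Van q D.S univ) (hq : q ≤ 2 * m) : Van q D.Xt univ :=
  van_Sp D.lc_S1 (v.pul D.zb_S1) hq

theorem tf_Xt {q : ℤ} (v : Tf q D.S univ) (hq : q ≤ 2 * m) : Tf q D.Xt univ :=
  tf_Sp D.lc_S1 (v.pul D.zb_S1) hq

include Q in
theorem isConnected_GB : IsConnected (D.GB k) :=
  ((((D.isConnected_S Q.conn).prod isConnected_singleton).prod isConnected_Sp).image _
    continuous_qB.continuousOn :)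

include Q in
theorem van_GB (hm : 1 ≤ m) : Van 1 (D.GB k) univ :=
  D.cb_LB.thZ.van_base ((D.van_Xt (D.van_S Q (by omega) (by omega)) (by omega)).of_pul
    (D.cdG k).zb_io') (van_neg (by norm_num))

variable {D}

theorem pj_mem {x : LA V m} (hx : x ∈ D.Xt) : pj x ∈ D.S ×ˢ Sp m := ⟨hx.1.1, hx.2⟩

theorem Kq_q {x : LA V m} (hx : x ∈ D.Xt) : D.Kq (qB 1 x) = D.K (pj x) :=
  (D.cdG 1).out_eq (F := fun x => D.K (pj x)) (fun θ y hy => by
    simpa [pj, ac, shS] using D.invK θ _ (pj_mem hy)) hx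

theorem K2_q {x : LA V m} (hx : x ∈ D.Xt) : D.K2 (qB 2 x) = D.K (x.1.1, x.2 * x.2) := by
  rw [K2, kpB_q, Kq_q (x := (x.1, x.2 * x.2)) ⟨hx.1, Sp_sq hx.2⟩]
  rfl

theorem Pq_q {x : LA V m} (hx : x ∈ D.Xt) : D.Pq (qB 2 x) = D.P (pj x) :=
  (D.cdG 2).out_eq (F := fun x => D.P (pj x)) (fun θ y hy => by
    simpa [pj, ac, shS, sq] using D.invP θ _ (pj_mem hy)) hx

theorem PU1_q {x : LA V m} (hx : x ∈ D.Xt) {a : RN D.N} (ha : D.K (pj x) a = a) :
    D.PU1 (qB 1 x, a) = qB 1 (D.pu1 (pj x, a), x.2) :=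
  (D.cdG 1).out_eq' (F := fun x => qB 1 (D.pu1 (pj x, a), x.2)) fun θ => by
    rw [← qB_ac θ (D.pu1 (pj x, a), x.2)]
    have := D.eq1 θ (pj x, a) ⟨pj_mem hx, ha⟩
    simp only [pj, ac, shS, pow_one] at this ⊢
    rw [this]

variable (D)

theorem oB_mem {y : BQ V m k} (hy : y ∈ D.GB k) : pj (oB y) ∈ D.S ×ˢ Sp m :=
  pj_mem ((D.cdG k).out_mem hy)

theorem rb_Kq : RB D.Kq 7 (D.GB 1) :=
  ⟨D.lc_GB, (D.cdG 1).contOn (D.cK.comp continuous_pj.continuousOn fun _ => pj_mem) fun _ => Kq_q,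
    fun _ h => D.idK _ (D.oB_mem h), fun _ h => D.rkK _ (D.oB_mem h)⟩

theorem sy_Kq {y : BQ V m 1} (hy : y ∈ D.GB 1) (a b : RN D.N) :
    inner ℝ (D.Kq y a) b = inner ℝ a (D.Kq y b) := D.syK _ (D.oB_mem hy) a b

theorem rb_K2 : RB D.K2 7 (D.GB 2) := D.rb_Kq.comp D.lc_GB continuous_kpB.continuousOn D.ok_kap.maps

theorem rb_Pq : RB D.Pq 8 (D.GB 2) :=
  ⟨D.lc_GB, (D.cdG 2).contOn (D.cP.comp continuous_pj.continuousOn fun _ => pj_mem) fun _ => Pq_q,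
    fun _ h => D.idP _ (D.oB_mem h), fun _ h => D.rkP _ (D.oB_mem h)⟩

theorem cb_EC : CB D.EC 7 (D.GB 2) :=
  (D.rb_Kq.cb_cx.comp D.lc_GB continuous_kpB.continuousOn D.ok_kap.maps).kron1 D.cb_LB

include Q in
theorem ori_K (hm : 1 ≤ m) : Ori D.Kq 7 (D.GB 1) D.o1 :=
  Classical.epsilon_spec (D.rb_Kq.exists_ori (sgnTriv_of_van D.isCompact_GB (D.van_GB Q hm)))

include Q in
theorem ori_P (hm : 1 ≤ m) : Ori D.Pq 8 (D.GB 2) D.oP :=
  Classical.epsilon_spec (D.rb_Pq.exists_ori (sgnTriv_of_van D.isCompact_GB (D.van_GB Q hm)))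

include Q in
theorem thZ_K (hm : 1 ≤ m) : ThZ Prod.fst D.T1 (zs _ _) (D.GB 1) 7 D.tau1 :=
  D.rb_Kq.thZ (D.ori_K Q hm) (by norm_num)

include Q in
/-- the Gysin sequence of `P1 → GB 1` -/
theorem gd1 (hm : 1 ≤ m) : GysD Prod.fst D.T1 (zs _ _) (D.GB 1) D.tau1 7 D.eK :=
  gysD_thR D.rb_Kq (D.ori_K Q hm)

/-- the integral over the fibres of `P1 → GB 1` -/
def gy (hm : 1 ≤ m) : H D.P1 univ →ₗ[ℂ] H (D.GB 1) univ := (D.gd1 Q hm).gys

theorem lc_T1 : IsLocallyClosed D.T1 := D.rb_Kq.lc_tot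

theorem lc_P1 : IsLocallyClosed D.P1 := D.lc_T1.inter isClosed_zsR.isOpen_compl.isLocallyClosed

theorem mem_T1 (z : LA V m × RN D.N) : z ∈ D.T1u ↔ (qB 1 z.1, z.2) ∈ D.T1 :=
  ⟨fun h => ⟨((D.cdG 1).pre _).1 h.1, (Kq_q h.1).symm ▸ h.2⟩,
    fun h => ⟨((D.cdG 1).pre _).2 h.1, Kq_q (((D.cdG 1).pre _).2 h.1) ▸ h.2⟩⟩

/-- the circle bundle `T1u → T1` -/
theorem cdT : CD (fun θ z => (ac 1 θ z.1, z.2)) (Prod.map (qB 1) id) (fun z => z.1.2) D.T1u D.T1 :=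
  (D.cdG 1).prod D.lc_T1 D.mem_T1 fun _ h => h.1

/-- the circle bundle `P1u → P1` -/
theorem cdP : CD (fun θ z => (ac 1 θ z.1, z.2)) (Prod.map (qB 1) id) (fun z => z.1.2) D.P1u D.P1 :=
  (D.cdG 1).prod D.lc_P1 (fun z => and_congr_left' (D.mem_T1 z)) fun _ h => h.1.1

/-- the first push upstairs -/
def pu1u (z : LA V m × RN D.N) : LA V m := (D.pu1 (pj z.1, z.2), z.1.2)

theorem T1u_tot {z : LA V m × RN D.N} (h : z ∈ D.T1u) : (pj z.1, z.2) ∈ tot1 D.S D.K := ⟨pj_mem h.1, h.2⟩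

theorem cont_pu1u : ContinuousOn D.pu1u D.T1u :=
  (D.c1.comp ((continuous_pj.comp continuous_fst).prodMk continuous_snd).continuousOn
    fun _ => D.T1u_tot).prodMk (by fun_prop)

theorem PU1_com {z : LA V m × RN D.N} (h : z ∈ D.T1u) :
    D.PU1 (Prod.map (qB 1) id z) = qB 1 (D.pu1u z) := PU1_q h.1 h.2

theorem pu1_le {z : (LM V × CM m) × RN D.N} (h : z ∈ tot1 D.S D.K) : (D.pu1 z).2 ≤ 1 := by
  by_cases e : z.2 = 0
  · rw [show z = (z.1, 0) from Prod.ext rfl e, D.zero1 _ h.1]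
  · exact (D.lt1 z h e).le

theorem pu1u_mem {z : LA V m × RN D.N} (h : z ∈ D.T1u) : D.pu1u z ∈ D.Lam ×ˢ Sp m :=
  ⟨D.mem1 (D.T1u_tot h), h.1.2⟩

theorem pu1u_Ls {z : LA V m × RN D.N} (h : z ∈ D.P1u) : D.pu1u z ∈ D.Ls 1 ×ˢ Sp m :=
  ⟨D.mem_Ls.2 ⟨D.mem1 (D.T1u_tot h.1), D.lt1 _ (D.T1u_tot h.1) h.2⟩, h.1.1.2⟩

theorem cont_PU1 : ContinuousOn D.PU1 D.T1 :=
  D.cdT.contOn (continuous_qB.comp_continuousOn D.cont_pu1u) fun _ => D.PU1_com

theorem PU1_Ls : MapsTo D.PU1 D.P1 (Bo m 1 (D.Ls 1)) := fun z hz => by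
  obtain ⟨w, hw, rfl⟩ := D.cdP.surj hz
  exact ⟨_, D.pu1u_Ls hw, (D.PU1_com hw.1).symm⟩

theorem cont_mq : ContinuousOn D.mq D.P1 := (D.ret m).cont.comp (D.cont_PU1.mono sdiff_subset) D.PU1_Ls

theorem mq_mem : MapsTo D.mq D.P1 𝕄.M := (D.ret m).mem.comp D.PU1_Ls

theorem ok_mq : Ok D.mq D.P1 univ 𝕄.M univ := ok_top D.lc_P1 D.cont_mq D.mq_mem

theorem isZ_yp : IsZ (D.yp Q) := Q.isZ_y.pul _ _ _

theorem isDeg_yp : IsDeg 8 (D.yp Q) := Q.isDeg_y.pull _ _ _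

theorem yp_pow : D.yp Q ^ 3 = 0 := by rw [yp, ← pull_pow D.ok_mq, Q.y_pow, map_zero]

/-- upstairs `mq` is homotopic to the base point of the geodesic -/
theorem exists_Hh : ∃ F : (LA V m × RN D.N) × ℝ → V, ContinuousOn F (D.P1u ×ˢ Icc 0 1) ∧
    MapsTo F (D.P1u ×ˢ Icc 0 1) 𝕄.M ∧
    ∀ z ∈ D.P1u, F (z, 0) = D.mq (qB 1 z.1, z.2) ∧ F (z, 1) = z.1.1.1 1 := by
  obtain ⟨F, hF, mF, e⟩ := (D.ret m).ht
  have sm : ∀ z ∈ D.P1u, ∀ t : ℝ, (pj z.1, t • z.2) ∈ tot1 D.S D.K := fun z hz t =>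
    ⟨pj_mem hz.1.1, by rw [map_smul, hz.1.2]⟩
  refine ⟨fun w => if w.2 ≤ 1 / 2 then F (D.pu1u w.1, min (2 * w.2) 1)
    else (D.pu1 (pj w.1.1, (2 - 2 * w.2) • w.1.2)).1 1, contOn_ite continuousOn_snd continuousOn_const
      (hF.comp (((D.cont_pu1u.mono sdiff_subset).comp continuousOn_fst fun _ h => h.1).prodMk (by fun_prop))
        fun w h => ⟨D.pu1u_Ls h.1, le_min (by linarith [h.2.1]) zero_le_one, min_le_right _ _⟩)
      ((continuous_eval_const 1).comp_continuousOn (continuous_fst.comp_continuousOn (D.c1.comp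
        (Continuous.continuousOn (by have := continuous_pj (V := V) (m := m); fun_prop))
        fun w h => sm _ h.1 _))) fun w h k => ?_, fun w h => ?_, fun z hz => ⟨?_, ?_⟩⟩
  · rw [k, show min (2 * (1 / 2 : ℝ)) 1 = 1 by norm_num, (e _ (D.pu1u_Ls h.1)).2,
      show (2 - 2 * (1 / 2) : ℝ) = 1 by norm_num, one_smul]
    rfl
  · dsimp only
    split_ifs
    · exact mF ⟨D.pu1u_Ls h.1, le_min (by linarith [h.2.1]) zero_le_one, min_le_right _ _⟩
    · exact (D.mem1 (sm _ h.1 _)).1 _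
  · dsimp only
    rw [if_pos (by norm_num), mul_zero, min_eq_left zero_le_one, (e _ (D.pu1u_Ls hz)).1,
      ← D.PU1_com hz.1]
    rfl
  · dsimp only
    rw [if_neg (by norm_num), mul_one, sub_self, zero_smul, D.zero1 _ (pj_mem hz.1.1)]
    rfl

end TD

end Pool.Agent.Work.MP_8c604c_gt.OT
end
end

-- merged part: Pool.Agent.Work.MP_8c604c_gt.OR.If
section
/-!
The interface between the torus calculus, the local degrees and the assembly of `R1`, `R2` (owner helper4).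
-/

noncomputable section

set_option linter.unusedSectionVars false

namespace Pool.Agent.Work.MP_8c604c_gt.OT

open Set Topology Pool.Agent.Work.MP_849ab0_ag.G T

variable {V : Type} [NormedAddCommGroup V] [InnerProductSpace ℝ V] [FiniteDimensional ℝ V]
  {𝕄 : Mf V} {m : ℕ}

/-- loops of speed at most one -/
def TD1.Le (D : TD1 𝕄) : Set (LS V) := D.Lam ∩ {x | x.2 ≤ 1}

/-- loops with base point in `N` -/
def TD1.LamB (D : TD1 𝕄) (N : Set V) : Set (LS V) := D.Lam ∩ {x | x.1 1 ∈ N}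

/-- The output of the torus calculus: `z` is the class of degree 30, `w₂`, `w₃`, `w₄` are local classes. -/
structure TD1.JC (D : TD1 𝕄) (Q : MT 𝕄) (z : H D.Lam univ) (w₂ : H D.Lam (Zr 1))
    (w₃ w₄ : H D.Lam (Zr 2)) : Prop where
  deg : IsDeg 30 z
  dbl : pull dbS D.Le univ z = (2 : ℂ) • pull id D.Le univ z
  mul : pull bas D.Lam univ Q.y * z = pull id D.Lam univ w₂
  rot : ∀ N : Set V, IsCompact N → N ⊆ 𝕄.M → (∀ q : ℤ, q ≠ 0 → Van q N univ) →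
    pull id (D.LamB N) univ (sl 1 dt D.Lam univ
      (pull (fun w : LS V × Circle => shS w.2 w.1) (D.Lam ×ˢ univ) univ z)) =
      (2 : ℂ) • pull id (D.LamB N) univ w₃ - (2 : ℂ) • pull id (D.LamB N) univ w₄

namespace TD

variable (D : TD 𝕄 m) (Q : MT 𝕄)

/-- the first local degree -/
structure G1 (w : H D.Lam (Zr 1)) : Prop where
  deg : IsDeg 7 w
  fgt : pull id D.Lam univ w =
    sl 1 dt D.Lam univ (pull (fun x : LS V × Circle => x.1.1 x.2) (D.Lam ×ˢ univ) univ Q.y)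
  gen : ∀ x ∈ D.S ×ˢ Sp m, ∀ L : (Fin 7 → ℝ) →ₗ[ℝ] RN D.N, Function.Injective L →
    (∀ v, D.K x (L v) = L v) → Gen 7 (pull (fun v => D.pu1 (x, L v)) univ {0} w)

/-- the local degree along the whole first critical manifold -/
def G2 (w : H D.Lam (Zr 1)) : Prop :=
  IsDeg 38 w ∧ Gen 38 (pull (fun x : LM V × RN D.N => D.pu1 ((x.1, 1), x.2))
    (totR (fun c => D.K (c, 1)) D.S) (zs _ _) w)

/-- the local degree at the double covers -/
def G3 (w : H D.Lam (Zr 2)) : Prop :=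
  IsDeg 29 w ∧ ∀ x : LM V × CM m, ∀ L : (Fin 29 → ℝ) →ₗ[ℝ] FB D.N D.N', Function.Injective L →
    (∀ v, (x, L v) ∈ tot2 D.S D.K D.P) → Gen 29 (pull (fun v => D.pu2 (x, L v)) univ {0} w)

end TD

end Pool.Agent.Work.MP_8c604c_gt.OT
end
end

-- merged part: Pool.Agent.Work.MP_8c604c_gt.OR.Df
section
/-!
The classes and maps of the assembly (owner helper4).
-/

noncomputable section

set_option linter.unusedSectionVars false

namespace Pool.Agent.Work.MP_8c604c_gt.OT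

open Set Topology Pool.Agent.Work.MP_849ab0_ag.G T

variable {V : Type} [NormedAddCommGroup V] [InnerProductSpace ℝ V] [FiniteDimensional ℝ V]
  {𝕄 : Mf V} {m k : ℕ}

namespace TD1

variable (D : TD1 𝕄) {r : ℝ}

theorem inv_Le : Inv D.Le := D.inv_Lam.inter (inv_snd fun t => t ≤ 1)

theorem lc_Le : IsLocallyClosed D.Le :=
  D.lc_Lam.inter (isClosed_le continuous_snd continuous_const).isLocallyClosed

theorem Le_Lam : D.Le ⊆ D.Lam := inter_subset_left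

theorem Ls_Lam : D.Ls r ⊆ D.Lam := sdiff_subset

theorem Le_Ls : D.Le ⊆ D.Ls 2 := fun _ h => D.mem_Ls.2 ⟨h.1, h.2.trans_lt one_lt_two⟩

theorem Le_diff (h : r ≤ 1) : D.Le \ Zr r = D.Ls r :=
  Set.ext fun _ => ⟨fun a => ⟨a.1.1, a.2⟩, fun a => ⟨⟨a.1, (not_le.1 a.2).le.trans h⟩, a.2⟩⟩

theorem Ls_diff {s : ℝ} (h : r ≤ s) : D.Ls s \ Zr r = D.Ls r :=
  Set.ext fun _ => ⟨fun a => ⟨a.1.1, a.2⟩, fun a => ⟨⟨a.1, fun b => a.2 (h.trans b)⟩, a.2⟩⟩

theorem db_Le : MapsTo dbS D.Le D.Lam := fun _ h => D.db_Lam h.1 h.2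

theorem db_Ls : MapsTo dbS (D.Ls (1 / 2)) (D.Ls 1) := fun x h => by
  have k := (D.mem_Ls.1 h).2
  refine D.mem_Ls.2 ⟨D.db_Lam h.1 (by linarith), ?_⟩
  change 2 * x.2 < 1
  linarith

theorem cdL (m k : ℕ) : CD (ac k) (qB k) Prod.snd (D.Lam ×ˢ Sp m) (Bo m k D.Lam) := D.inv_Lam.cd D.lc_Lam

theorem cdLe (m k : ℕ) : CD (ac k) (qB k) Prod.snd (D.Le ×ˢ Sp m) (Bo m k D.Le) := D.inv_Le.cd D.lc_Le

theorem cdLs (m k : ℕ) (r : ℝ) : CD (ac k) (qB k) Prod.snd (D.Ls r ×ˢ Sp m) (Bo m k (D.Ls r)) :=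
  (D.inv_Ls r).cd (D.lc_Ls r)

theorem BL_diff (r : ℝ) : Bo m k D.Lam \ Zq r = Bo m k (D.Ls r) := D.inv_Lam.diff r

theorem BLe_diff (h : r ≤ 1) : Bo m k D.Le \ Zq r = Bo m k (D.Ls r) := by rw [D.inv_Le.diff, D.Le_diff h]

theorem BLs_diff {s : ℝ} (h : r ≤ s) : Bo m k (D.Ls s) \ Zq r = Bo m k (D.Ls r) := by
  rw [(D.inv_Ls s).diff, D.Ls_diff h]

theorem ok_basL {A : Set (LS V)} (h : A ⊆ D.Lam) : Ok bas A univ 𝕄.M univ :=
  .of_mem (.of_continuous continuous_bas _) (fun _ a => (h a).1 _) fun _ _ _ => trivial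

end TD1

namespace TD

variable (D : TD 𝕄 m) (Q : MT 𝕄)

/-- the class `y` on the short loops -/
def YB : H (Bo m 1 (D.Ls 1)) univ := pull (D.mB m) (Bo m 1 (D.Ls 1)) univ Q.y

/-- the coboundary of a monomial -/
def bb (i j : ℕ) : H (Bo m 1 D.Lam) (Zq 1) :=
  dlt (Bo m 1 D.Lam) (Zq 1) (eB (Bo m 1 (D.Ls 1)) ^ i * D.YB Q ^ j)

/-- the transfer of a class on the loop space -/
def bz (z : H D.Lam (Zr 1)) : H (Bo m 1 D.Lam) (Zq 1) :=
  tB 1 (Bo m 1 D.Lam) (Zq 1) (pull Prod.fst (D.Lam ×ˢ Sp m) (Zr 1 ×ˢ univ) z)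

/-- the Thom map of `Kq` -/
def th1 : H (D.GB 1) univ →ₗ[ℂ] H D.T1 (zs _ _) :=
  (cup D.T1 (zs _ _)).flip D.tau1 ∘ₗ pull Prod.fst D.T1 univ

/-- the total space of `K2` -/
def TK : Set (BQ V m 2 × RN D.N) := totR D.K2 (D.GB 2)

/-- the Thom class of `K2` -/
def tau2 : H D.TK (zs _ _) := pull (Prod.map kpB id) D.TK (zs _ _) D.tau1

/-- the Thom map of `K2` -/
def th2 : H (D.GB 2) univ →ₗ[ℂ] H D.TK (zs _ _) :=
  (cup D.TK (zs _ _)).flip D.tau2 ∘ₗ pull Prod.fst D.TK univ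

/-- the total space of `E2` -/
def TE : Set (BQ V m 2 × D.A2) := totR D.E2 (D.GB 2)

/-- the Thom class of `E2` -/
def tauE : H D.TE (zs _ _) :=
  cup D.TE (zs _ _) (pull (fun z => (z.1, z.2.1)) D.TE {z | z.2.1 = 0} D.tau2)
    (cup D.TE {z | z.2.2 = 0}
      (pull (fun z => (z.1, z.2.2.1)) D.TE {z | z.2.2.1 = 0} (th D.EC 7 (D.GB 2)))
      (pull (fun z => (z.1, z.2.2.2)) D.TE {z | z.2.2.2 = 0} (thR D.Pq 8 (D.GB 2) D.oP)))

/-- the first summand of `E2` -/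
def io2 (z : BQ V m 2 × RN D.N) : BQ V m 2 × D.A2 := (z.1, z.2, 0)

/-- the first push on the double cover -/
def PV (z : BQ V m 2 × RN D.N) : BQ V m 2 :=
  qB 2 (D.pu1 (((oB z.1).1.1, (oB z.1).2 * (oB z.1).2), z.2), (oB z.1).2)

theorem th1_apply (a : H (D.GB 1) univ) :
    D.th1 a = cup D.T1 (zs _ _) (pull Prod.fst D.T1 univ a) D.tau1 := rfl

theorem th2_apply (a : H (D.GB 2) univ) :
    D.th2 a = cup D.TK (zs _ _) (pull Prod.fst D.TK univ a) D.tau2 := rfl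

include Q in
theorem th1_inj (hm : 1 ≤ m) : Function.Injective D.th1 := (D.gd1 Q hm).thom.1

theorem th1_gy (hm : 1 ≤ m) (c : H D.P1 univ) : D.th1 (D.gy Q hm c) = dlt D.T1 (zs _ _) c :=
  (D.gd1 Q hm).gys_spec c

theorem ok_mB : Ok (D.mB m) (Bo m 1 (D.Ls 1)) univ 𝕄.M univ :=
  ok_top (D.cdLs m 1 1).lc (D.ret m).cont (D.ret m).mem

theorem isDeg_YB : IsDeg 8 (D.YB Q) := Q.isDeg_y.pull _ _ _

theorem YB_pow : D.YB Q ^ 3 = 0 := by rw [YB, ← pull_pow D.ok_mB, Q.y_pow, map_zero]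

theorem isDeg_bb (i j : ℕ) : IsDeg (i * 2 + j * 8 + 1) (D.bb Q i j) :=
  (IsDeg.mulH (IsDeg.powH (D.cdLs m 1 1).isDeg_ee i) (IsDeg.powH (D.isDeg_YB Q) j)).dlt _ _

theorem isDeg_bz {p : ℤ} {z : H D.Lam (Zr 1)} (h : IsDeg (p + 1) z) : IsDeg p (D.bz z) :=
  (D.cdL m 1).isDeg_tr (sdB _ _ 1) (h.pull _ _ _)

theorem lc_TK : IsLocallyClosed D.TK := D.rb_K2.lc_tot

theorem ok_kT : Ok (Prod.map kpB id) D.TK (zs _ _) D.T1 (zs _ _) :=
  .of_mem (.of_continuous (continuous_kpB.prodMap continuous_id) _)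
    (fun _ h => ⟨D.ok_kap.maps h.1, h.2⟩) fun _ _ h => h

end TD

end Pool.Agent.Work.MP_8c604c_gt.OT
end
end

-- merged part: Pool.Agent.Work.MP_8c604c_gt.OR.Wt
section
/-!
The weights of the doubling map (owner helper4).

PLAN.  `em_ps`: the structure `EM` of `OT/Bor2` (`ps_ac`, `psB_q`, `continuous_dbS`); `em_kp` as `em_kap` in `OT/RD` but with an inclusion.
`ps_bb`: both sides by `pull_dlt` (`V := Bo m 2 Le`, `U₁ := Bo m 2 (Ls (1 / 2))`, `ok_psB'`, `ok_psB D.db_Ls`, `ok_kpB'`, `ok_kpB`, `BL_diff`, `BLe_diff`), `pull_mul`, `pull_pow`,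
`EM.map_ee` (weight 1 for `psB`, weight 2 for `kpB`, circle data `cdLs`), `smul_pow`.
`ps_bz`: `EM.map_tr` with supports `sdB _ _ 1` and `sdB _ _ (1 / 2)` for `em_ps D.db_Le` and `em_kp D.Le_Lam`; `pull_pull'` shows that the two classes upstairs are the pull-backs along
`Prod.fst` of `pull dbS Le (Zr (1 / 2)) z` and `pull id Le (Zr (1 / 2)) z`.
`q_bb`: `pull_dlt` with `(cdL m 1).ok_q`, `(cdLs m 1 1).ok_q'`, `CD.q_ee`.
`q_bz`: `CD.q_tr` (sign `(-1) ^ 29`), `Top.sl_nat top_dt` for the slice `x ↦ (x, ζ)` (`ok_slS`), `pull_pull'`, `pow_one`.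
-/

noncomputable section

set_option linter.unusedSectionVars false

namespace Pool.Agent.Work.MP_8c604c_gt.OT

open Set Topology Matrix Pool.Agent.Work.MP_849ab0_ag.G T

variable {V : Type} [NormedAddCommGroup V] [InnerProductSpace ℝ V] [FiniteDimensional ℝ V]
  {𝕄 : Mf V} {m : ℕ}

theorem em_ps {A A' : Set (LS V)} (h : MapsTo dbS A A') :
    EM (ac 2) (qB 2) (A ×ˢ Sp m) (ac 1) (qB 1) (A' ×ˢ Sp m) (Prod.map dbS id) psB 1 := by
  exact ⟨one_ne_zero, (continuous_dbS.prodMap continuous_id).continuousOn, fun _ a => ⟨h a.1, a.2⟩,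
    fun θ x _ => by rw [pow_one]; exact ps_ac θ x, fun x _ => psB_q x⟩

theorem em_kp {A A' : Set (LS V)} (h : A ⊆ A') : EM (ac 2) (qB 2) (A ×ˢ Sp m) (ac 1) (qB 1) (A' ×ˢ Sp m)
    (fun x => (x.1, x.2 * x.2)) kpB 2 := by
  exact ⟨two_ne_zero, by fun_prop, fun _ a => ⟨h a.1, Sp_sq a.2⟩, fun θ x _ => kp_ac θ x,
    fun x _ => kpB_q x⟩

namespace TD

variable (D : TD 𝕄 m) (Q : MT 𝕄)

theorem ps_bb (e : pull psB (Bo m 2 (D.Ls (1 / 2))) univ (D.YB Q) =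
      pull kpB (Bo m 2 (D.Ls (1 / 2))) univ (D.YB Q)) (i j : ℕ) :
    pull kpB (Bo m 2 D.Le) (Zq (1 / 2)) (D.bb Q i j) =
      (2 : ℂ) ^ i • pull psB (Bo m 2 D.Le) (Zq (1 / 2)) (D.bb Q i j) := by
  have s : D.Ls (1 / 2) ⊆ D.Ls 1 := fun _ a =>
    D.mem_Ls.2 ⟨a.1, (D.mem_Ls.1 a).2.trans (by norm_num)⟩
  have c := (D.BLe_diff (m := m) (k := 2) (r := 1 / 2) (by norm_num)).subset
  have c' := (D.BL_diff (m := m) (k := 1) 1).subset
  have e1 : pull psB (Bo m 2 (D.Ls (1 / 2))) univ (eB (Bo m 1 (D.Ls 1))) =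
      ((1 : ℕ) : ℂ) • eB (Bo m 2 (D.Ls (1 / 2))) :=
    (em_ps D.db_Ls).map_ee (D.cdLs m 1 1) (D.cdLs m 2 (1 / 2))
  have e2 : pull kpB (Bo m 2 (D.Ls (1 / 2))) univ (eB (Bo m 1 (D.Ls 1))) =
      ((2 : ℕ) : ℂ) • eB (Bo m 2 (D.Ls (1 / 2))) :=
    (em_kp s).map_ee (D.cdLs m 1 1) (D.cdLs m 2 (1 / 2))
  rw [bb, pull_dlt (.of_continuous continuous_kpB univ) (subset_univ _) (subset_univ _)
      (ok_kpB' D.Le_Lam (by norm_num)) (ok_kpB s) c c',
    pull_dlt (.of_continuous continuous_psB univ) (subset_univ _) (subset_univ _)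
      (ok_psB' D.db_Le (by norm_num)) (ok_psB D.db_Ls) c c',
    pull_mul (ok_kpB s), pull_mul (ok_psB D.db_Ls), pull_pow (ok_kpB s), pull_pow (ok_kpB s),
    pull_pow (ok_psB D.db_Ls), pull_pow (ok_psB D.db_Ls), e, e1, e2, Nat.cast_one, one_smul,
    Nat.cast_ofNat, _root_.smul_pow, smul_mul_assoc, map_smul]

theorem ps_bz {z : H D.Lam (Zr 1)}
    (e : pull dbS D.Le (Zr (1 / 2)) z = (2 : ℂ) • pull id D.Le (Zr (1 / 2)) z) :
    pull psB (Bo m 2 D.Le) (Zq (1 / 2)) (D.bz z) =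
      (4 : ℂ) • pull kpB (Bo m 2 D.Le) (Zq (1 / 2)) (D.bz z) := by
  have z1 : ∀ x : LS V, dbS x ∈ Zr 1 → x ∈ Zr (1 / 2) := fun x a => by
    have : (1 : ℝ) ≤ 2 * x.2 := a
    change 1 / 2 ≤ x.2
    linarith
  have z2 : ∀ x : LS V, x ∈ Zr 1 → x ∈ Zr (1 / 2) := fun x a =>
    le_trans (by norm_num : (1 / 2 : ℝ) ≤ 1) a
  have o0 := ok_fst D.Lam (Zr 1) (Sp m)
  have o1 := ok_fst D.Le (Zr (1 / 2)) (Sp m)
  have od : Ok dbS D.Le (Zr (1 / 2)) D.Lam (Zr 1) :=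
    .of_mem (.of_continuous continuous_dbS _) D.db_Le fun x _ => z1 x
  have oi : Ok id D.Le (Zr (1 / 2)) D.Lam (Zr 1) := .id D.Le_Lam fun x _ => z2 x
  have op : Ok (Prod.map dbS id) (D.Le ×ˢ Sp m) (Zr (1 / 2) ×ˢ univ) (D.Lam ×ˢ Sp m)
      (Zr 1 ×ˢ univ) := .of_mem (.of_continuous (continuous_dbS.prodMap continuous_id) _)
    (em_ps D.db_Le).maps fun x _ a => ⟨z1 _ a.1, trivial⟩
  have ok : Ok (fun x : LA V m => (x.1, x.2 * x.2)) (D.Le ×ˢ Sp m) (Zr (1 / 2) ×ˢ univ)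
      (D.Lam ×ˢ Sp m) (Zr 1 ×ˢ univ) := .of_mem (.of_continuous (by fun_prop) _)
    (em_kp D.Le_Lam).maps fun x _ a => ⟨z2 _ a.1, trivial⟩
  have t1 := (em_ps D.db_Le).map_tr (D.cdL m 1) (D.cdLe m 2) (sdB _ _ 1) (sdB _ _ (1 / 2))
    (fun x h a => op.mem h a) (pull Prod.fst (D.Lam ×ˢ Sp m) (Zr 1 ×ˢ univ) z)
  have t2 := (em_kp D.Le_Lam).map_tr (D.cdL m 1) (D.cdLe m 2) (sdB _ _ 1) (sdB _ _ (1 / 2))
    (fun x h a => ok.mem h a) (pull Prod.fst (D.Lam ×ˢ Sp m) (Zr 1 ×ˢ univ) z)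
  rw [pull_pull' (F := fun x => dbS x.1) op o0 fun _ _ => rfl,
    ← pull_pull' (F := fun x => dbS x.1) o1 od fun _ _ => rfl, e, map_smul, map_smul,
    pull_pull' (F := Prod.fst) o1 oi fun _ _ => rfl, Nat.cast_one, one_smul] at t1
  rw [pull_pull' (F := Prod.fst) ok o0 fun _ _ => rfl, Nat.cast_ofNat] at t2
  rw [t2, smul_smul] at t1
  rw [bz, tB, ← t1]
  norm_num

theorem q_bb (i j : ℕ) : pull (qB 1) (D.Lam ×ˢ Sp m) (Zr 1 ×ˢ univ) (D.bb Q (i + 1) j) = 0 := by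
  have o := (D.cdLs m 1 1).ok_q'
  have e : pull (qB 1) (D.Ls 1 ×ˢ Sp m) univ (eB (Bo m 1 (D.Ls 1))) = 0 := (D.cdLs m 1 1).q_ee
  rw [bb, pull_dlt (.of_continuous continuous_qB univ) (subset_univ _) (subset_univ _)
      ((D.cdL m 1).ok_q (sdB _ _ 1)) o (fun x a => ⟨⟨a.1.1, fun b => a.2 ⟨b, trivial⟩⟩, a.1.2⟩)
      (D.BL_diff 1).subset, pull_mul o, pull_pow o, e, zero_pow (Nat.succ_ne_zero i), zero_mul,
    map_zero]

theorem Wt_ok {ζ : CM m} (h : ζ ∈ Sp m) :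
    Ok (fun x : LS V => (x, ζ)) D.Lam univ (D.Lam ×ˢ Sp m) (Zr 1 ×ˢ univ) :=
  .of_mem (.of_continuous (by fun_prop) _) (fun _ k => ⟨k, h⟩) fun _ _ _ => trivial

theorem sl_bb {ζ : CM m} (h : ζ ∈ Sp m) (i j : ℕ) :
    pull (fun x => qB 1 (x, ζ)) D.Lam univ (D.bb Q (i + 1) j) = 0 := by
  rw [← pull_pull' (F := fun x => qB 1 (x, ζ)) (D.Wt_ok h)
    ((D.cdL m 1).ok_q (sdB _ _ 1)) fun _ _ => rfl, D.q_bb, map_zero]

theorem sl_bz {ζ : CM m} (h : ζ ∈ Sp m) {z : H D.Lam (Zr 1)} (hz : IsDeg 30 z) :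
    pull (fun x => qB 1 (x, ζ)) D.Lam univ (D.bz z) = -sl 1 dt D.Lam univ
      (pull (fun w : LS V × Circle => shS w.2 w.1) (D.Lam ×ˢ univ) univ (pull id D.Lam univ z)) := by
  have o := D.Wt_ok h
  have o0 := ok_fst D.Lam (Zr 1) (Sp m)
  have o1 : Ok (fun w : LA V m × Circle => ac 1 w.2 w.1) ((D.Lam ×ˢ Sp m) ×ˢ univ)
      ((Zr 1 ×ˢ univ) ×ˢ univ) (D.Lam ×ˢ Sp m) (Zr 1 ×ˢ univ) :=
    .of_mem (.of_continuous (continuous_ac.comp continuous_swap) _)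
      (fun w a => D.inv_Lam.ac _ _ a.1) fun _ _ a => ⟨⟨a.1, trivial⟩, trivial⟩
  have o2 : Ok (Prod.map (fun x : LS V => (x, ζ)) (id : Circle → Circle)) (D.Lam ×ˢ univ) univ
      ((D.Lam ×ˢ Sp m) ×ˢ univ) ((Zr 1 ×ˢ univ) ×ˢ univ) :=
    .of_mem (.of_continuous (by fun_prop) _) (fun _ a => ⟨⟨a.1, h⟩, trivial⟩) fun _ _ _ => trivial
  have o3 : Ok (fun w : LS V × Circle => shS w.2 w.1) (D.Lam ×ˢ univ) univ D.Lam univ :=
    .of_mem (.of_continuous (continuous_shS.comp continuous_swap) _)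
      (fun w a => D.inv_Lam _ _ a.1) fun _ _ _ => trivial
  have t := (D.cdL m 1).q_tr (p := 29) (sdB _ _ 1)
    (c := pull Prod.fst (D.Lam ×ˢ Sp m) (Zr 1 ×ˢ univ) z) (hz.pull _ _ _)
  rw [← pull_pull' (F := fun x => qB 1 (x, ζ)) o ((D.cdL m 1).ok_q (sdB _ _ 1)) fun _ _ => rfl,
    bz, tB, t, map_smul, ← top_dt.sl_nat o (W₁ := univ) (fun _ _ a => a.1) (fun _ _ _ => trivial)
      fun _ _ _ => trivial, pull_pull o1 o0,
    pull_pull' (F := fun w : LS V × Circle => shS w.2 w.1) o2 (o0.comp o1) fun w _ => by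
      change shS (w.2 ^ 1) w.1 = _
      rw [pow_one],
    pull_res o3 subset_rfl fun _ _ _ => trivial, (by decide : Odd (29 : ℤ)).neg_one_zpow,
    neg_smul, one_smul]

end TD

end Pool.Agent.Work.MP_8c604c_gt.OT
end
end
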