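import Pool.Agent.Work.MP_8c604c_gt.OD.JP
import Pool.Agent.Work.MP_8c604c_gt.OG.HS
import Pool.Agent.Work.MP_8c604c_gt.OL.Sld
import Pool.Agent.Work.MP_8c604c_gt.OR.Wt

-- merged part: Pool.Agent.Work.MP_8c604c_gt.OL.Eq
section
-- merged part: Pool.Agent.Work.MP_8c604c_gt.OL.Thm
section
/-!
Broken geodesics retract onto their first point; the Thom isomorphism for those that end in a cut point.

PLAN.  `A3_surj`: with `g (p, q) s = mv (p, q) (s * d p q)` the homotopies `(a, b, c, g (c, d) s)`, `(a, b, g (b, c) s, g (b, c) s)`,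
`(a, g (a, b) s, g (a, b) s, g (a, b) s)` of maps `A3 → A3` join `(a, a, a, a)` to the identity (`mv_lip`, `mv_le`, `mv_ge`, `D.nb`, `d_self`, `contOn_mv`,
`pull_htpy'`, `ext_htpy`); `m` is the pull-back along the diagonal (`pull_pull'`).
`exists_thom`: let `E = totR (WF ∘ ends) (AF B)` (`RB.comp`, `Ori.comp`, `gysD_thR`, `GysD.thomE`, `GysD.exists_thom` in `T/Tube`),
`Ψ (y, v) = (y.1, y.2.1, y.2.2.1, (Th (ends y, v)).2)` and `E' = E ∩ Ψ ⁻¹' A3 B`.  `Ψ` is a homeomorphism of `E'` onto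
`W = {y ∈ A3 B | ends y ∈ Od ∧ (y.2.2.1, (hat (ends y)).2) ∈ Nb}` with inverse `y ↦ ((y.1, y.2.1, y.2.2.1, (hat (ends y)).2), (Thi (ends y)).2)`
(`cont_Th`, `cont_Thi`, `Thi_Th`, `Th_Thi`, `Th_F`, `Th_fst`, `hat_Th`, `cont_hat`, `pull_bij_of_inv`).  `W` is a neighbourhood of `AF B` in `A3 B` and `E'` is a
neighbourhood of the zero section in `E` (`mem_Nb`, `contOn_d`), so both restrictions are bijective (`res_excision`).  Compose; the degree passes through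
bijective pull-backs by `pull_prj` and `isDeg_iff`.
-/

noncomputable section

set_option linter.unusedSectionVars false

namespace Pool.Agent.Work.MP_8c604c_gt.OT

open Set Real Topology Pool.Agent.Work.MP_849ab0_ag.G T

variable {V : Type} [NormedAddCommGroup V] [InnerProductSpace ℝ V] [FiniteDimensional ℝ V]
  {𝕄 : Mf V}

namespace TD1

variable (D : TD1 𝕄) {B : Set V}

/-- the point at the fraction `s` of the way -/
def Thm_g (y : V × V) (s : ℝ) : V := D.mv y (s * D.d y.1 y.2)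

theorem Thm_g0 {y : V × V} (h : y ∈ D.Nb) : D.Thm_g y 0 = y.1 := D.mv_le h (zero_mul _).le

theorem Thm_g1 {y : V × V} (h : y ∈ D.Nb) : D.Thm_g y 1 = y.2 := D.mv_ge h (one_mul _).ge

theorem Thm_dg {p : V} (h : p ∈ 𝕄.M) : (p, p) ∈ D.Nb :=
  D.nb h h (by rw [D.d_self h]; positivity)

theorem Thm_gg {y : V × V} (h : y ∈ D.Nb) (s : ℝ) : (D.Thm_g y s, D.Thm_g y s) ∈ D.Nb :=
  D.Thm_dg (D.mv_mem h _)

theorem Thm_nb {y : V × V} (h : y ∈ D.Nb) {s : ℝ} (hs : s ∈ Icc (0 : ℝ) 1) :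
    (y.1, D.Thm_g y s) ∈ D.Nb := by
  refine D.nb h.1.1 (D.mv_mem h _) ?_
  have k := D.mv_lip h 0 (s * D.d y.1 y.2)
  have n := D.d_nonneg h.1.1 h.1.2
  rw [D.mv_le h le_rfl, zero_sub, abs_neg, abs_of_nonneg (mul_nonneg hs.1 n)] at k
  exact (k.trans (mul_le_of_le_one_left n hs.2)).trans_lt (D.d_Nb h)

theorem Thm_cont {f g : V4 V → V} (hf : Continuous f) (hg : Continuous g)
    (m : ∀ y ∈ D.A3 B, (f y, g y) ∈ D.Nb) :
    ContinuousOn (fun z : V4 V × ℝ => D.Thm_g (f z.1, g z.1) z.2) (D.A3 B ×ˢ Icc 0 1) :=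
  D.contOn_mv (by fun_prop) (by fun_prop) (continuousOn_snd.mul (D.contOn_d (by fun_prop)
    (by fun_prop) (fun z hz => (m _ hz.1).1.1) fun z hz => (m _ hz.1).1.2)) fun z hz => m _ hz.1

theorem A3_surj (hB : IsClosed B) (hM : B ⊆ 𝕄.M) (b : H (D.A3 B) univ) :
    ∃ m : H B univ, b = pull Prod.fst (D.A3 B) univ m := by
  have l := D.lc_A3 hB
  have h1 : (pull (fun y : V4 V => (y.1, y.2.1, y.2.2.1, y.2.2.1)) (D.A3 B) univ :
      H (D.A3 B) univ →ₗ[ℂ] _) = pull id (D.A3 B) univ := pull_htpy'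
    (F := fun z => (z.1.1, z.1.2.1, z.1.2.2.1, D.Thm_g (z.1.2.2.1, z.1.2.2.2) z.2))
    (ext_htpy l (ContinuousOn.prodMk (by fun_prop) (ContinuousOn.prodMk (by fun_prop)
      (ContinuousOn.prodMk (by fun_prop) (D.Thm_cont (f := fun y => y.2.2.1)
        (g := fun y => y.2.2.2) (by fun_prop) (by fun_prop) fun _ h => h.2.2.2)))))
    (fun y h t ht => ⟨h.1, h.2.1, h.2.2.1, D.Thm_nb h.2.2.2 ht⟩) (fun _ _ _ _ _ => trivial)
    (fun y h => by simp only [D.Thm_g0 h.2.2.2]) fun y h => by simp only [D.Thm_g1 h.2.2.2, id]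
  have c2 := D.Thm_cont (B := B) (f := fun y => y.2.1) (g := fun y => y.2.2.1) (by fun_prop)
    (by fun_prop) fun _ h => h.2.2.1
  have h2 : (pull (fun y : V4 V => (y.1, y.2.1, y.2.1, y.2.1)) (D.A3 B) univ :
      H (D.A3 B) univ →ₗ[ℂ] _) =
      pull (fun y : V4 V => (y.1, y.2.1, y.2.2.1, y.2.2.1)) (D.A3 B) univ := pull_htpy'
    (F := fun z => (z.1.1, z.1.2.1, D.Thm_g (z.1.2.1, z.1.2.2.1) z.2,
      D.Thm_g (z.1.2.1, z.1.2.2.1) z.2))
    (ext_htpy l (ContinuousOn.prodMk (by fun_prop) (ContinuousOn.prodMk (by fun_prop)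
      (c2.prodMk c2))))
    (fun y h t ht => ⟨h.1, h.2.1, D.Thm_nb h.2.2.1 ht, D.Thm_gg h.2.2.1 t⟩)
    (fun _ _ _ _ _ => trivial)
    (fun y h => by simp only [D.Thm_g0 h.2.2.1]) fun y h => by simp only [D.Thm_g1 h.2.2.1]
  have c3 := D.Thm_cont (B := B) (f := fun y => y.1) (g := fun y => y.2.1) (by fun_prop)
    (by fun_prop) fun _ h => h.2.1
  have h3 : (pull (fun y : V4 V => (y.1, y.1, y.1, y.1)) (D.A3 B) univ :
      H (D.A3 B) univ →ₗ[ℂ] _) =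
      pull (fun y : V4 V => (y.1, y.2.1, y.2.1, y.2.1)) (D.A3 B) univ := pull_htpy'
    (F := fun z => (z.1.1, D.Thm_g (z.1.1, z.1.2.1) z.2, D.Thm_g (z.1.1, z.1.2.1) z.2,
      D.Thm_g (z.1.1, z.1.2.1) z.2))
    (ext_htpy l (ContinuousOn.prodMk (by fun_prop) (c3.prodMk (c3.prodMk c3))))
    (fun y h t ht => ⟨h.1, D.Thm_nb h.2.1 ht, D.Thm_gg h.2.1 t, D.Thm_gg h.2.1 t⟩)
    (fun _ _ _ _ _ => trivial)
    (fun y h => by simp only [D.Thm_g0 h.2.1]) fun y h => by simp only [D.Thm_g1 h.2.1]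
  have o : Ok (fun p : V => (p, p, p, p)) B univ (D.A3 B) univ :=
    .of_mem (.of_continuous (by fun_prop) _)
      (fun p h => ⟨h, D.Thm_dg (hM h), D.Thm_dg (hM h), D.Thm_dg (hM h)⟩) fun _ _ _ => trivial
  refine ⟨pull (fun p : V => (p, p, p, p)) B univ b, ?_⟩
  rw [pull_pull' (F := fun y : V4 V => (y.1, y.1, y.1, y.1)) D.ok_fstA o fun _ _ => rfl, h3, h2, h1,
    pull_id]

/-- the normal bundle of `AF` -/
abbrev Thm_E (B : Set V) : Set (V4 V × V) := totR (fun y => D.WF (ends y)) (D.AF B)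

/-- the tube map -/
def Thm_Ψ (z : V4 V × V) : V4 V := (z.1.1, z.1.2.1, z.1.2.2.1, (D.Th (ends z.1, z.2)).2)

/-- its inverse -/
def Thm_Φ (y : V4 V) : V4 V × V :=
  ((y.1, y.2.1, y.2.2.1, (D.hat (ends y)).2), (D.Thi (ends y)).2)

/-- the domain of the tube map -/
def Thm_E' (B : Set V) : Set (V4 V × V) :=
  {z | z ∈ D.Thm_E B ∧ (z.1.2.2.1, (D.Th (ends z.1, z.2)).2) ∉ D.F}

/-- the tube -/
def Thm_W (B : Set V) : Set (V4 V) :=
  {y | y ∈ D.A3 B ∧ ends y ∈ 𝕄.Od ∧ (y.2.2.1, (D.hat (ends y)).2) ∉ D.F}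

theorem Thm_tot {z : V4 V × V} (h : z ∈ D.Thm_E B) : (ends z.1, z.2) ∈ totR D.WF D.F :=
  ⟨h.1.2, h.2⟩

theorem Thm_ends (z : V4 V × V) : ends (D.Thm_Ψ z) = D.Th (ends z.1, z.2) :=
  Prod.ext (D.Th_fst (ends z.1, z.2)).symm rfl

theorem Thm_ends' (y : V4 V) : (ends (D.Thm_Φ y).1, (D.Thm_Φ y).2) = D.Thi (ends y) := rfl

theorem Thm_cTh : ContinuousOn (fun z : V4 V × V => (D.Th (ends z.1, z.2)).2) (D.Thm_E B) :=
  (D.cont_Th.comp ((continuous_ends.comp continuous_fst).prodMk continuous_snd).continuousOn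
    fun _ h => D.Thm_tot h).snd

theorem Thm_chat : ContinuousOn (fun y : V4 V => (D.hat (ends y)).2) (ends ⁻¹' 𝕄.Od) :=
  (D.cont_hat.comp continuous_ends.continuousOn fun _ h => h).snd

theorem Thm_rb (hB : IsClosed B) : RB (fun y => D.WF (ends y)) 8 (D.AF B) :=
  D.rb_WF.comp (D.lc_AF hB) continuous_ends.continuousOn fun _ h => h.2

theorem Thm_okΨ (hB : IsClosed B) : Ok D.Thm_Ψ (D.Thm_E' B) (zs _ _) (D.Thm_W B) D.FA := by
  have c : ContinuousOn D.Thm_Ψ (D.Thm_E B) := ContinuousOn.prodMk (by fun_prop)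
    (ContinuousOn.prodMk (by fun_prop) (ContinuousOn.prodMk (by fun_prop) D.Thm_cTh))
  refine .of_mem ((Ext.of_continuousOn (D.Thm_rb hB).lc_tot c).mono fun _ h => h.1)
    (fun z h => ?_) fun z h k => ?_
  · have t := D.Thm_tot h.1
    have a := h.1.1.1
    refine ⟨⟨a.1, a.2.1, a.2.2.1, ⟨a.2.2.2.1.1, (D.Th_mem t).1.2⟩, h.2⟩, ?_, ?_⟩
    · rw [D.Thm_ends]
      exact D.Th_mem t
    · rw [D.Thm_ends, D.hat_Th t]
      exact a.2.2.2.2
  · exact (D.Th_F (D.Thm_tot h.1)).1 (D.Thm_ends z ▸ k)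

theorem Thm_okΦ : Ok D.Thm_Φ (D.Thm_W B) D.FA (D.Thm_E' B) (zs _ _) := by
  have c : ContinuousOn D.Thm_Φ (ends ⁻¹' 𝕄.Od) := ContinuousOn.prodMk
    (ContinuousOn.prodMk (by fun_prop) (ContinuousOn.prodMk (by fun_prop)
      (ContinuousOn.prodMk (by fun_prop) D.Thm_chat)))
    (D.cont_Thi.comp continuous_ends.continuousOn fun _ h => h).snd
  refine .of_mem ((Ext.of_continuousOn (lc_Od'.preimage continuous_ends) c).mono fun _ h => h.2.1)
    (fun y h => ?_) fun y h k => ?_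
  · have t := D.Thi_mem h.2.1
    have a := h.1
    refine ⟨⟨⟨⟨a.1, a.2.1, a.2.2.1, ⟨a.2.2.2.1.1, (D.F_MM t.1).2⟩, h.2.2⟩, t.1⟩, t.2⟩, ?_⟩
    rw [D.Thm_ends', D.Th_Thi h.2.1]
    exact a.2.2.2.2
  · have := (D.Th_F (D.Thi_mem h.2.1)).2 k
    rwa [D.Th_Thi h.2.1] at this

theorem Thm_bijΨ (hB : IsClosed B) : Function.Bijective
    (pull D.Thm_Ψ (D.Thm_E' B) (zs _ _) : H (D.Thm_W B) D.FA → _) := by
  refine pull_bij_of_inv (D.Thm_okΨ hB) D.Thm_okΦ (fun z h => ?_) fun y h => ?_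
  · have t := D.Thm_tot h.1
    rw [Thm_Φ, D.Thm_ends, D.hat_Th t, D.Thi_Th t]
    rfl
  · rw [Thm_Ψ, D.Thm_ends', D.Th_Thi h.2.1]
    rfl

theorem Thm_excW : Function.Bijective (pull id (D.Thm_W B) D.FA : H (D.A3 B) D.FA → _) := by
  refine res_excision (fun _ h => h.1) (.of_isClosed D.isClosed_FA _) (fun x hx k => ?_)
    fun _ _ => Iff.rfl
  have h1 : ends ⁻¹' 𝕄.Od ∈ 𝓝[D.A3 B] x := by
    filter_upwards [self_mem_nhdsWithin, mem_nhdsWithin_of_mem_nhds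
      ((isClosed_Dg'.preimage continuous_ends).isOpen_compl.mem_nhds (D.F_sub k).2)] with y a b
    exact ⟨⟨a.2.1.1.1, a.2.2.2.1.2⟩, b⟩
  have c : ContinuousWithinAt (fun y : V4 V => (y.2.2.1, (D.hat (ends y)).2)) (D.A3 B) x :=
    ContinuousWithinAt.prodMk (by fun_prop)
      ((D.Thm_chat x (D.F_sub k)).mono_of_mem_nhdsWithin h1)
  have n : (x.2.2.1, (D.hat (ends x)).2) ∉ D.F := by
    rw [D.hat_of_mem k]
    exact hx.2.2.2.2
  filter_upwards [self_mem_nhdsWithin, h1,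
    c.eventually (D.isClosed_F.isOpen_compl.mem_nhds n)] with y a b e using ⟨a, b, e⟩

theorem Thm_excE :
    Function.Bijective (pull id (D.Thm_E' B) (zs _ _) : H (D.Thm_E B) (zs _ _) → _) := by
  refine res_excision (fun _ h => h.1) (.of_isClosed isClosed_zsR _) (fun x hx k => ?_)
    fun _ _ => Iff.rfl
  have c : ContinuousWithinAt (fun z : V4 V × V => (z.1.2.2.1, (D.Th (ends z.1, z.2)).2))
      (D.Thm_E B) x := ContinuousWithinAt.prodMk (by fun_prop) (D.Thm_cTh x hx)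
  have n : (x.1.2.2.1, (D.Th (ends x.1, x.2)).2) ∉ D.F := by
    rw [show x.2 = 0 from k, D.Th_zero]
    exact hx.1.1.2.2.2.2
  filter_upwards [self_mem_nhdsWithin,
    c.eventually (D.isClosed_F.isOpen_compl.mem_nhds n)] with y a e using ⟨a, e⟩

theorem exists_thom (Q : MT 𝕄) (hB : IsClosed B) :
    ∃ Θ : H (D.A3 B) D.FA →ₗ[ℂ] H (D.AF B) univ, Function.Injective Θ ∧
      ∀ (p : ℤ) a, IsDeg (p + 8) a → IsDeg p (Θ a) := by
  have g := gysD_thR (D.Thm_rb hB)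
    ((D.ori_F Q).comp continuous_ends.continuousOn fun _ (h : _ ∈ D.AF B) => h.2)
  let e := LinearEquiv.ofBijective _ (D.Thm_excE (B := B))
  refine ⟨g.thomE.symm.toLinearMap ∘ₗ e.symm.toLinearMap ∘ₗ
    pull D.Thm_Ψ (D.Thm_E' B) (zs _ _) ∘ₗ pull id (D.Thm_W B) D.FA,
    g.thomE.symm.injective.comp (e.symm.injective.comp ((D.Thm_bijΨ hB).1.comp D.Thm_excW.1)),
    fun p a ha => ?_⟩
  have d := (ha.pull id (D.Thm_W B) D.FA).pull D.Thm_Ψ (D.Thm_E' B) (zs _ _)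
  obtain ⟨c, hc⟩ := e.surjective (pull D.Thm_Ψ (D.Thm_E' B) (zs _ _) (pull id (D.Thm_W B) D.FA a))
  have dc : IsDeg (p + 8) c := isDeg_iff.2 (e.injective (by
    have := isDeg_iff.1 d
    rw [← hc] at this
    exact (pull_prj _ _).trans this))
  obtain ⟨b, hb, rfl⟩ := g.exists_thom dc
  have k : g.thomE.symm (e.symm (pull D.Thm_Ψ (D.Thm_E' B) (zs _ _)
      (pull id (D.Thm_W B) D.FA a))) = b := by
    rw [← hc, e.symm_apply_apply]
    exact g.thomE.symm_apply_apply b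
  exact k.symm ▸ hb

end TD1

end Pool.Agent.Work.MP_8c604c_gt.OT
end
end

-- merged part: Pool.Agent.Work.MP_8c604c_gt.OL.L2
section
/-!
The cohomology of the loops of speed less than two (block L2).
-/

noncomputable section

set_option linter.unusedSectionVars false

namespace Pool.Agent.Work.MP_8c604c_gt.OT

open Set Real Topology Pool.Agent.Work.MP_849ab0_ag.G T

variable {V : Type} [NormedAddCommGroup V] [InnerProductSpace ℝ V] [FiniteDimensional ℝ V]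
  {𝕄 : Mf V} {m : ℕ}

namespace TD1

variable (D : TD1 𝕄) (Q : MT 𝕄) {N : Set V}

include Q

theorem L2_core (hN : IsClosed N) (h : N ⊆ 𝕄.M) :
    ∃ Λ : H (D.LsB N 2) univ →ₗ[ℂ] H (D.Sov N) univ,
    (∀ (p : ℤ) a, IsDeg (p + 7) a → IsDeg p (Λ a)) ∧
      ∀ a, Λ a = 0 → ∃ b : H N univ, a = pull bas (D.LsB N 2) univ b := by
  obtain ⟨Θ, i, d⟩ := D.exists_thom Q hN
  refine ⟨pull thirds (D.Sov N) univ ∘ₗ Θ ∘ₗ dlt (D.A3 N) D.FA ∘ₗ pull D.poly (D.Q4 N) univ,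
    fun p a ha => (d p _ ?_).pull _ _ _, fun a e => ?_⟩
  · have := (ha.pull D.poly (D.Q4 N) univ).dlt (D.A3 N) D.FA
    rwa [add_assoc] at this
  · have e1 : dlt (D.A3 N) D.FA (pull D.poly (D.Q4 N) univ a) = 0 :=
      i ((D.thirds_inj hN e).trans (map_zero _).symm)
    obtain ⟨b, hb⟩ := (exact_res_dlt (U := D.A3 N) (Z := univ) (Z₂ := univ) rfl (by simp) _).1 e1
    obtain ⟨c, rfl⟩ := D.A3_surj hN h b
    refine ⟨c, ?_⟩
    rw [← D.poly_id hN a, ← hb, res_pull D.ok_fstA sdiff_subset fun _ _ h => h]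
    exact pull_pull' D.ok_vert (.of_mem (.of_continuous continuous_fst _) (fun _ h => h.1.1)
      fun _ _ _ => trivial) (fun _ _ => rfl) c

/-- vanishing over a closed set of base points -/
theorem L2_van (hN : IsClosed N) (h : N ⊆ 𝕄.M) {q : ℤ} (v : ∀ b : H N univ, IsDeg q b → b = 0)
    (v' : ∀ c : H (D.Sov N) univ, IsDeg (q - 7) c → c = 0) {a : H (D.LsB N 2) univ}
    (ha : IsDeg q a) : a = 0 := by
  obtain ⟨Λ, d, k⟩ := D.L2_core Q hN h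
  obtain ⟨b, rfl⟩ := k a (v' _ (d _ _ (by rwa [sub_add_cancel])))
  rw [← isDeg_iff.1 ha, ← pull_prj, v _ (isDeg_prj _ _), map_zero]

theorem L2_van28 (hN : IsCompact N) (h : N ⊆ 𝕄.M) (v : ∀ q : ℤ, q ≠ 0 → Van q N univ)
    {a : H (D.LsB N 2) univ} (ha : IsDeg 28 a) : a = 0 :=
  D.L2_van Q hN.isClosed h (fun _ => (v 28 (by norm_num)).eq_zero)
    (fun _ => (D.van_SA Q hN h (v _ (by norm_num)) (v _ (by norm_num))).eq_zero) ha

theorem L2_rk (p : ℤ) : rk (p + 7) (D.Ls 2) (Zr 1) ≤ rk p D.S univ := by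
  have hM := 𝕄.cpt.isClosed
  rw [← D.LsB_M, ← D.SB_M]
  obtain ⟨Λ, d, k⟩ := D.L2_core Q hM subset_rfl
  have e1 : D.LsB 𝕄.M 2 \ Zr 1 = D.LsB 𝕄.M 1 := by
    ext x
    simp only [LsB_M, mem_sdiff, mem_Ls, Zr, mem_ofPred_eq, not_le]
    exact ⟨fun h => ⟨h.1.1, h.2⟩, fun h => ⟨⟨h.1, h.2.trans one_lt_two⟩, h.2⟩⟩
  have s : D.LsB 𝕄.M 1 ⊆ D.LsB 𝕄.M 2 := e1 ▸ sdiff_subset
  have r : ∀ b : H 𝕄.M univ, pull id (D.LsB 𝕄.M 1) univ (pull bas (D.LsB 𝕄.M 2) univ b) =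
      pull bas (D.LsB 𝕄.M 1) univ b := res_pull (D.ok_bas 2) s fun _ _ h => h
  refine rk_le (Λ ∘ₗ pull id _ univ) (fun a ha => d _ _ (ha.pull _ _ _)) fun a _ e => ?_
  obtain ⟨b, hb⟩ := k _ e
  have z := (exact_supp_res (Z := univ) (Z₂ := univ) e1 (by simp) _).2 ⟨a, hb⟩
  rw [r] at z
  rw [← D.cst_bas subset_rfl one_pos b, z, map_zero, map_zero] at hb
  obtain ⟨c, rfl⟩ := (exact_dlt_supp (Z := univ) (Z₂ := univ) e1 (by simp) _).1 hb
  rw [← D.Ls1_id hM subset_rfl c, ← r]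
  exact (exact_res_dlt (Z := univ) (Z₂ := univ) e1 (by simp) _).2 ⟨_, rfl⟩

theorem L2_rk_up {p : ℤ} (hp : p + 7 ≤ 2 * m) :
    rk (p + 7) (D.Ls 2 ×ˢ Sp m) (Zr 1 ×ˢ univ) ≤ rk p D.S univ :=
  (rk_le (pull (fun x => (x, (1 : CM m))) (D.Ls 2) (Zr 1)) (fun _ h => h.pull _ _ _) fun a ha e => by
    rw [← sp_low one_mem_Sp ha hp, e, map_zero]).trans (D.L2_rk Q p)

/-- the equivariant Betti number in degree `29` -/
theorem L2_rk29 (hm : 15 ≤ m) : rk 29 (Bo m 1 (D.Ls 2)) (Zq 1) ≤ 2 := by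
  have cd := (D.inv_Ls 2).cd (m := m) (k := 1) (D.lc_Ls 2)
  have st : ∀ p : ℤ, p ≤ 22 →
      rk (p + 7) (Bo m 1 (D.Ls 2)) (Zq 1) ≤ rk (p + 5) (Bo m 1 (D.Ls 2)) (Zq 1) + rk p D.S univ :=
    fun p hp => by
      have := cd.rk_step (p := p + 5) (sdB _ _ 1)
      rw [show p + 5 + 2 = p + 7 by ring] at this
      exact this.trans (add_le_add_right (D.L2_rk_up Q (by omega)) _)
  have z : ∀ p : ℤ, p ≤ 22 → p ≠ 0 → p ≠ 8 →
      rk (p + 7) (Bo m 1 (D.Ls 2)) (Zq 1) ≤ rk (p + 5) (Bo m 1 (D.Ls 2)) (Zq 1) := fun p h h0 h8 => by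
    have := st p h
    rwa [rk_zero fun a ha => D.S_deg Q ha ⟨h0, h8, by omega, by omega⟩, add_zero] at this
  have a0 := (st 0 (by norm_num)).trans (add_le_add_right
    (rk_le_one (gen_one (D.isConnected_S Q.conn)).span) _)
  have a8 := (st 8 (by norm_num)).trans (add_le_add_right (rk_le_one (D.gen_uS Q).span) _)
  have n : rk (-1) (Bo m 1 (D.Ls 2)) (Zq 1) = 0 := rk_zero fun a ha => ha.eq_zero_of_neg (by norm_num)
  have b5 := (z (-2) (by norm_num) (by norm_num) (by norm_num)).trans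
    ((z (-4) (by norm_num) (by norm_num) (by norm_num)).trans
      ((z (-6) (by norm_num) (by norm_num) (by norm_num)).trans n.le))
  have b13 := (z 6 (by norm_num) (by norm_num) (by norm_num)).trans
    ((z 4 (by norm_num) (by norm_num) (by norm_num)).trans
      ((z 2 (by norm_num) (by norm_num) (by norm_num)).trans (a0.trans (add_le_add_left b5 _))))
  have b29 := (z 22 (by norm_num) (by norm_num) (by norm_num)).trans
    ((z 20 (by norm_num) (by norm_num) (by norm_num)).trans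
      ((z 18 (by norm_num) (by norm_num) (by norm_num)).trans
        ((z 16 (by norm_num) (by norm_num) (by norm_num)).trans
          ((z 14 (by norm_num) (by norm_num) (by norm_num)).trans
            ((z 12 (by norm_num) (by norm_num) (by norm_num)).trans
              ((z 10 (by norm_num) (by norm_num) (by norm_num)).trans
                (a8.trans (add_le_add_left b13 _))))))))
  rwa [zero_add, one_add_one_eq_two] at b29

end TD1

end Pool.Agent.Work.MP_8c604c_gt.OT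
end
end

-- merged part: Pool.Agent.Work.MP_8c604c_gt.OL.Eq
section
/-!
Equivariant consequences of the retraction of the short loops, and lifts of classes to supports.
-/

noncomputable section

set_option linter.unusedSectionVars false

namespace Pool.Agent.Work.MP_8c604c_gt.OT

open Set Real Topology Pool.Agent.Work.MP_849ab0_ag.G T

section Lift

variable {X : Type} [TopologicalSpace X] {U Z Z₁ U₂ : Set X} {p : ℤ}

/-- existence of a lift -/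
theorem lift_ex (e : U \ Z = U₂) (v : ∀ c : H U₂ univ, IsDeg p c → c = 0) {a : H U univ}
    (ha : IsDeg p a) : ∃ b : H U Z, IsDeg p b ∧ pull id U univ b = a := by
  obtain ⟨b, rfl⟩ := (exact_supp_res (Z := univ) (Z₂ := univ) e (by simp) _).1 (v _ (ha.pull _ _ _))
  exact ⟨prj {p} b, isDeg_prj _ _, by rw [pull_prj, isDeg_iff.1 ha]⟩

/-- uniqueness of a lift -/
theorem lift_inj (e : U \ Z₁ = U₂) (s : ∀ x ∈ U, x ∈ Z₁ → x ∈ Z)
    (v : ∀ c : H U₂ Z, IsDeg (p - 1) c → c = 0) {b : H U Z₁}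
    (hb : IsDeg p b) (k : pull id U Z b = 0) : b = 0 := by
  obtain ⟨c, rfl⟩ := (exact_dlt_supp (Z := Z) (Z₂ := Z) e (by
    subst e
    ext x
    exact ⟨fun h => ⟨h.1.1, h.2⟩, fun h => ⟨⟨h.1, fun a => h.2 (s x h.1 a)⟩, h.2⟩⟩) _).1 k
  rw [← isDeg_iff.1 hb, ← dlt_prj (s := {p - 1}) (fun q => by simp [eq_sub_iff_add_eq]),
    v _ (isDeg_prj _ _), map_zero]

theorem lift_uniq (e : U \ Z = U₂) (v : ∀ c : H U₂ univ, IsDeg (p - 1) c → c = 0) {b b' : H U Z}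
    (hb : IsDeg p b) (hb' : IsDeg p b') (k : pull id U univ b = pull id U univ b') : b = b' :=
  sub_eq_zero.1 (lift_inj (Z := univ) e (fun _ _ _ => trivial) v (hb.sub hb') (by rw [map_sub, k, sub_self]))

/-- Kuenneth: a vanishing factor -/
theorem Top.zero {Y : Type} [TopologicalSpace Y] [RegularSpace X] [SecondCountableTopology X]
    [RegularSpace Y] [SecondCountableTopology Y] {C : Set Y} {n : ℤ} {ω : H C univ} (t : Top C n ω)
    (v : ∀ a : H U Z, a = 0) (b : H (U ×ˢ C) (Z ×ˢ univ)) : b = 0 :=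
  t.ind (P := fun b => b = 0) rfl (fun _ _ h k => by rw [h, k, add_zero])
    (fun a => by rw [v a, ← zero_smul ℂ (0 : H U Z), xp_smul, zero_smul])
    (fun a _ _ _ _ => by rw [v a, ← zero_smul ℂ (0 : H U Z), xp_smul, zero_smul]) b

end Lift

theorem CD.even_eq' {Y Q J : Type} [TopologicalSpace Y] [TopologicalSpace Q] [Fintype J] [Nonempty Y]
    [RegularSpace Q] [SecondCountableTopology Q] [DecidableEq J] [RegularSpace Y]
    [SecondCountableTopology Y]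
    {s : Circle → Y → Y} {q : Y → Q} {ζ : Y → J → ℂ} {E : Set Y} {B : Set Q} (h : CD s q ζ E B)
    (h0 : ∀ c : H E univ, IsDeg 0 c → ∃ t : ℂ, c = t • 1) (n : ℕ)
    (v : ∀ j : ℕ, 0 < j → j ≤ n → ∀ c : H E univ, IsDeg (2 * j) c → c = 0) {a : H B univ}
    (ha : IsDeg (2 * n) a) : ∃ t : ℂ, a = t • ee q ζ B ^ n := by
  induction n generalizing a with
  | zero =>
    obtain ⟨t, e⟩ := h0 _ (by simpa using ha.pull q E univ)
    obtain ⟨b, d, k⟩ := h.q_eq_zero' (p := -2) (a := a - t • 1) (sd_univ _ _ _)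
      (by simpa using IsDeg.sub (by simpa using ha) (isDeg_oneH.smul t))
      (by rw [map_sub, map_smul, pull_oneH h.ok_q', e, sub_self])
    rw [d.eq_zero_of_neg (by norm_num), map_zero, sub_eq_zero] at k
    exact ⟨t, by rw [k, pow_zero]⟩
  | succ n ih =>
    obtain ⟨b, d, rfl⟩ := h.q_eq_zero' (p := 2 * n) (sd_univ _ _ _)
      (by convert ha using 1; push_cast; ring) (v _ n.succ_pos le_rfl _ (ha.pull _ _ _))
    obtain ⟨t, rfl⟩ := ih (fun j a b => v j a (by omega)) d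
    exact ⟨t, by rw [map_smul, pow_succ', mulH]⟩

variable {V : Type} [NormedAddCommGroup V] [InnerProductSpace ℝ V] [FiniteDimensional ℝ V]
  {𝕄 : Mf V} {m k : ℕ} {r s : ℝ} {q : ℤ}

namespace TD1

variable (D : TD1 𝕄) (Q : MT 𝕄) {N : Set V}

theorem ok_cstL (h0 : 0 < r) : Ok cst 𝕄.M univ (D.Ls r) univ := D.LsB_M r ▸ D.ok_cst subset_rfl h0

theorem cst_basL (h0 : 0 < r) (a : H 𝕄.M univ) :
    pull cst 𝕄.M univ (pull bas (D.Ls r) univ a) = a := D.LsB_M r ▸ D.cst_bas subset_rfl h0 a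

theorem bas_cstL (h0 : 0 < r) (h1 : r ≤ 1) (a : H (D.Ls r) univ) :
    pull bas (D.Ls r) univ (pull cst 𝕄.M univ a) = a := by
  revert a
  rw [← D.LsB_M r]
  exact D.Lsr_id 𝕄.cpt.isClosed subset_rfl h0 h1

/-- short loops over `N` have the cohomology of `N` -/
theorem LsB_zero (hN : IsClosed N) (h : N ⊆ 𝕄.M) (h0 : 0 < r) (h1 : r ≤ 1) (v : Van q N univ)
    (a : H (D.LsB N r) univ) (ha : IsDeg q a) : a = 0 := by
  rw [← D.Lsr_id hN h h0 h1 a, v.eq_zero (ha.pull _ _ _), map_zero]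

include Q in
theorem Ls_zero' (h0 : 0 < r) (h1 : r ≤ 1) (e0 : q ≠ 0) (e8 : q ≠ 8) (e16 : q ≠ 16)
    (a : H (D.Ls r) univ) (ha : IsDeg q a) : a = 0 := by
  rw [← D.bas_cstL h0 h1 a, (Q.van q e0 e8 e16).eq_zero (ha.pull _ _ _), map_zero]

include Q in
theorem Ls_zero (h0 : 0 < r) (h1 : r ≤ 1) {a : H (D.Ls r) univ} (ha : IsDeg q a)
    (hq : ¬ 8 ∣ q ∨ 16 < q) : a = 0 :=
  D.Ls_zero' Q h0 h1 (by omega) (by omega) (by omega) a ha

include Q in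
theorem LsSp_zero (h0 : 0 < r) (h1 : r ≤ 1) (e0 : q ≠ 0) (e8 : q ≠ 8) (e16 : q ≠ 16) (hq : q ≤ 2 * m)
    (a : H (D.Ls r ×ˢ Sp m) univ) (ha : IsDeg q a) : a = 0 :=
  sp_zero (Z := univ) (D.Ls_zero' Q h0 h1 e0 e8 e16) hq (fun _ _ => by simp) a ha

theorem Lam_diff (s : ℝ) : D.Lam \ Zr s = D.Ls s := by
  ext x
  simp only [mem_sdiff, mem_Ls, Zr, mem_ofPred_eq, not_le]

theorem LamB_diff (N : Set V) (s : ℝ) : D.LamB N \ Zr s = D.LsB N s := by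
  ext x
  simp only [mem_sdiff, mem_Ls, Zr, LamB, LsB, mem_inter_iff, mem_ofPred_eq, not_le]
  tauto

theorem isClosed_Le : IsClosed D.Le := D.isClosed_Lam.inter (isClosed_le continuous_snd continuous_const)

theorem res_bas (h : s ≤ r) (a : H 𝕄.M univ) :
    pull id (D.Ls s) univ (pull bas (D.Ls r) univ a) = pull bas (D.Ls s) univ a :=
  res_pull (D.ok_basL D.Ls_Lam) (D.Ls_diff h ▸ sdiff_subset) (fun _ _ a => a) a

/-- no cohomology between two small speeds -/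
theorem rel_zero (h0 : 0 < s) (h : s ≤ r) (h1 : r ≤ 1) (a : H (D.Ls r) (Zr s)) : a = 0 := by
  have e := D.Ls_diff h
  have hr := h0.trans_le h
  have z := (exact_supp_res (Z := univ) (Z₂ := univ) e (by simp) _).2 ⟨a, rfl⟩
  rw [← D.bas_cstL hr h1 (pull id (D.Ls r) univ a), D.res_bas h] at z
  have z' := congrArg (pull cst 𝕄.M univ) z
  rw [D.cst_basL h0, map_zero] at z'
  have z'' := D.bas_cstL hr h1 (pull id (D.Ls r) univ a)
  rw [z', map_zero] at z''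
  obtain ⟨c, rfl⟩ := (exact_dlt_supp (Z := univ) (Z₂ := univ) e (by simp) _).1 z''.symm
  rw [← D.bas_cstL h0 (h.trans h1) c, ← D.res_bas h]
  exact (exact_res_dlt (Z := univ) (Z₂ := univ) e (by simp) _).2 ⟨_, rfl⟩

theorem relB_zero (h0 : 0 < s) (h : s ≤ r) (h1 : r ≤ 1) (a : H (Bo m k (D.Ls r)) (Zq s))
    (ha : IsDeg q a) : a = 0 :=
  (D.cdLs m k r).van (sdB _ _ s) (fun _ c _ => top_Sp.zero (D.rel_zero h0 h h1) c) ha

/-- the change of the support from `1` to `s` is injective -/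
theorem inj_supp {A : Set (LS V)} (i : Inv A) (e : A \ Zr 1 = D.Ls 1) (h0 : 0 < s) (h1 : s ≤ 1)
    {a : H (Bo m k A) (Zq 1)} (ha : IsDeg q a) (z : pull id (Bo m k A) (Zq s) a = 0) : a = 0 :=
  lift_inj ((i.diff 1).trans (congrArg _ e)) (fun _ _ a => h1.trans a)
    (fun c hc => D.relB_zero h0 h1 le_rfl c hc) ha z

theorem inj_half {a : H (Bo m k D.Le) (Zq 1)} (ha : IsDeg q a)
    (z : pull id (Bo m k D.Le) (Zq (1 / 2)) a = 0) : a = 0 :=
  D.inj_supp D.inv_Le (D.Le_diff le_rfl) (by norm_num) (by norm_num) ha z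

theorem ok_basS (r : ℝ) : Ok (fun x : LA V m => x.1.1 1) (D.Ls r ×ˢ Sp m) univ 𝕄.M univ :=
  .of_mem (.of_continuous (by fun_prop) _) (fun _ h => (D.mem_Ls.1 h.1).1.1 1) fun _ _ _ => trivial

theorem half_Ls : D.Ls (1 / 2) ⊆ D.Ls 1 := 
  D.Ls_diff (r := 1 / 2) (s := 1) (by norm_num) ▸ sdiff_subset

omit D in
theorem inv_cst (p : V) : Inv {cst p} := fun θ x hx => by
  rw [mem_singleton_iff.1 hx]
  rfl

omit D in
theorem cd_cst (p : V) (k : ℕ) : CD (ac k) (qB k) Prod.snd ({cst p} ×ˢ Sp m) (Bo m k {cst p}) :=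
  (inv_cst p).cd isClosed_singleton.isLocallyClosed

omit D in
theorem cst_zero (p : V) (e : q ≠ 0) (hq : q ≤ 2 * m) (c : H (({cst p} : Set (LS V)) ×ˢ Sp m) univ)
    (hc : IsDeg q c) : c = 0 :=
  (van_Sp isClosed_singleton.isLocallyClosed (van_singleton _ e) hq).eq_zero hc

omit D in
theorem cst_pow (p : V) (k : ℕ) {n : ℕ} (hn : n ≤ m) : eB (Bo m k {cst p}) ^ n ≠ 0 :=
  (cd_cst p k).pow_ne ⟨_, (cd_cst p k).maps (x := (cst p, 1)) ⟨rfl, one_mem_Sp⟩⟩ n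
    fun j hj => cst_zero p (by omega) (by omega)

end TD1

namespace TD

open TD1

variable (D : TD 𝕄 m) (Q : MT 𝕄)

theorem q_YB : pull (qB 1) (D.Ls 1 ×ˢ Sp m) univ (D.YB Q) =
    pull (fun x : LA V m => x.1.1 1) (D.Ls 1 ×ˢ Sp m) univ Q.y := by
  obtain ⟨F, c, mF, e⟩ := (D.ret m).ht
  rw [YB, pull_pull' (D.cdLs m 1 1).ok_q' D.ok_mB fun _ _ => rfl]
  exact LinearMap.congr_fun (pull_htpy' (ext_htpy (lc_Sp (D.lc_Ls 1)) c) (fun x hx t ht => mF ⟨hx, ht⟩)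
    (fun _ _ _ _ _ => trivial) (fun x hx => (e x hx).1) fun x hx => (e x hx).2) _

theorem YB_cst (hm : 12 ≤ m) {p : V} (hp : p ∈ 𝕄.M) :
    pull id (Bo m 1 {cst p}) univ (D.YB Q) = 0 := by
  have sb : Bo m 1 {cst p} ⊆ Bo m 1 (D.Ls 1) :=
    Bo_mono (singleton_subset_iff.2 ((D.ok_cstL one_pos).maps hp))
  obtain ⟨t, e⟩ := (cd_cst p 1).even_eq ((isPreconnected_singleton.prod
    (isConnected_Sp (m := m)).isPreconnected).image _ continuous_qB.continuousOn) 4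
    (fun j a b => cst_zero p (by omega) (by omega)) ((D.isDeg_YB Q).pull id _ univ)
  have z := congrArg (pull id (Bo m 1 {cst p}) univ) (D.YB_pow Q)
  rw [pull_pow (ok_fgt sb), e, map_zero, smul_pow, ← pow_mul, smul_eq_zero] at z
  rw [e, pow_eq_zero_iff (by norm_num) |>.1 (z.resolve_right (cst_pow p 1 hm)), zero_smul]

/-- the two pull-backs of `YB` agree -/
theorem ps_YB (hm : 12 ≤ m) : pull psB (Bo m 2 (D.Ls (1 / 2))) univ (D.YB Q) =
    pull kpB (Bo m 2 (D.Ls (1 / 2))) univ (D.YB Q) := by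
  have h0 : (0 : ℝ) < 1 / 2 := by norm_num
  have h1 : (1 / 2 : ℝ) ≤ 1 := by norm_num
  have cd := D.cdLs m 2 (1 / 2)
  have o1 := ok_psB (m := m) D.db_Ls
  have o2 := ok_kpB (m := m) D.half_Ls
  have u1 : Ok (fun x : LA V m => (dbS x.1, x.2)) (D.Ls (1 / 2) ×ˢ Sp m) univ (D.Ls 1 ×ˢ Sp m) univ :=
    .of_mem (.of_continuous ((continuous_dbS.comp continuous_fst).prodMk continuous_snd) _)
      (fun _ h => ⟨D.db_Ls h.1, h.2⟩) fun _ _ _ => trivial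
  have u2 : Ok (fun x : LA V m => (x.1, x.2 * x.2)) (D.Ls (1 / 2) ×ˢ Sp m) univ (D.Ls 1 ×ˢ Sp m) univ :=
    .of_mem (.of_continuous (by fun_prop) _) (fun _ h => ⟨D.half_Ls h.1, Sp_sq h.2⟩) fun _ _ _ => trivial
  have dY := D.isDeg_YB Q
  obtain ⟨b, d, e⟩ := cd.q_eq_zero' (p := 6) (sd_univ _ _ _)
    (a := pull psB _ univ (D.YB Q) - pull kpB _ univ (D.YB Q))
    ((dY.pull _ _ _).sub (dY.pull _ _ _)) (by
      rw [map_sub, pull_pull' cd.ok_q' o1 fun x _ => psB_q x, pull_pull' cd.ok_q' o2 fun x _ => kpB_q x,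
        ← pull_pull' u1 (D.cdLs m 1 1).ok_q' fun _ _ => rfl, ← pull_pull' u2 (D.cdLs m 1 1).ok_q' fun _ _ => rfl,
        q_YB, pull_pull' (F := fun x => x.1.1 1) u1 (D.ok_basS 1) fun x _ => by
          show x.1.1 (1 * 1) = _
          rw [mul_one],
        pull_pull' (F := fun x => x.1.1 1) u2 (D.ok_basS 1) fun _ _ => rfl, sub_self])
  obtain ⟨t, rfl⟩ := cd.even_eq' (fun c hc => by
      obtain ⟨t, e⟩ := deg0_const Q.conn.isPreconnected
        ((hc.pull (fun x => (x, (1 : CM m))) (D.Ls (1 / 2)) univ).pull cst 𝕄.M univ)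
      refine ⟨t, ?_⟩
      rw [← sp_low' one_mem_Sp hc (by omega), ← D.bas_cstL h0 h1 (pull _ (D.Ls (1 / 2)) univ c), e,
        map_smul, map_smul, pull_oneH (D.ok_basL D.Ls_Lam), pull_oneH (ok_fst' _ _)]) 3
    (fun j a b => D.LsSp_zero Q h0 h1 (by omega) (by omega) (by omega) (by omega)) d
  obtain ⟨p, hp⟩ := Q.conn.nonempty
  have sb : ({cst p} : Set (LS V)) ⊆ D.Ls (1 / 2) := singleton_subset_iff.2 ((D.ok_cstL h0).maps hp)
  have z := congrArg (pull id (Bo m 2 {cst p}) univ) e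
  have sB : Bo m 2 {cst p} ⊆ Bo m 2 (D.Ls (1 / 2)) := Bo_mono sb
  have s1 : Bo m 1 {cst p} ⊆ Bo m 1 (D.Ls 1) := Bo_mono (sb.trans D.half_Ls)
  have v1 := ok_psB (m := m) (A := {cst p}) (A' := {cst p}) fun x hx => by
    rw [mem_singleton_iff.1 hx]
    exact Prod.ext rfl (mul_zero _)
  have v2 := ok_kpB (m := m) (A := {cst p}) subset_rfl
  rw [map_sub, res_pull o1 sB fun _ _ a => a, res_pull o2 sB fun _ _ a => a,
    ← pull_res v1 s1 fun _ _ a => a, ← pull_res v2 s1 fun _ _ a => a, D.YB_cst Q hm hp, map_zero,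
    map_zero, sub_self, map_smul, ← mulH, ← pow_succ', map_smul, pull_pow (ok_fgt sB),
    cd.res_ee (cd_cst p 2).lc sB, eq_comm, smul_eq_zero] at z
  rw [← sub_eq_zero, e, z.resolve_right (cst_pow p 2 (by omega)), zero_smul, map_zero]

end TD

end Pool.Agent.Work.MP_8c604c_gt.OT
end
end
end

-- merged part: Pool.Agent.Work.MP_8c604c_gt.OR.Nu
section
-- merged part: Pool.Agent.Work.MP_8c604c_gt.OR.PU
section
/-!
The pushes on the Borel constructions (owner helper4).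

PLAN.  Model: `PU1_q`, `cont_PU1`, `PU1_Ls`, `cdT`, `mem_T1` in `OT/RD`.
`ok_PU1`: `ok_of D.lc_T1 D.cont_PU1`, `D.cdT.surj`, `PU1_com`, `pu1u_mem`, `pu1_le`, `q_Zq`, `lt1`.
`exists_dec`: `cre`, `cim` are `(finBasis ..).equivFun.symm` of real and imaginary parts, `ctr` is real linear.
`dec_smul`: `ctr (θ • ζ) v = θ • ctr ζ v`, then `cre (θ • w) = re θ • cre w - im θ • cim w`, `cim (θ • w) = im θ • cre w + re θ • cim w`.
`E2_fix`: components of `prodMap`.  `dec_mem`: `EC (qB 2 x) = cx Kq (kpB ..) ⊗ₖ LB ..`, `kron_col` gives that every column `fun i => v (i, j)` is fixed by the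
real matrix `cxm (K (c, ζ * ζ))` (`K2_q`, `cx_eq`, `cb_cx.idem`), hence so is its `star` (`map_star_mulVec` or `cxm_fix`) and the combination `ctr ζ v`; `cxm_fix`; `Pq_q`.
`dec_inj`: `kron_row` gives that every row `fun j => v (i, j)` is fixed by `lin ζ` (`(D.cdG 2).Lq_q`), so it is `co ζ row • ζ` with `co ζ row = (star ζ ⬝ᵥ ζ)⁻¹ * star (ctr ζ v i)`; `cre_eq_zero`.
`PU2_q`: `(D.cdG 2).out_eq'`, `qB_ac`, field `eq2`, `dec_smul`.  `ok_PU2`: circle datum `(D.cdG 2).prod D.lc_TE ..` on `{z | z.1 ∈ Xt ∧ E2 (qB 2 z.1) z.2 = z.2}`, `CD.contOn`,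
`CD.surj`, fields `c2`, `mem2`, `lt2`, `dec_inj`.  `PV_q`: field `eq1` with `θ * θ`.  `ps_PV`: `psB_q`, field `one`, `dec ζ 0 = 0`.  `kp_PV`: `kpB_q`, `PU1_q`.
-/

noncomputable section

set_option linter.unusedSectionVars false

namespace Pool.Agent.Work.MP_8c604c_gt.OT

open Set Topology Matrix Pool.Agent.Work.MP_849ab0_ag.G T

variable {V : Type} [NormedAddCommGroup V] [InnerProductSpace ℝ V] [FiniteDimensional ℝ V]
  {𝕄 : Mf V} {m : ℕ}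

theorem PU_cre {N : ℕ} (c : ℂ) (w : IC N → ℂ) :
    (cre (c • w) : RN N) = c.re • cre w - c.im • cim w := by
  rw [cre, cre, cim, ← map_smul, ← map_smul, ← map_sub]
  exact congrArg _ (funext fun i => Complex.mul_re c (w i))

theorem PU_cim {N : ℕ} (c : ℂ) (w : IC N → ℂ) :
    (cim (c • w) : RN N) = c.im • cre w + c.re • cim w := by
  rw [cim, cre, cim, ← map_smul, ← map_smul, ← map_add]
  exact congrArg _ (funext fun i => (Complex.mul_im c (w i)).trans (add_comm _ _))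

theorem PU_add {N : ℕ} (ζ : CM m) (v w : IC N × Fin (m + 1) → ℂ) :
    ctr ζ (v + w) = ctr ζ v + ctr ζ w :=
  funext fun i => by simp [ctr, add_mul, Finset.sum_add_distrib]

theorem PU_real {N : ℕ} (ζ : CM m) (r : ℝ) (v : IC N × Fin (m + 1) → ℂ) :
    ctr ζ (r • v) = (r : ℂ) • ctr ζ v :=
  funext fun i => by simp [ctr, Finset.mul_sum, mul_assoc]

theorem PU_smul {N : ℕ} (c : ℂ) (ζ : CM m) (v : IC N × Fin (m + 1) → ℂ) :
    ctr (c • ζ) v = c • ctr ζ v :=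
  funext fun i => by simp [ctr, Finset.mul_sum, mul_left_comm]

theorem PU_fix {N : ℕ} (B : RN N →L[ℝ] RN N) (ζ : CM m) {v : IC N × Fin (m + 1) → ℂ}
    (h : ∀ j, (cxm B *ᵥ fun i => v (i, j)) = fun i => v (i, j)) : cxm B *ᵥ ctr ζ v = ctr ζ v := by
  funext i
  have k : ∀ j, star (v (i, j)) = ∑ l, cxm B i l * star (v (l, j)) := fun j => by
    rw [← congrFun (h j) i]
    simp [mulVec, dotProduct, cxm]
  simp only [ctr, mulVec, dotProduct, Finset.mul_sum]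
  rw [Finset.sum_comm]
  refine Finset.sum_congr rfl fun j _ => ?_
  rw [k j, Finset.sum_mul]
  simp only [mul_assoc]

theorem exists_dec (N N' : ℕ) (ζ : CM m) :
    ∃ Λ : (RN N × (IC N × Fin (m + 1) → ℂ) × RN N') →ₗ[ℝ] FB N N', ∀ v, Λ v = (v.1, dec ζ v.2.1, v.2.2) := by
  let L : (IC N × Fin (m + 1) → ℂ) →ₗ[ℝ] RN N × RN N :=
    { toFun := dec ζ
      map_add' := fun v w => by
        rw [dec, PU_add, cre_add, cim_add]
        rfl
      map_smul' := fun r v => by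
        rw [dec, PU_real, PU_cre, PU_cim]
        simp [dec] }
  exact ⟨LinearMap.id.prodMap (L.prodMap LinearMap.id), fun _ => rfl⟩

theorem dec_smul {N : ℕ} (θ : Circle) (ζ : CM m) (v : IC N × Fin (m + 1) → ℂ) :
    dec ((θ : ℂ) • ζ) v = rot θ (dec ζ v) := by
  rw [dec, PU_smul, PU_cre, PU_cim]
  rfl

theorem dec_zero {N : ℕ} (ζ : CM m) : dec ζ (0 : IC N × Fin (m + 1) → ℂ) = 0 := by
  have : ctr ζ (0 : IC N × Fin (m + 1) → ℂ) = 0 := funext fun i => by simp [ctr]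
  rw [dec, this, cx_re_zero, cx_im_zero]
  rfl

theorem continuous_dec {N : ℕ} : Continuous fun z : CM m × (IC N × Fin (m + 1) → ℂ) => dec z.1 z.2 := by
  have : Continuous fun z : CM m × (IC N × Fin (m + 1) → ℂ) => ctr z.1 z.2 := by
    unfold ctr
    fun_prop
  exact (continuous_cre.comp this).prodMk (continuous_cim.comp this)

namespace TD

variable (D : TD 𝕄 m) {x : LA V m}

theorem ok_PU1 {A : Set (LS V)} (hA : D.Le ⊆ A) : Ok D.PU1 D.T1 (zs _ _) (Bo m 1 A) (Zq 1) := by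
  refine ok_of D.lc_T1 D.cont_PU1 (fun z hz => ?_) fun z hz k => ?_
  · obtain ⟨w, hw, rfl⟩ := D.cdT.surj hz
    exact ⟨_, ⟨hA ⟨(D.pu1u_mem hw).1, D.pu1_le (D.T1u_tot hw)⟩, hw.1.2⟩, (D.PU1_com hw).symm⟩
  · obtain ⟨w, hw, rfl⟩ := D.cdT.surj hz
    rw [D.PU1_com hw, q_Zq] at k
    exact by_contra fun e => not_le.2 (D.lt1 _ (D.T1u_tot hw) e) k

theorem ok_PU1P : Ok D.PU1 D.P1 univ (Bo m 1 (D.Ls 1)) univ := by
  exact ok_top D.lc_P1 (D.cont_PU1.mono sdiff_subset) D.PU1_Ls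

theorem E2_fix {y : BQ V m 2} {v : D.A2} :
    D.E2 y v = v ↔ D.K2 y v.1 = v.1 ∧ D.EC y *ᵥ v.2.1 = v.2.1 ∧ D.Pq y v.2.2 = v.2.2 := by
  exact Prod.ext_iff.trans (and_congr_right' Prod.ext_iff)

theorem lc_TE : IsLocallyClosed D.TE := by
  have c1 : ContinuousOn (fun z : BQ V m 2 × D.A2 => D.K2 z.1 z.2.1) (Prod.fst ⁻¹' D.GB 2) :=
    (D.rb_K2.cont.comp continuousOn_fst fun _ k => k).clm_apply (by fun_prop)
  have c2 : ContinuousOn (fun z : BQ V m 2 × D.A2 => D.EC z.1 *ᵥ z.2.2.1) (Prod.fst ⁻¹' D.GB 2) :=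
    con_mulVec (D.cb_EC.cont.comp continuousOn_fst fun _ k => k) (by fun_prop)
  have c3 : ContinuousOn (fun z : BQ V m 2 × D.A2 => D.Pq z.1 z.2.2.2) (Prod.fst ⁻¹' D.GB 2) :=
    (D.rb_Pq.cont.comp continuousOn_fst fun _ k => k).clm_apply (by fun_prop)
  exact lc_of_eq (U := Prod.fst ⁻¹' D.GB 2) (D.lc_GB.preimage continuous_fst)
    (c1.prodMk (c2.prodMk c3)) continuousOn_snd

theorem PU_EC (hx : x ∈ D.Xt) :
    D.EC (qB 2 x) = kroneckerMap (· * ·) (cxm (D.K (x.1.1, x.2 * x.2))) (lin x.2) := by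
  rw [← K2_q hx, ← (D.cdG 2).Lq_q hx]
  rfl

theorem dec_mem (hx : x ∈ D.Xt) {v : D.A2} (hv : D.E2 (qB 2 x) v = v) :
    (pj x, v.1, dec x.2 v.2.1, v.2.2) ∈ tot2 D.S D.K D.P := by
  obtain ⟨h1, h2, h3⟩ := D.E2_fix.1 hv
  rw [K2_q hx] at h1
  rw [D.PU_EC hx] at h2
  rw [Pq_q hx] at h3
  have id : cxm (D.K (x.1.1, x.2 * x.2)) * cxm (D.K (x.1.1, x.2 * x.2)) =
      cxm (D.K (x.1.1, x.2 * x.2)) := by
    rw [cx_mul]
    exact congrArg _ (ContinuousLinearMap.ext (D.idK _ ⟨hx.1.1, Sp_sq hx.2⟩))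
  have k := cxm_fix.1 (PU_fix _ x.2 (kron_col id h2))
  exact ⟨pj_mem hx, h1, k.1, k.2, h3⟩

theorem dec_inj (hx : x ∈ D.Xt) {v : D.A2} (hv : D.E2 (qB 2 x) v = v)
    (e : ((v.1, dec x.2 v.2.1, v.2.2) : FB D.N D.N') = 0) : v = 0 := by
  have h2 := (D.E2_fix.1 hv).2.1
  rw [D.PU_EC hx] at h2
  have e1 := congrArg Prod.fst e
  have e2 := congrArg (fun w => w.2.1) e
  have e3 := congrArg (fun w => w.2.2) e
  have c : ctr x.2 v.2.1 = 0 := cre_eq_zero.2 ⟨congrArg Prod.fst e2, congrArg Prod.snd e2⟩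
  refine Prod.ext e1 (Prod.ext (funext fun p => ?_) e3)
  have k := kron_row (lin_mem (Sp_ne hx.2)).1 h2 p.1
  have z : (star x.2 ⬝ᵥ fun j => v.2.1 (p.1, j)) = 0 := by
    have := congrArg star (congrFun c p.1)
    simpa [ctr, dotProduct, mul_comm] using this
  rw [lin_mulVec', z, mul_zero, zero_smul] at k
  exact (congrFun k p.2).symm

theorem PU2_q (hx : x ∈ D.Xt) {v : D.A2} (hv : D.E2 (qB 2 x) v = v) :
    D.PU2 (qB 2 x, v) = qB 1 (D.pu2 (pj x, v.1, dec x.2 v.2.1, v.2.2), x.2) := by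
  refine (D.cdG 2).out_eq'
    (F := fun x => qB 1 (D.pu2 (pj x, v.1, dec x.2 v.2.1, v.2.2), x.2)) fun θ => ?_
  rw [← qB_ac θ (D.pu2 (pj x, v.1, dec x.2 v.2.1, v.2.2), x.2)]
  have := D.eq2 θ _ (D.dec_mem hx hv)
  simp only [pj, ac, shS, pow_one, sq, dec_smul] at this ⊢
  rw [this]

theorem ok_PU2 : Ok D.PU2 D.TE (zs _ _) (Bo m 1 D.Lam) (Zq 2) := by
  have cd := (D.cdG 2).prod (E' := {z | z.1 ∈ D.Xt ∧ D.E2 (qB 2 z.1) z.2 = z.2}) D.lc_TE
    (fun z => and_congr_left' ((D.cdG 2).pre _)) fun _ h => h.1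
  have cp := continuous_pj (V := V) (m := m)
  refine ok_of D.lc_TE (cd.contOn (F := fun z =>
    qB 1 (D.pu2 (pj z.1, z.2.1, dec z.1.2 z.2.2.1, z.2.2.2), z.1.2))
    (continuous_qB.comp_continuousOn ((D.c2.comp ((cp.comp continuous_fst).prodMk
      (continuous_snd.fst.prodMk ((continuous_dec.comp
        (continuous_fst.snd.prodMk continuous_snd.snd.fst)).prodMk continuous_snd.snd.snd))).continuousOn
      fun z h => D.dec_mem h.1 h.2).prodMk (by fun_prop))) fun z h => D.PU2_q h.1 h.2)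
    (fun z hz => ?_) fun z hz k => ?_
  · obtain ⟨w, hw, rfl⟩ := cd.surj hz
    exact ⟨(_, w.1.2), ⟨D.mem2 (D.dec_mem hw.1 hw.2), hw.1.2⟩, (D.PU2_q hw.1 hw.2).symm⟩
  · obtain ⟨w, hw, rfl⟩ := cd.surj hz
    have e : D.PU2 (Prod.map (qB 2) id w) = _ := D.PU2_q hw.1 hw.2
    rw [e, q_Zq] at k
    exact D.dec_inj hw.1 hw.2
      (by_contra fun e => not_le.2 (D.lt2 _ (D.dec_mem hw.1 hw.2) e) k)

theorem PV_q (hx : x ∈ D.Xt) {a : RN D.N} (ha : D.K (x.1.1, x.2 * x.2) a = a) :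
    D.PV (qB 2 x, a) = qB 2 (D.pu1 ((x.1.1, x.2 * x.2), a), x.2) := by
  refine (D.cdG 2).out_eq' (F := fun x => qB 2 (D.pu1 ((x.1.1, x.2 * x.2), a), x.2)) fun θ => ?_
  rw [← qB_ac θ (D.pu1 ((x.1.1, x.2 * x.2), a), x.2)]
  have := D.eq1 (θ * θ) ((x.1.1, x.2 * x.2), a) ⟨⟨hx.1.1, Sp_sq hx.2⟩, ha⟩
  simp only [ac, shS, sq, smul_mul_smul_comm, Circle.coe_mul] at this ⊢
  rw [this]

theorem PU_cdK : CD (fun θ z => (ac 2 θ z.1, z.2)) (Prod.map (qB 2) id) (fun z => z.1.2)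
    {z : LA V m × RN D.N | z.1 ∈ D.Xt ∧ D.K (z.1.1.1, z.1.2 * z.1.2) z.2 = z.2} D.TK :=
  (D.cdG 2).prod D.lc_TK (fun z => ⟨fun h => ⟨((D.cdG 2).pre _).1 h.1, (K2_q h.1).symm ▸ h.2⟩,
    fun h => ⟨((D.cdG 2).pre _).2 h.1, K2_q (((D.cdG 2).pre _).2 h.1) ▸ h.2⟩⟩) fun _ h => h.1

theorem ok_PV : Ok D.PV D.TK (zs _ _) (Bo m 2 D.Le) (Zq 1) := by
  have t : ∀ z : LA V m × RN D.N, z.1 ∈ D.Xt ∧ D.K (z.1.1.1, z.1.2 * z.1.2) z.2 = z.2 →
      ((z.1.1.1, z.1.2 * z.1.2), z.2) ∈ tot1 D.S D.K := fun z h => ⟨⟨h.1.1.1, Sp_sq h.1.2⟩, h.2⟩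
  refine ok_of D.lc_TK (D.PU_cdK.contOn (F := fun z =>
    qB 2 (D.pu1 ((z.1.1.1, z.1.2 * z.1.2), z.2), z.1.2))
    (continuous_qB.comp_continuousOn ((D.c1.comp (Continuous.continuousOn (by fun_prop)) t).prodMk
      (by fun_prop))) fun z h => D.PV_q h.1 h.2) (fun z hz => ?_) fun z hz k => ?_
  · obtain ⟨w, hw, rfl⟩ := D.PU_cdK.surj hz
    exact ⟨(_, w.1.2), ⟨⟨D.mem1 (t w hw), D.pu1_le (t w hw)⟩, hw.1.2⟩, (D.PV_q hw.1 hw.2).symm⟩
  · obtain ⟨w, hw, rfl⟩ := D.PU_cdK.surj hz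
    have e : D.PV (Prod.map (qB 2) id w) = _ := D.PV_q hw.1 hw.2
    rw [e, q_Zq] at k
    exact by_contra fun e => not_le.2 (D.lt1 _ (t w hw) e) k

theorem ok_io2 : Ok D.io2 D.TK (zs _ _) D.TE (zs _ _) := by
  refine .of_mem (.of_continuous (by unfold io2; fun_prop) _)
    (fun z h => ⟨h.1, D.E2_fix.2 ⟨h.2, mulVec_zero _, map_zero _⟩⟩) fun z _ k => ?_
  exact congrArg Prod.fst k

theorem kp_PV {z : BQ V m 2 × RN D.N} (hz : z ∈ D.TK) : kpB (D.PV z) = D.PU1 (Prod.map kpB id z) := by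
  obtain ⟨w, hw, rfl⟩ := D.PU_cdK.surj hz
  have e : D.PV (Prod.map (qB 2) id w) = _ := D.PV_q hw.1 hw.2
  rw [e, kpB_q]
  change _ = D.PU1 (kpB (qB 2 w.1), w.2)
  rw [kpB_q]
  exact (PU1_q (x := (w.1.1, w.1.2 * w.1.2)) ⟨hw.1.1, Sp_sq hw.1.2⟩ hw.2).symm

theorem ps_PV {z : BQ V m 2 × RN D.N} (hz : z ∈ D.TK) : psB (D.PV z) = D.PU2 (D.io2 z) := by
  have hv := (D.ok_io2.maps hz).2
  obtain ⟨w, hw, rfl⟩ := D.PU_cdK.surj hz
  have e : D.PV (Prod.map (qB 2) id w) = _ := D.PV_q hw.1 hw.2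
  have e' : D.PU2 (D.io2 (Prod.map (qB 2) id w)) =
    qB 1 (D.pu2 (pj w.1, w.2, dec w.1.2 0, 0), w.1.2) := D.PU2_q hw.1 hv
  rw [e, e', psB_q, dec_zero]
  exact congrArg (fun p => qB 1 (p, w.1.2)) (D.one (pj w.1) (pj_mem hw.1) w.2 hw.2).symm

end TD

end Pool.Agent.Work.MP_8c604c_gt.OT
end
end

-- merged part: Pool.Agent.Work.MP_8c604c_gt.OR.E2
section
/-!
The Thom class of the second negative bundle (owner helper4).

PLAN.  `rb_E2`: `rb_K2`, `cb_EC` (`CB.cont`, `CB.fix`, `CB.finrank`; real rank = 2 * complex rank), `rb_Pq`; continuity of `prodMap`, of `M ↦ toContinuousLinearMap M.mulVecLin`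
(linear on a finite-dimensional space, or `continuousOn_clm_apply`); the range of `prodMap` is the product of the ranges (`E2_fix`).
`tau2_eq`: `pull_thR D.rb_Kq (D.ori_K Q hm) D.rb_K2 ((D.ori_K Q hm).comp ..)` with `BMap K2 (GB 2) Kq (GB 1) kpB (fun _ => 1)`.
`thZ_K2`: `RB.thZ`.  `kT_th1`: `pull_cup'` or `pull_cm`-like with `ok_kT`, `pull_pull'`.
`gen_tauE`: take frames `S₁ : (Fin 7 → ℝ) →ₗ RN N` (`Sg_fr` in `OZ/Sg`), `S₂ : (Fin 7 → ℂ) →ₗ[ℂ] ..` (`CB.exists_frame`, `frame_inj`, `frame_mem`), `S₃ : (Fin 8 → ℝ) →ₗ RN N'`;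
the pull-back of `tauE` along `v ↦ (y, S₁ v.1, S₂ v.2.1, S₃ v.2.2)` is the product class of `gen_prod` applied twice (`pull_cup'`, `pull_pull'`, `gen_thR_fib`, `IsThom.fib`, `gen_orient`);
a general `L` is this frame composed with a linear equivalence (both are injective with the same range, `RB.surj_fib`, dimension count; `zb_lin`, `Gen.pul`). Model: `euR_sum_sign` in `OZ/Sg`.
`tauE_span`: `FibNe.gysD` with `gen_tauE`, `GysD.exists_thom` (degree `0 + 29`), `deg0_const (D.isConnected_GB Q).2`, `pull_oneH`, `cm_one`.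
`io_tauE`: `pull_cup'` twice; the first factor is `tau2`, the other two are pull-backs along `Prod.fst` of `eu` (`= ec .. 0 ..`) and `euR`; `Evn.comm`, `pull_mul`.
-/

noncomputable section

set_option linter.unusedSectionVars false

namespace Pool.Agent.Work.MP_8c604c_gt.OT

open Set Topology Matrix Pool.Agent.Work.MP_849ab0_ag.G T

variable {V : Type} [NormedAddCommGroup V] [InnerProductSpace ℝ V] [FiniteDimensional ℝ V]
  {𝕄 : Mf V} {m : ℕ}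

namespace TD

variable (D : TD 𝕄 m) (Q : MT 𝕄)

theorem E2_frame {y : BQ V m 2} (hy : y ∈ D.GB 2) : ∃ (S₁ : (Fin 7 → ℝ) →ₗ[ℝ] RN D.N)
    (S₂ : (Fin 7 → ℂ) →ₗ[ℂ] (IC D.N × Fin (m + 1) → ℂ)) (S₃ : (Fin 8 → ℝ) →ₗ[ℝ] RN D.N'),
    Function.Injective S₁ ∧ Function.Injective S₂ ∧ Function.Injective S₃ ∧
    (∀ v, D.K2 y (S₁ v) = S₁ v) ∧ (∀ v, D.EC y *ᵥ S₂ v = S₂ v) ∧ (∀ v, D.Pq y (S₃ v) = S₃ v) ∧
    LinearMap.range (D.E2 y : D.A2 →ₗ[ℝ] D.A2) =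
      LinearMap.range (S₁.prodMap ((S₂.restrictScalars ℝ).prodMap S₃)) := by
  obtain ⟨S₁, i₁, m₁, e₁⟩ := Sg_fr D.rb_K2 hy
  obtain ⟨S₃, i₃, m₃, e₃⟩ := Sg_fr D.rb_Pq hy
  obtain ⟨T, S, k1, k2⟩ := idem_factor (D.cb_EC.idem y hy) (D.cb_EC.rank y hy)
  refine ⟨S₁, T.mulVecLin, S₃, i₁, frame_inj k1, i₃, m₁, frame_mem k1 k2, m₃, le_antisymm ?_ ?_⟩
  · rintro _ ⟨v, rfl⟩
    obtain ⟨a, ha⟩ := e₁.le ⟨v.1, rfl⟩
    obtain ⟨c, hc⟩ := e₃.le ⟨v.2.2, rfl⟩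
    refine ⟨(a, S *ᵥ v.2.1, c), Prod.ext ha (Prod.ext ?_ hc)⟩
    change T *ᵥ (S *ᵥ v.2.1) = D.EC y *ᵥ v.2.1
    rw [mulVec_mulVec, k2]
  · rintro _ ⟨v, rfl⟩
    exact ⟨_, D.E2_fix.2 ⟨m₁ _, frame_mem k1 k2 _, m₃ _⟩⟩

theorem E2_dim : Module.finrank ℝ ((Fin 7 → ℝ) × (Fin 7 → ℂ) × (Fin 8 → ℝ)) = 29 := by
  simp [Module.finrank_pi_fintype]

theorem E2_chg {X A B C : Type} [TopologicalSpace X] [NormedAddCommGroup A] [NormedSpace ℝ A]
    [NormedAddCommGroup B] [NormedSpace ℝ B] [FiniteDimensional ℝ B]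
    [NormedAddCommGroup C] [NormedSpace ℝ C] [FiniteDimensional ℝ C] {T Z : Set (X × A)} {y : X}
    {L : B →ₗ[ℝ] A} {S : C →ₗ[ℝ] A} (hL : Function.Injective L) (i : Function.Injective S)
    (r : LinearMap.range L = LinearMap.range S) (o : Ok (fun v => (y, S v)) univ {0} T Z)
    {τ : H T Z} {d : ℤ} (g : Gen d (pull (fun v => (y, S v)) univ {0} τ)) :
    Gen d (pull (fun v => (y, L v)) univ {0} τ) := by
  let u := (LinearEquiv.ofInjective L hL).trans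
    ((LinearEquiv.ofEq _ _ r).trans (LinearEquiv.ofInjective S i).symm)
  have hu : ∀ v, S (u v) = L v := fun v => LinearEquiv.ofInjective_symm_apply (h := i) _ _
  rw [← pull_pull' (F := fun v => (y, L v)) (zb_lin u).ok o fun v _ => by rw [hu]]
  exact g.pul (zb_lin u)

theorem E2_gen3 {A B C : Type} [NormedAddCommGroup A] [NormedSpace ℝ A] [FiniteDimensional ℝ A]
    [NormedAddCommGroup B] [NormedSpace ℝ B] [FiniteDimensional ℝ B]
    [NormedAddCommGroup C] [NormedSpace ℝ C] [FiniteDimensional ℝ C] {d₁ d₂ d₃ : ℤ}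
    {ω₁ : H (univ : Set A) {0}} {ω₂ : H (univ : Set B) {0}} {ω₃ : H (univ : Set C) {0}}
    (g₁ : Gen d₁ ω₁) (g₂ : Gen d₂ ω₂) (g₃ : Gen d₃ ω₃) :
    Gen (d₁ + (d₂ + d₃)) (cup (univ : Set (A × B × C)) {0} (pull Prod.fst univ {w | w.1 = 0} ω₁)
      (cup univ {w | w.2 = 0} (pull (fun w => w.2.1) univ {w | w.2.1 = 0} ω₂)
        (pull (fun w => w.2.2) univ {w | w.2.2 = 0} ω₃))) := by
  have q₂ : Ok Prod.snd univ {w : A × B × C | w.2.1 = 0} univ {z | z.1 = 0} :=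
    .of_mem (.of_continuous continuous_snd _) (fun _ _ => trivial) fun _ _ a => a
  have q₃ : Ok Prod.snd univ {w : A × B × C | w.2.2 = 0} univ {z | z.2 = 0} :=
    .of_mem (.of_continuous continuous_snd _) (fun _ _ => trivial) fun _ _ a => a
  have q₁ : Ok Prod.snd univ {w : A × B × C | w.2 = 0} univ {0} := Sg_snd
  have c : CupOK (univ : Set (B × C)) {z | z.1 = 0} univ {z | z.2 = 0} univ {0} :=
    cupOK fun _ _ a b => Prod.ext a b
  have e2 := pull_pull' (F := fun w => w.2.1) q₂ Sg_fst (fun _ _ => rfl) ω₂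
  have e3 := pull_pull' (F := fun w => w.2.2) q₃ Sg_snd (fun _ _ => rfl) ω₃
  have e1 := pull_cup' q₁ q₂ q₃ (fun _ _ a b => Prod.ext a b) c
    (pull Prod.fst univ _ ω₂) (pull Prod.snd univ _ ω₃)
  rw [← e2, ← e3, ← e1]
  exact gen_prod g₁ (gen_prod g₂ g₃)

theorem E2_pull {X : Type} [TopologicalSpace X] {φ : X → BQ V m 2 × D.A2} {U Z Z₁ Z₂ Z₃ W : Set X}
    (h : Ext φ U) (k : MapsTo φ U D.TE) (h1 : ∀ x ∈ U, (φ x).2.1 = 0 → x ∈ Z₁)
    (h2 : ∀ x ∈ U, (φ x).2.2.1 = 0 → x ∈ Z₂) (h3 : ∀ x ∈ U, (φ x).2.2.2 = 0 → x ∈ Z₃)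
    (c : ∀ x ∈ U, x ∈ Z₂ → x ∈ Z₃ → x ∈ W) (c' : ∀ x ∈ U, x ∈ Z₁ → x ∈ W → x ∈ Z) :
    pull φ U Z D.tauE = cup U Z (pull (fun x => ((φ x).1, (φ x).2.1)) U Z₁ D.tau2)
      (cup U W (pull (fun x => ((φ x).1, (φ x).2.2.1)) U Z₂ (th D.EC 7 (D.GB 2)))
        (pull (fun x => ((φ x).1, (φ x).2.2.2)) U Z₃ (thR D.Pq 8 (D.GB 2) D.oP))) := by
  have o1 : Ok φ U Z₁ D.TE {z | z.2.1 = 0} := .of_mem h k h1
  have o2 : Ok φ U Z₂ D.TE {z | z.2.2.1 = 0} := .of_mem h k h2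
  have o3 : Ok φ U Z₃ D.TE {z | z.2.2.2 = 0} := .of_mem h k h3
  have oW : Ok φ U W D.TE {z | z.2.2 = 0} := .of_mem h k fun x hx e =>
    c x hx (h2 x hx (congrArg Prod.fst e)) (h3 x hx (congrArg Prod.snd e))
  have o : Ok φ U Z D.TE (zs _ _) := .of_mem h k fun x hx e =>
    c' x hx (h1 x hx (congrArg Prod.fst e)) (oW.mem hx (congrArg Prod.snd e))
  have p1 : Ok (fun z : BQ V m 2 × D.A2 => (z.1, z.2.1)) D.TE {z | z.2.1 = 0} D.TK (zs _ _) :=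
    .of_mem (.of_continuous (by fun_prop) _) (fun z a => ⟨a.1, (D.E2_fix.1 a.2).1⟩) fun _ _ a => a
  have p2 : Ok (fun z : BQ V m 2 × D.A2 => (z.1, z.2.2.1)) D.TE {z | z.2.2.1 = 0}
      (tot D.EC (D.GB 2)) (zs _ _) :=
    .of_mem (.of_continuous (by fun_prop) _) (fun z a => ⟨a.1, (D.E2_fix.1 a.2).2.1⟩) fun _ _ a => a
  have p3 : Ok (fun z : BQ V m 2 × D.A2 => (z.1, z.2.2.2)) D.TE {z | z.2.2.2 = 0}
      (totR D.Pq (D.GB 2)) (zs _ _) :=
    .of_mem (.of_continuous (by fun_prop) _) (fun z a => ⟨a.1, (D.E2_fix.1 a.2).2.2⟩) fun _ _ a => a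
  rw [tauE, pull_cup' o o1 oW c' (cupOK fun _ _ a b => Prod.ext a b),
    pull_cup' oW o2 o3 c (cupOK fun _ _ a b => Prod.ext a b),
    pull_pull' (F := fun x => ((φ x).1, (φ x).2.1)) o1 p1 fun _ _ => rfl,
    pull_pull' (F := fun x => ((φ x).1, (φ x).2.2.1)) o2 p2 fun _ _ => rfl,
    pull_pull' (F := fun x => ((φ x).1, (φ x).2.2.2)) o3 p3 fun _ _ => rfl]

theorem rb_E2 : RB D.E2 29 (D.GB 2) := by
  have c : ContinuousOn (fun y => (LinearMap.toContinuousLinearMap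
      (D.EC y).mulVecLin).restrictScalars ℝ) (D.GB 2) := continuousOn_clm_apply.2 fun v =>
    (continuous_id.matrix_mulVec continuous_const).comp_continuousOn D.cb_EC.cont
  refine ⟨D.lc_GB, D.rb_K2.cont.prod_mapL ℝ (c.prod_mapL ℝ D.rb_Pq.cont), fun y hy a =>
    D.E2_fix.2 ⟨D.rb_K2.idem y hy _, D.cb_EC.fix hy _, D.rb_Pq.idem y hy _⟩, fun y hy => ?_⟩
  obtain ⟨S₁, S₂, S₃, i₁, i₂, i₃, -, -, -, e⟩ := D.E2_frame hy
  rw [e, LinearMap.finrank_range_of_inj (i₁.prodMap (i₂.prodMap i₃)), E2_dim]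

include Q

theorem tau2_eq (hm : 1 ≤ m) : D.tau2 = thR D.K2 7 (D.GB 2) fun y => D.o1 (kpB y) := by
  have b : BMap D.K2 (D.GB 2) D.Kq (D.GB 1) kpB fun _ => ContinuousLinearMap.id ℝ _ :=
    ⟨continuous_kpB.continuousOn, D.ok_kap.maps, continuousOn_const, fun _ _ _ h => h,
      fun _ _ _ _ h => h⟩
  exact pull_thR D.rb_Kq (D.ori_K Q hm) D.rb_K2
    ((D.ori_K Q hm).comp continuous_kpB.continuousOn D.ok_kap.maps) b fun _ _ _ _ => rfl

theorem thZ_K2 (hm : 1 ≤ m) : ThZ Prod.fst D.TK (zs _ _) (D.GB 2) 7 D.tau2 := by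
  rw [D.tau2_eq Q hm]
  exact D.rb_K2.thZ ((D.ori_K Q hm).comp continuous_kpB.continuousOn D.ok_kap.maps) (by norm_num)

theorem th2_inj (hm : 1 ≤ m) : Function.Injective D.th2 := (D.thZ_K2 Q hm).bij.1

omit Q in
theorem kT_th1 (a : H (D.GB 1) univ) :
    pull (Prod.map kpB id) D.TK (zs _ _) (D.th1 a) = D.th2 (pull kpB (D.GB 2) univ a) := by
  have o1 : Ok Prod.fst D.T1 univ (D.GB 1) univ := ok_fstR
  have o2 : Ok Prod.fst D.TK univ (D.GB 2) univ := ok_fstR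
  rw [th1_apply, th2_apply, pull_cm D.ok_kT,
    pull_pull' (F := fun z => kpB z.1) (Ok.top D.ok_kT) o1 fun _ _ => rfl,
    pull_pull' (F := fun z => kpB z.1) o2 D.ok_kap fun _ _ => rfl, tau2]

theorem isDeg_tauE (hm : 1 ≤ m) : IsDeg 29 D.tauE := by
  exact (((thR_spec D.rb_Kq (D.ori_K Q hm)).1.pull _ _ _).pull _ _ _).cup
    ((D.cb_EC.isThom_th.1.pull _ _ _).cup ((thR_spec D.rb_Pq (D.ori_P Q hm)).1.pull _ _ _) _ _) _ _

theorem E2_gen0 (hm : 1 ≤ m) {y : BQ V m 2} (hy : y ∈ D.GB 2) {S₁ : (Fin 7 → ℝ) →ₗ[ℝ] RN D.N}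
    {S₂ : (Fin 7 → ℂ) →ₗ[ℂ] (IC D.N × Fin (m + 1) → ℂ)} {S₃ : (Fin 8 → ℝ) →ₗ[ℝ] RN D.N'}
    (i₁ : Function.Injective S₁) (i₂ : Function.Injective S₂) (i₃ : Function.Injective S₃)
    (m₁ : ∀ v, D.K2 y (S₁ v) = S₁ v) (m₂ : ∀ v, D.EC y *ᵥ S₂ v = S₂ v)
    (m₃ : ∀ v, D.Pq y (S₃ v) = S₃ v) :
    Gen 29 (pull (fun v : (Fin 7 → ℝ) × (Fin 7 → ℂ) × (Fin 8 → ℝ) =>
      ((y, S₁ v.1, S₂ v.2.1, S₃ v.2.2) : BQ V m 2 × D.A2)) univ {0} D.tauE) := by
  have g₁ : Gen (7 : ℕ) (pull (fun v => (y, S₁ v)) univ {0} D.tau2) := by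
    rw [D.tau2_eq Q hm]
    exact gen_thR_fib D.rb_K2 ((D.ori_K Q hm).comp continuous_kpB.continuousOn D.ok_kap.maps) hy
      (Module.finrank_fin_fun ℝ) i₁ m₁
  have g₂ := gen_orient (Fin 7)
  rw [← D.cb_EC.isThom_th.fib D.cb_EC hy (Fintype.card_fin 7) i₂ m₂] at g₂
  have g := E2_gen3 g₁ g₂ (gen_thR_fib D.rb_Pq (D.ori_P Q hm) hy (Module.finrank_fin_fun ℝ) i₃ m₃)
  have o₁ : Ok (fun v => (y, S₁ v)) univ {0} D.TK (zs _ _) := ok_fibR hy i₁ m₁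
  have q₂ : Ok (fun w => w.2.1) univ {w : (Fin 7 → ℝ) × (Fin 7 → ℂ) × (Fin 8 → ℝ) | w.2.1 = 0} univ
      {0} := .of_mem (.of_continuous (by fun_prop) _) (fun _ _ => trivial) fun _ _ a => a
  have q₃ : Ok (fun w => w.2.2) univ {w : (Fin 7 → ℝ) × (Fin 7 → ℂ) × (Fin 8 → ℝ) | w.2.2 = 0} univ
      {0} := .of_mem (.of_continuous (by fun_prop) _) (fun _ _ => trivial) fun _ _ a => a
  rw [pull_pull' (F := fun v => (y, S₁ v.1)) Sg_fst o₁ fun _ _ => rfl,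
    pull_pull' (F := fun v => (y, S₂ v.2.1)) q₂ (ok_fib hy i₂ m₂) fun _ _ => rfl,
    pull_pull' (F := fun v => (y, S₃ v.2.2)) q₃ (ok_fibR hy i₃ m₃) fun _ _ => rfl] at g
  have k : ∀ v : (Fin 7 → ℝ) × (Fin 7 → ℂ) × (Fin 8 → ℝ),
      D.E2 y (S₁ v.1, S₂ v.2.1, S₃ v.2.2) = (S₁ v.1, S₂ v.2.1, S₃ v.2.2) := fun v =>
    (D.E2_fix (v := (S₁ v.1, S₂ v.2.1, S₃ v.2.2))).2 ⟨m₁ _, m₂ _, m₃ _⟩
  have c₁ := S₁.continuous_of_finiteDimensional
  have c₂ := S₂.continuous_of_finiteDimensional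
  have c₃ := S₃.continuous_of_finiteDimensional
  rw [D.E2_pull (φ := fun v : (Fin 7 → ℝ) × (Fin 7 → ℂ) × (Fin 8 → ℝ) =>
    (y, S₁ v.1, S₂ v.2.1, S₃ v.2.2)) (U := univ) (Z := {0}) (Z₁ := {w | w.1 = 0})
    (Z₂ := {w | w.2.1 = 0}) (Z₃ := {w | w.2.2 = 0})
    (W := {w | w.2 = 0}) (.of_continuous (by fun_prop) _)
    (fun v _ => ⟨hy, k v⟩) (fun _ _ a => i₁ (a.trans S₁.map_zero.symm))
    (fun _ _ a => i₂ (a.trans S₂.map_zero.symm)) (fun _ _ a => i₃ (a.trans S₃.map_zero.symm))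
    (fun _ _ a b => Prod.ext a b) fun _ _ a b => Prod.ext a b]
  exact g

theorem gen_tauE (hm : 1 ≤ m) {y : BQ V m 2} (hy : y ∈ D.GB 2) {L : (Fin 29 → ℝ) →ₗ[ℝ] D.A2}
    (hL : Function.Injective L) (k : ∀ v, D.E2 y (L v) = L v) :
    Gen 29 (pull (fun v => (y, L v)) univ {0} D.tauE) := by
  obtain ⟨S₁, S₂, S₃, i₁, i₂, i₃, m₁, m₂, m₃, e⟩ := D.E2_frame hy
  have i : Function.Injective (S₁.prodMap ((S₂.restrictScalars ℝ).prodMap S₃)) :=
    i₁.prodMap (i₂.prodMap i₃)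
  have r : LinearMap.range L = LinearMap.range (S₁.prodMap ((S₂.restrictScalars ℝ).prodMap S₃)) :=
    Submodule.eq_of_le_of_finrank_eq (e ▸ by rintro _ ⟨v, rfl⟩; exact ⟨_, k v⟩)
      (by rw [LinearMap.finrank_range_of_inj hL, LinearMap.finrank_range_of_inj i, E2_dim]; simp)
  exact E2_chg (T := D.TE) hL i r (ok_fibR hy i fun v => D.E2_fix.2 ⟨m₁ _, m₂ _, m₃ _⟩)
    (D.E2_gen0 Q hm hy i₁ i₂ i₃ m₁ m₂ m₃)

theorem tauE_span (hm : 1 ≤ m) {c : H D.TE (zs _ _)} (hc : IsDeg 29 c) : ∃ ν : ℂ, c = ν • D.tauE := by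
  have f : FibNe D.E2 29 (D.GB 2) D.tauE := fun y hy L hL k => (D.gen_tauE Q hm hy hL k).ne
  have g := f.gysD D.rb_E2 (D.isDeg_tauE Q hm)
  obtain ⟨a, ha, rfl⟩ := g.exists_thom (p := 0) (c := c) hc
  obtain ⟨ν, rfl⟩ := deg0_const (D.isConnected_GB Q).2 ha
  refine ⟨ν, ?_⟩
  rw [map_smul, pull_oneH g.ok, map_smul]
  exact congrArg (ν • ·) (cm_one D.tauE)

theorem io_tauE (hm : 1 ≤ m) :
    pull D.io2 D.TK (zs _ _) D.tauE = D.th2 (eu D.EC 7 (D.GB 2) * D.eP) := by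
  have o : Ok Prod.fst D.TK univ (D.GB 2) univ := ok_fstR
  have z : Ok (fun x => (x, (0 : BQ V m 2 → IC D.N × Fin (m + 1) → ℂ) x)) (D.GB 2) univ
      (tot D.EC (D.GB 2)) (zs _ _) :=
    .of_mem (.of_continuous (by fun_prop) _) (fun _ a => ⟨a, mulVec_zero _⟩) fun _ _ _ => trivial
  have ev : Evn (eu D.EC 7 (D.GB 2) * D.eP) :=
    D.cb_EC.evn_eu.cp (IsDeg.evn (isDeg_euR D.rb_Pq (D.ori_P Q hm)) ⟨4, rfl⟩)
  rw [th2_apply, ← (ev.pul _ _ _).comm (cupU _ _), pull_mul o, eu, ec, eP, euR, ecR,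
    pull_pull' (F := fun x => (x.1, 0)) o z fun _ _ => rfl,
    pull_pull' (F := fun x => (x.1, 0)) o (Sg_zero _ _ _) fun _ _ => rfl,
    D.E2_pull (Z₁ := zs _ _) (Z₂ := univ) (Z₃ := univ) (W := univ) D.ok_io2.ext D.ok_io2.maps
      (fun _ _ a => a) (fun _ _ _ => trivial) (fun _ _ _ => trivial) (fun _ _ _ _ => trivial)
      fun _ _ a _ => a]
  exact congrArg (fun a => cup _ _ a _) (pull_id D.tau2)

end TD

end Pool.Agent.Work.MP_8c604c_gt.OT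
end
end

-- merged part: Pool.Agent.Work.MP_8c604c_gt.OR.Nu
section
/-!
The multiplicity at the double covers (owner helper4).

PLAN.  `exists_N`: `D.cover`, `N = C.φ '' closedBall (C.χ p) 1`; `van_contr` with the homotopy `(q, t) ↦ C.φ (C.χ p + t • (C.χ q - C.χ p))` (`ext_htpy`, fields `cχ`, `mem`, `li`, `ri`);
`N ⊇ M ∩ O ∩ χ ⁻¹' ball`.
`lift_N`: `supp_inj` with `U = LamB N`, `Z₁ = Zr 2`, `U₂ = LsB N 2`, `Z = Z₂ = univ`, and `L2_van28`.
`fib_eq`: let `f v = pu2 (x, L v)`; it is `Ok f univ {0} Lam (Zr 2)` (fields `c2`, `mem2`, `lt2`); `O = f ⁻¹' {y | y.1 1 ∈ N}` is a neighbourhood of `0` (continuity, `zero2`, `db c 1 = c 1`, values in `M`),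
`ZB.excision_univ` shows that the restriction to `(O, {0})` is injective, and on `O` the map factors through `LamB N` (`pull_pull'`; for `Ext` use `Ext.mono`).
`nu_eq`: choose `c ∈ S` (`TD0.exists_S`, `Q.conn.1`), `y = qB 2 ((c, 1), 1) ∈ GB 2`, a frame `L'` of `E2 y` (`Sg_fr D.rb_E2`), `L = Λ ∘ L'` with `Λ` from `exists_dec`
(`dec_mem`, `dec_inj`); `PU2_q` gives `PU2 (y, L' v) = qB 1 (pu2 ((c, 1), L v), 1)`, so the pull-back of `w = pull (fun x => qB 1 (x, 1)) Lam (Zr 2) θ` along `f` is `ν • g` with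
`g = pull (fun v => (y, L' v)) univ {0} tauE` a generator (`gen_tauE`, `ok_PU2`, `ok_fibR`). By `lift_N` and `fib_eq` it is `2 • g₄ - 2 • g₃` with generators `g₃`, `g₄`; `Gen.eq_or`, `Gen.smul_inj`.
-/

noncomputable section

set_option linter.unusedSectionVars false

namespace Pool.Agent.Work.MP_8c604c_gt.OT

open Set Topology Matrix Pool.Agent.Work.MP_849ab0_ag.G T

variable {V : Type} [NormedAddCommGroup V] [InnerProductSpace ℝ V] [FiniteDimensional ℝ V]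
  {𝕄 : Mf V} {m : ℕ}

namespace TD1

variable (D : TD1 𝕄) (Q : MT 𝕄)

include D in
theorem exists_N {p : V} (hp : p ∈ 𝕄.M) : ∃ N : Set V, IsCompact N ∧ N ⊆ 𝕄.M ∧
    (∀ q : ℤ, q ≠ 0 → Van q N univ) ∧ N ∈ 𝓝[𝕄.M] p := by
  obtain ⟨C, hC⟩ := D.cover p hp
  have hs : C.φ '' Metric.closedBall (C.χ p) 1 ⊆ 𝕄.M ∩ C.O := by
    rintro _ ⟨a, -, rfl⟩
    exact C.mem a
  have hc : IsCompact (C.φ '' Metric.closedBall (C.χ p) 1) :=
    (isCompact_closedBall _ _).image C.sm.continuous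
  refine ⟨_, hc, fun q h => (hs h).1, fun q hq => ?_, ?_⟩
  · refine van_contr (F := fun z => C.φ (C.χ p + z.2 • (C.χ z.1 - C.χ p))) (x₀ := p)
      (ext_htpy hc.isClosed.isLocallyClosed (C.sm.continuous.comp_continuousOn
        (continuousOn_const.add (continuousOn_snd.smul ((C.cχ.comp continuousOn_fst
          fun z h => (hs h.1).2).sub continuousOn_const))))) ?_
      ⟨_, Metric.mem_closedBall_self zero_le_one, C.ri p ⟨hp, hC⟩⟩ (fun x _ => ?_) ?_ hq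
    · rintro _ ⟨a, ha, rfl⟩ t ht
      refine ⟨_, ?_, rfl⟩
      rw [mem_closedBall_iff_norm] at ha ⊢
      rw [add_sub_cancel_left, C.li, norm_smul, Real.norm_of_nonneg ht.1]
      exact mul_le_one₀ ht.2 (norm_nonneg _) ha
    · dsimp only
      rw [zero_smul, add_zero, C.ri p ⟨hp, hC⟩]
    · rintro _ ⟨a, -, rfl⟩
      dsimp only
      rw [one_smul, add_sub_cancel, C.li]
  · have h1 : C.χ ⁻¹' Metric.closedBall (C.χ p) 1 ∈ 𝓝 p :=
      (C.cχ.continuousAt (C.opn.mem_nhds hC)) (Metric.closedBall_mem_nhds _ one_pos)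
    filter_upwards [self_mem_nhdsWithin, mem_nhdsWithin_of_mem_nhds h1,
      mem_nhdsWithin_of_mem_nhds (C.opn.mem_nhds hC)] with q h2 h3 h4
    exact ⟨_, h3, C.ri q ⟨h2, h4⟩⟩

include Q in
theorem lift_N {N : Set V} (hN : IsCompact N) (h : N ⊆ 𝕄.M) (v : ∀ q : ℤ, q ≠ 0 → Van q N univ)
    {w : H D.Lam (Zr 2)} (hw : IsDeg 29 w) (e : pull id (D.LamB N) univ w = 0) :
    pull id (D.LamB N) (Zr 2) w = 0 := by
  refine supp_inj (U := D.LamB N) (U₂ := D.LsB N 2) (Z := univ) (Z₂ := univ)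
    (Subset.antisymm (fun _ a => ⟨⟨a.1.1, a.2⟩, a.1.2⟩) fun _ a => ⟨⟨a.1.1, a.2⟩, a.1.2⟩) (by simp)
    (fun b hb => D.L2_van28 Q hN h v hb) (hw.pull _ _ _) ?_
  exact (pull_pull' (F := id) (.id subset_rfl fun _ _ _ => trivial)
    (.id inter_subset_left fun _ _ k => k) (fun _ _ => rfl) w).trans e

end TD1

namespace TD

variable (D : TD 𝕄 m) (Q : MT 𝕄)

theorem Nu_ok {x : LM V × CM m} {L : (Fin 29 → ℝ) →ₗ[ℝ] FB D.N D.N'} (hL : Function.Injective L)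
    (k : ∀ v, (x, L v) ∈ tot2 D.S D.K D.P) : Ok (fun v => D.pu2 (x, L v)) univ {0} D.Lam (Zr 2) :=
  .of_mem (.of_continuous (D.c2.comp_continuous
    (continuous_const.prodMk L.continuous_of_finiteDimensional) k) _) (fun v _ => D.mem2 (k v))
    fun v _ h => by_contra fun e => (D.lt2 _ (k v) fun e' => e (hL (e'.trans L.map_zero.symm))).not_ge h

theorem fib_eq {x : LM V × CM m} {L : (Fin 29 → ℝ) →ₗ[ℝ] FB D.N D.N'} (hL : Function.Injective L)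
    (k : ∀ v, (x, L v) ∈ tot2 D.S D.K D.P) {N : Set V} (hN : N ∈ 𝓝[𝕄.M] (x.1 1)) {w : H D.Lam (Zr 2)}
    (e : pull id (D.LamB N) (Zr 2) w = 0) : pull (fun v => D.pu2 (x, L v)) univ {0} w = 0 := by
  have o := D.Nu_ok hL k
  have hc : Continuous fun v => (D.pu2 (x, L v)).1 1 :=
    continuous_bas.comp (continuousOn_univ.1 o.ext.continuousOn)
  have hO : (fun v => (D.pu2 (x, L v)).1 1) ⁻¹' N ∈ 𝓝 0 := by
    refine tendsto_nhdsWithin_iff.2 (And.intro ?_ (.of_forall fun v => (D.mem2 (k v)).1 1)) hN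
    have := hc.tendsto 0
    rwa [map_zero, D.zero2 x (k 0).1, db_apply, mul_one] at this
  refine (ZB.excision_univ isClosed_singleton fun v hv => hv ▸ hO).bij.1 ?_
  have o' : Ok (fun v => D.pu2 (x, L v)) ((fun v => (D.pu2 (x, L v)).1 1) ⁻¹' N) {0}
      (D.LamB N) (Zr 2) :=
    .of_mem (o.ext.mono (subset_univ _)) (fun v h => ⟨D.mem2 (k v), h⟩) fun v _ h => o.mem trivial h
  rw [map_zero, pull_pull' (F := fun v => D.pu2 (x, L v)) (.id (subset_univ _) fun _ _ h => h) o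
    fun _ _ => rfl, ← pull_pull' (F := fun v => D.pu2 (x, L v)) o'
    (.id inter_subset_left fun _ _ h => h) fun _ _ => rfl, e, map_zero]

include Q in
theorem nu_eq (hm : 1 ≤ m) {θ : H (Bo m 1 D.Lam) (Zq 2)} (hθ : IsDeg 29 θ) {w₃ w₄ : H D.Lam (Zr 2)}
    (g₃ : D.G3 w₃) (g₄ : D.G3 w₄)
    (e : ∀ N : Set V, IsCompact N → N ⊆ 𝕄.M → (∀ q : ℤ, q ≠ 0 → Van q N univ) →
      pull id (D.LamB N) univ (pull (fun x => qB 1 (x, (1 : CM m))) D.Lam univ θ) =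
        -((2 : ℂ) • pull id (D.LamB N) univ w₃ - (2 : ℂ) • pull id (D.LamB N) univ w₄))
    {ν : ℂ} (hν : pull D.PU2 D.TE (zs _ _) θ = ν • D.tauE) : ν = 0 ∨ ν = 4 ∨ ν = -4 := by
  obtain ⟨p, hp⟩ := Q.conn.1
  obtain ⟨c, hc, rfl⟩ := D.exists_S hp
  have hx : ((c, (1 : ℝ)), (1 : CM m)) ∈ D.Xt := ⟨⟨hc, rfl⟩, one_mem_Sp⟩
  have hy : qB 2 ((c, (1 : ℝ)), (1 : CM m)) ∈ D.GB 2 := mem_image_of_mem _ hx
  obtain ⟨L', i', k', -⟩ := Sg_fr D.rb_E2 hy
  obtain ⟨Λ, hΛ⟩ := exists_dec D.N D.N' (1 : CM m)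
  have i : Function.Injective (Λ ∘ₗ L') := (injective_iff_map_eq_zero _).2 fun v h =>
    i' ((D.dec_inj hx (k' v) ((hΛ _).symm.trans h)).trans L'.map_zero.symm)
  have k : ∀ v, ((c, (1 : CM m)), (Λ ∘ₗ L') v) ∈ tot2 D.S D.K D.P := fun v => by
    rw [LinearMap.comp_apply, hΛ]
    exact D.dec_mem hx (k' v)
  obtain ⟨N, h1, h2, h3, h4⟩ := D.exists_N hp
  have oq : ∀ {A Z : Set (LS V)}, A ⊆ D.Lam → Zr 2 ⊆ Z →
      Ok (fun x => qB 1 (x, (1 : CM m))) A Z (Bo m 1 D.Lam) (Zq 2) := fun hA hZ =>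
    .of_mem (.of_continuous (continuous_qB.comp (continuous_id.prodMk continuous_const)) _)
      (fun _ h => mem_image_of_mem _ ⟨hA h, one_mem_Sp⟩) fun _ _ h => hZ (q_Zq.1 h)
  have e1 : pull id (D.LamB N) univ (pull (fun x => qB 1 (x, (1 : CM m))) D.Lam (Zr 2) θ +
      ((2 : ℂ) • w₃ - (2 : ℂ) • w₄)) = 0 := by
    have e0 := e N h1 h2 h3
    have hB : D.LamB N ⊆ D.Lam := inter_subset_left
    rw [pull_pull' (F := fun x => qB 1 (x, (1 : CM m))) (.id hB fun _ _ h => h)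
      (oq subset_rfl (subset_univ _)) fun _ _ => rfl] at e0
    rw [map_add, map_sub, map_smul, map_smul, pull_pull' (F := fun x => qB 1 (x, (1 : CM m)))
      (.id hB fun _ _ _ => mem_univ _) (oq subset_rfl subset_rfl) fun _ _ => rfl, e0,
      neg_add_cancel]
  have e2 := D.fib_eq i k h4 (D.lift_N Q h1 h2 h3
    ((hθ.pull _ _ _).add ((g₃.1.smul 2).sub (g₄.1.smul 2))) e1)
  have g := D.gen_tauE Q hm hy i' k'
  have e3 := congrArg (pull (fun v => (qB 2 ((c, (1 : ℝ)), (1 : CM m)), L' v)) univ {0}) hν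
  rw [map_smul, pull_pull' (F := fun v => qB 1 (D.pu2 ((c, (1 : CM m)), (Λ ∘ₗ L') v), (1 : CM m)))
    (U' := D.TE) (ok_fibR hy i' k') D.ok_PU2 fun v _ => by
      rw [D.PU2_q hx (k' v), LinearMap.comp_apply, hΛ]
      rfl] at e3
  rw [map_add, map_sub, map_smul, map_smul, pull_pull' (D.Nu_ok i k) (oq subset_rfl subset_rfl)
    fun _ _ => rfl, e3] at e2
  rcases g.eq_or (g₃.2 _ _ i k) with a | a <;> rcases g.eq_or (g₄.2 _ _ i k) with b | b <;>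
    rw [a, b] at e2
  · exact .inl (g.smul_inj (by linear_combination (norm := module) e2))
  · exact .inr (.inr (g.smul_inj (by linear_combination (norm := module) e2)))
  · exact .inr (.inl (g.smul_inj (by linear_combination (norm := module) e2)))
  · exact .inl (g.smul_inj (by linear_combination (norm := module) e2))

end TD

end Pool.Agent.Work.MP_8c604c_gt.OT
end
end

-- merged part: Pool.Agent.Work.MP_8c604c_gt.OR.Pb
section
/-!
The pull-backs under the first push (owner helper4).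

PLAN.  `em_pu`, `em_fst`: the structure `EM` of `OT/Bor2` (weight 1; field `eq1`, `PU1_com`, `cont_pu1u`); restrict them to `P1u` for `PU1_e`:
`EM.map_ee` for `(cdLs m 1 1, cdP)` and `(cdG 1, cdP)`, both sides are `ee (Prod.map (qB 1) id) (fun z => z.1.2) P1`.
`PU1_bb`: `pull_dlt` (with `V := T1`, `ok_PU1 D.Le_Lam`, `ok_PU1P`, `BL_diff`), `pull_mul`, `pull_pow`, `PU1_e`, `pull_pull'` (`yp = pull mq`), then `th1_gy` and `GysD.gys_mul_evn`
(`pull_pow (D.gd1 Q hm).ok0`, `evn_ee`).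
`thZ_u`: `T1u` is `totR (fun x => K (pj x)) Xt` by definition; `pull_thR` with `BMap (K ∘ pj) Xt Kq (GB 1) (qB 1) (fun _ => 1)` (`Kq_q`), orientation by `Sg_ori`, then `RB.thZ`.
`thZ_s`: the same for `c ↦ qB 1 ((c, 1), 1)` over `D.S`.
`PU1_bz`: `EM.map_tr em_pu` with supports `sdB _ _ 1` and `SD (Prod.map (qB 1) id) T1u zs T1 zs`; write the pull-back of `z` to `T1u` as `cup (fst^* u) τ` by `(thZ_u).bij.2`,
degree of `u` by `isDeg_of_cup`; `CD.tr_cup D.cdT` and `EM.map_tr em_fst` give the last claim.  For the generator pull back along `σ (c, a) = (((c, 1), 1), a)`: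
`σ^* (cup (fst^* u) τ) = cup (fst^* slice^* u) τ_S`; `pull_cm` for `w`, and the pull-back of `bas^* y` is `fst^* uS` (`pull_fst_zeroR`, field `zero1`); `cm_mul`, `thZ_gen_of_mul thZ_s`.
-/

noncomputable section

set_option linter.unusedSectionVars false

namespace Pool.Agent.Work.MP_8c604c_gt.OT

open Set Topology Matrix Pool.Agent.Work.MP_849ab0_ag.G T

variable {V : Type} [NormedAddCommGroup V] [InnerProductSpace ℝ V] [FiniteDimensional ℝ V]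
  {𝕄 : Mf V} {m : ℕ}

theorem Pb_thZ {X Y A A' : Type} [TopologicalSpace X] [RegularSpace X] [SecondCountableTopology X]
    [TopologicalSpace Y] [RegularSpace Y] [SecondCountableTopology Y]
    [NormedAddCommGroup A] [NormedSpace ℝ A] [FiniteDimensional ℝ A]
    [NormedAddCommGroup A'] [NormedSpace ℝ A'] [FiniteDimensional ℝ A'] {U : Set X} {U' : Set Y} {r : ℕ}
    {W : X → A →L[ℝ] A} {o : X → A [⋀^Fin r]→L[ℝ] ℝ} {W' : Y → A' →L[ℝ] A'} {f : Y → X}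
    {B : Y → A' →L[ℝ] A} (h : RB W r U) (ho : Ori W r U o) (h' : RB W' r U') (b : BMap W' U' W U f B)
    (hr : 0 < r) : ThZ Prod.fst (totR W' U') (zs Y A') U' r
      (pull (fun z => (f z.1, B z.1 z.2)) (totR W' U') (zs Y A') (thR W r U o)) := by
  rw [pull_thR h ho h' (Sg_ori ho b) b fun _ _ _ _ => rfl]
  exact h'.thZ (Sg_ori ho b) hr

namespace TD

variable (D : TD 𝕄 m) (Q : MT 𝕄)

theorem em_pu {A : Set (LS V)} (hA : D.Le ⊆ A) :
    EM (fun θ z => (ac 1 θ z.1, z.2)) (Prod.map (qB 1) id) D.T1u (ac 1) (qB 1) (A ×ˢ Sp m) D.pu1u D.PU1 1 := by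
  refine ⟨one_ne_zero, D.cont_pu1u,
    fun _ h => ⟨hA ⟨(D.pu1u_mem h).1, D.pu1_le (D.T1u_tot h)⟩, h.1.2⟩, fun θ z h => ?_,
    fun _ h => D.PU1_com h⟩
  have := D.eq1 θ _ (D.T1u_tot h)
  simp only [pu1u, pj, ac, shS, pow_one] at this ⊢
  rw [this]

theorem em_fst :
    EM (fun θ z => (ac 1 θ z.1, z.2)) (Prod.map (qB 1) id) D.T1u (ac 1) (qB 1) D.Xt Prod.fst Prod.fst 1 := by
  exact ⟨one_ne_zero, continuousOn_fst, fun _ h => h.1, fun θ _ _ => by rw [pow_one], fun _ _ => rfl⟩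

theorem PU1_e : pull D.PU1 D.P1 univ (eB (Bo m 1 (D.Ls 1))) = pull Prod.fst D.P1 univ (eB (D.GB 1)) := by
  have e := D.em_pu D.Le_Lam
  have e1 : EM (fun θ z => (ac 1 θ z.1, z.2)) (Prod.map (qB 1) id) D.P1u (ac 1) (qB 1)
      (D.Ls 1 ×ˢ Sp m) D.pu1u D.PU1 1 :=
    ⟨e.ne, e.cont.mono sdiff_subset, fun _ h => D.pu1u_Ls h, fun θ y h => e.eqv θ y h.1,
      fun y h => e.com y h.1⟩
  have e2 : EM (fun θ z => (ac 1 θ z.1, z.2)) (Prod.map (qB 1) id) D.P1u (ac 1) (qB 1)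
      D.Xt Prod.fst Prod.fst 1 :=
    ⟨one_ne_zero, continuousOn_fst, fun _ h => h.1.1, fun θ _ _ => by rw [pow_one], fun _ _ => rfl⟩
  exact (e1.map_ee (D.cdLs m 1 1) D.cdP).trans (e2.map_ee (D.cdG 1) D.cdP).symm

theorem PU1_eT : pull D.PU1 D.T1 univ (eB (Bo m 1 D.Lam)) = pull Prod.fst D.T1 univ (eB (D.GB 1)) := by
  exact ((D.em_pu D.Le_Lam).map_ee (D.cdL m 1) D.cdT).trans (D.em_fst.map_ee (D.cdG 1) D.cdT).symm

theorem PU1_bb (hm : 1 ≤ m) (i j : ℕ) :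
    pull D.PU1 D.T1 (zs _ _) (D.bb Q i j) = D.th1 (eB (D.GB 1) ^ i * D.gy Q hm (D.yp Q ^ j)) := by
  have ev : Evn (eB (D.GB 1) ^ i) := (EvR (D.GB 1)).pow_mem (D.cdG 1).evn_ee i
  have g := (D.gd1 Q hm).gys_mul_evn ev (D.yp Q ^ j)
  have y : pull D.PU1 D.P1 univ (D.YB Q) = D.yp Q :=
    pull_pull' D.ok_PU1P D.ok_mB (fun _ _ => rfl) _
  have g' : eB (D.GB 1) ^ i * D.gy Q hm (D.yp Q ^ j) =
      D.gy Q hm (pull Prod.fst D.P1 univ (eB (D.GB 1)) ^ i * D.yp Q ^ j) := by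
    rw [← pull_pow (U := D.P1) (D.gd1 Q hm).ok0]
    exact g.symm
  rw [g', D.th1_gy Q hm, bb, pull_dlt (U₁ := D.P1) (D.ok_PU1 D.Le_Lam).ext subset_rfl sdiff_subset
    (D.ok_PU1 D.Le_Lam) D.ok_PU1P subset_rfl (D.BL_diff 1).subset, pull_mul D.ok_PU1P,
    pull_pow D.ok_PU1P, pull_pow D.ok_PU1P, D.PU1_e, y]

include Q in
theorem thZ_u (hm : 1 ≤ m) :
    ThZ Prod.fst D.T1u (zs _ _) D.Xt 7 (pull (Prod.map (qB 1) id) D.T1u (zs _ _) D.tau1) := by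
  have rb : RB (fun x : LA V m => D.K (pj x)) 7 D.Xt :=
    ⟨D.isCompact_Xt.isClosed.isLocallyClosed, D.cK.comp continuous_pj.continuousOn fun _ => pj_mem,
      fun _ h => D.idK _ (pj_mem h), fun _ h => D.rkK _ (pj_mem h)⟩
  have b : BMap (fun x : LA V m => D.K (pj x)) D.Xt D.Kq (D.GB 1) (qB 1) fun _ => 1 :=
    ⟨continuous_qB.continuousOn, (D.cdG 1).maps, continuousOn_const,
      fun y hy a k => by rw [Kq_q hy]; exact k, fun _ _ _ _ k => k⟩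
  exact Pb_thZ D.rb_Kq (D.ori_K Q hm) rb b (by norm_num)

include Q in
theorem thZ_s (hm : 1 ≤ m) : ThZ Prod.fst (totR (fun c => D.K (c, 1)) D.S) (zs _ _) D.S 7
    (pull (fun z : LM V × RN D.N => (qB 1 ((z.1, (1 : ℝ)), (1 : CM m)), z.2))
      (totR (fun c => D.K (c, 1)) D.S) (zs _ _) D.tau1) := by
  have mm : ∀ c ∈ D.S, (((c, (1 : ℝ)), (1 : CM m)) : LA V m) ∈ D.Xt := fun _ h =>
    (D.ok_slX one_mem_Sp).maps h
  have rb : RB (fun c : LM V => D.K (c, 1)) 7 D.S :=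
    ⟨D.cpt.isClosed.isLocallyClosed, D.cK.comp (by fun_prop) fun _ h => ⟨h, one_mem_Sp⟩,
      fun _ h => D.idK _ ⟨h, one_mem_Sp⟩, fun _ h => D.rkK _ ⟨h, one_mem_Sp⟩⟩
  have b : BMap (fun c : LM V => D.K (c, 1)) D.S D.Kq (D.GB 1)
      (fun c => qB 1 ((c, (1 : ℝ)), (1 : CM m))) fun _ => 1 :=
    ⟨(continuous_qB.comp (by fun_prop)).continuousOn, fun c h => (D.cdG 1).maps (mm c h),
      continuousOn_const, fun y hy a k => by rw [Kq_q (mm y hy)]; exact k, fun _ _ _ _ k => k⟩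
  exact Pb_thZ D.rb_Kq (D.ori_K Q hm) rb b (by norm_num)

theorem PU1_bz (hm : 1 ≤ m) {z w : H D.Lam (Zr 1)} (hz : IsDeg 30 z)
    (e : cup D.Lam (Zr 1) (pull bas D.Lam univ Q.y) z = w) (g : D.G2 w) :
    ∃ u : H D.Xt univ, IsDeg 23 u ∧
      Gen 31 (D.uS Q * pull (fun c : LM V => ((c, (1 : ℝ)), (1 : CM m))) D.S univ u) ∧
      pull D.PU1 D.T1 (zs _ _) (D.bz z) = D.th1 (tB 1 (D.GB 1) univ u) := by
  have kT : SD (Prod.map (qB 1) id) D.T1u (zs _ _) D.T1 (zs _ _) :=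
    ⟨.of_isClosed isClosed_zsR _, fun _ _ => Iff.rfl⟩
  have lt : ∀ y ∈ D.T1u, (D.pu1u y).1 ∈ Zr 1 → y ∈ zs _ _ := fun y hy k =>
    by_contra fun a => (D.lt1 _ (D.T1u_tot hy) a).not_ge k
  have oφ : Ok (fun y => (D.pu1u y).1) D.T1u (zs _ _) D.Lam (Zr 1) :=
    ok_of D.cdT.lcE (continuous_fst.comp_continuousOn D.cont_pu1u) (fun _ h => (D.pu1u_mem h).1) lt
  have ou : Ok D.pu1u D.T1u (zs _ _) (D.Lam ×ˢ Sp m) (Zr 1 ×ˢ univ) :=
    ok_of D.cdT.lcE D.cont_pu1u (fun _ h => D.pu1u_mem h) fun y hy k => lt y hy k.1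
  have of : Ok Prod.fst (D.Lam ×ˢ Sp m) (Zr 1 ×ˢ univ) D.Lam (Zr 1) :=
    .of_mem (.of_continuous continuous_fst _) (fun _ h => h.1) fun _ _ k => ⟨k, trivial⟩
  have tu := D.thZ_u Q hm
  obtain ⟨u, hu⟩ := tu.bij.2 (pull (fun y => (D.pu1u y).1) D.T1u (zs _ _) z)
  dsimp only at hu
  refine ⟨u, isDeg_of_cup (p := 23) tu.deg tu.bij.1 (hu ▸ hz.pull _ _ _), ?_, ?_⟩
  · refine thZ_gen_of_mul (D.thZ_s Q hm) ?_
    have o0 : Ok (fun x : LM V × RN D.N => ((((x.1, (1 : ℝ)), (1 : CM m)) : LA V m), x.2))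
        (totR (fun c => D.K (c, 1)) D.S) (zs _ _) D.T1u (zs _ _) :=
      .of_mem (.of_continuous (by fun_prop) _) (fun _ h => ⟨⟨⟨h.1, rfl⟩, one_mem_Sp⟩, h.2⟩)
        fun _ _ k => k
    have oψ : Ok (fun x : LM V × RN D.N => D.pu1 ((x.1, 1), x.2))
        (totR (fun c => D.K (c, 1)) D.S) (zs _ _) D.Lam (Zr 1) := oφ.comp o0
    have g2 := g.2
    have oS : Ok Prod.fst (totR (fun c => D.K (c, 1)) D.S) univ D.S univ := ok_fstR
    have a1 : pull (fun x : LM V × RN D.N => D.pu1 ((x.1, 1), x.2))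
        (totR (fun c => D.K (c, 1)) D.S) univ (pull bas D.Lam univ Q.y) =
        pull Prod.fst (totR (fun c => D.K (c, 1)) D.S) univ (D.uS Q) := by
      rw [← pull_fst_zeroR (pull _ _ univ (pull bas D.Lam univ Q.y)),
        pull_pull' (F := fun c => (c, (1 : ℝ))) ok_zeroR (T.Ok.top oψ)
          fun c h => D.zero1 (c, 1) ⟨h, one_mem_Sp⟩,
        pull_pull' (F := fun c : LM V => c 1) (((T.Ok.top oψ).comp ok_zeroR).congr
          fun c h => D.zero1 (c, 1) ⟨h, one_mem_Sp⟩) (D.ok_basL subset_rfl) fun _ _ => rfl]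
      rfl
    have a2 : pull (fun x : LM V × RN D.N => D.pu1 ((x.1, 1), x.2))
        (totR (fun c => D.K (c, 1)) D.S) (zs _ _) z =
        cup (totR (fun c => D.K (c, 1)) D.S) (zs _ _)
          (pull Prod.fst (totR (fun c => D.K (c, 1)) D.S) univ
            (pull (fun c : LM V => ((c, (1 : ℝ)), (1 : CM m))) D.S univ u))
          (pull (fun z : LM V × RN D.N => (qB 1 ((z.1, (1 : ℝ)), (1 : CM m)), z.2))
            (totR (fun c => D.K (c, 1)) D.S) (zs _ _) D.tau1) := by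
      rw [← pull_pull' (F := fun x : LM V × RN D.N => D.pu1 ((x.1, 1), x.2)) o0 oφ (fun _ _ => rfl) z,
        ← hu, pull_cm o0,
        pull_pull' (F := fun x => ((x.1, (1 : ℝ)), (1 : CM m))) (T.Ok.top o0) tu.base.ok fun _ _ => rfl,
        pull_pull' (F := fun x => ((x.1, (1 : ℝ)), (1 : CM m))) oS (D.ok_slX one_mem_Sp) fun _ _ => rfl,
        pull_pull' (F := fun z : LM V × RN D.N => (qB 1 ((z.1, (1 : ℝ)), (1 : CM m)), z.2)) o0
          (D.cdT.ok_q kT) fun _ _ => rfl]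
    rw [← e, pull_cm oψ, a1, a2, ← cm_mul, ← pull_mul oS] at g2
    exact g2
  · have t1 := (D.em_pu D.Le_Lam).map_tr (D.cdL m 1) D.cdT (sdB _ _ 1) kT
      (fun y hy k => lt y hy k.1) (pull Prod.fst (D.Lam ×ˢ Sp m) (Zr 1 ×ˢ univ) z)
    have t2 := D.em_fst.map_tr (D.cdG 1) D.cdT (sd_univ _ _ _) (sd_univ _ _ _)
      (fun _ _ _ => trivial) u
    rw [Nat.cast_one, one_smul] at t1 t2
    rw [pull_pull' ou of (fun _ _ => rfl) z, ← hu, D.cdT.tr_cup kT (sd_univ _ _ _) (D.cdT.ok_q kT)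
      (fun _ _ _ k => k) (fun _ _ _ k => k), t2] at t1
    exact t1.symm

end TD

end Pool.Agent.Work.MP_8c604c_gt.OT
end
end
end
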