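import Pool.Agent.Work.MP_8c604c_gt.OD.L3
import Pool.Agent.Work.MP_8c604c_gt.OR.Wt
import Pool.Agent.Work.MP_8c604c_gt.OR.Nu

-- merged part: Pool.Agent.Work.MP_8c604c_gt.OR.R1
section
-- merged part: Pool.Agent.Work.MP_8c604c_gt.OD.Out
section
/-!
The three local degrees (owner helper94).
-/

noncomputable section

namespace Pool.Agent.Work.MP_8c604c_gt.OT

open Set Real Filter Topology Pool.Agent.Work.MP_849ab0_ag.G T

variable {V : Type} [NormedAddCommGroup V] [InnerProductSpace ℝ V] [FiniteDimensional ℝ V]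
  {𝕄 : Mf V} {m : ℕ} {B : Type} [NormedAddCommGroup B] [NormedSpace ℝ B] [FiniteDimensional ℝ B]

namespace TD

variable (D : TD 𝕄 m) (Q : MT 𝕄) {x : LM V × CM m}

theorem LD1 (hx : x ∈ D.S ×ˢ Sp m) (hB : Module.finrank ℝ B = 7) {L : B →ₗ[ℝ] RN D.N}
    (hL : Function.Injective L) (hK : ∀ v, D.K x (L v) = L v) :
    Gen 7 (pull (fun v => D.pu1 (x, L v)) univ {0} (D.dl1 Q)) :=
  D.ld1 Q hx hB hL hK

theorem LD2 (hB : Module.finrank ℝ B = 29) {L : B →ₗ[ℝ] FB D.N D.N'}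
    (hL : Function.Injective L) (hK : ∀ v, (x, L v) ∈ tot2 D.S D.K D.P) :
    Gen 29 (pull (fun v => D.pu2 (x, L v)) univ {0} (D.dl3 Q)) :=
  D.ld2 Q hB hL hK

theorem LD4 (hB : Module.finrank ℝ B = 29) {L : B →ₗ[ℝ] FB D.N D.N'}
    (hL : Function.Injective L) (hK : ∀ v, (x, L v) ∈ tot2 D.S D.K D.P) :
    Gen 29 (pull (fun v => D.pu2 (x, L v)) univ {0} (D.dl4 Q)) :=
  D.ld4 Q hB hL hK

theorem LD3 {ζ : CM m} (hζ : ζ ∈ Sp m) {p q : V} (hpq : (p, q) ∈ D.Nb \ Dg V) :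
    Gen 38 (pull (fun z : LM V × RN D.N => D.pu1 ((z.1, ζ), z.2)) (totR (fun c => D.K (c, ζ)) D.S)
      (zs _ _) (D.dl2 Q p q)) :=
  D.ld3 Q hζ hpq

end TD

end Pool.Agent.Work.MP_8c604c_gt.OT
end
end

-- merged part: Pool.Agent.Work.MP_8c604c_gt.OR.R1
section
/-!
The class of degree two (owner helper4).

PLAN.  `g1`: degree `isDeg_dl1`, generator `LD1`; `fgt`: `Top.res_sl top_dt`, `sl_fgt`, the pull-back of `thF` with the support forgotten is the pull-back of `vv - uu` (`fgt_thF`, `pull_pull'`,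
`pull_uu`, `pull_vv`), and the term `uu` is a pull-back along `Prod.fst`, killed by `sl` (`Top.sl_mul` with `b = 1`, `Top.sl_snd_low`, or `Top.sl_low`).
`exists_yb`: `CD.glue (D.cdL m 1) (sdB _ _ 1)` with `a = pull (mB m) (Bo m 1 Lam \ Zq 1) univ y` and `c = pull (fun x => x.1.1 1) (Lam ×ˢ Sp m) univ y`; the sets are identified by `BL_diff`
(generalise and `subst`, or `dlt_res`); replace `b` by `prj {7} b` (`pull_prj`, `cup_prj_right`, `CD.isDeg_tr`, `IsDeg.dlt`).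
`R1_of`: pull back `exists_yb` by `PU1` (`ok_PU1 D.Le_Lam`, `pull_cm`, `PU1_eT`, `PU1_bb hm 0 1`); `pull PU1 b = t • tau1` by `GysD.exists_thom (D.gd1 Q hm)` and `deg0_const (D.isConnected_GB Q).2`,
so `gy yp = t • e` by `th1_inj`.  Let `β = pull (fun x => qB 1 (x, 1)) Lam (Zr 1) b`; by `CD.q_tr` (sign `(-1) ^ 7`), `Top.sl_nat top_dt` and `sh_at_one` it forgets to `-(fgt w)`, so `β = -w`
by `supp_inj` (`U₂ = Ls 1`, hypothesis `v`).  Pull back along `v ↦ pu1 ((c, 1), L v)` for `c ∈ S` and a frame `L` of `Kq (qB 1 ((c, 1), 1))` (`Sg_fr D.rb_Kq`, `Kq_q`, `PU1_q`, `gen_thR_fib`, `ok_fibR`):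
`t • g = -g'` for two generators, `Gen.eq_or`, `Gen.smul_inj`.
-/

noncomputable section

set_option linter.unusedSectionVars false

namespace Pool.Agent.Work.MP_8c604c_gt.OT

open Set Topology Matrix Pool.Agent.Work.MP_849ab0_ag.G T

variable {V : Type} [NormedAddCommGroup V] [InnerProductSpace ℝ V] [FiniteDimensional ℝ V]
  {𝕄 : Mf V} {m : ℕ}

namespace TD

variable (D : TD 𝕄 m) (Q : MT 𝕄)

theorem R1_sl_fst {X : Type} [TopologicalSpace X] [RegularSpace X] [SecondCountableTopology X]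
    {U : Set X} (a : H U univ) :
    sl 1 dt U univ (pull Prod.fst (U ×ˢ (univ : Set Circle)) univ a) = 0 := by
  have o : Ok Prod.snd (U ×ˢ (univ : Set Circle)) univ univ univ :=
    .of_mem (.of_continuous continuous_snd _) (fun _ _ => trivial) fun _ _ _ => trivial
  have h1 := top_dt.sl_snd_low (U := U) (p := 0) zero_lt_one isDeg_oneH
  rw [pull_oneH o] at h1
  have h2 := top_dt.sl_mul a (1 : H (U ×ˢ (univ : Set Circle)) univ)
  rwa [mul_one, h1, mul_zero] at h2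

theorem R1_okb {A : Set (LS V)} (h : A ⊆ D.Lam) :
    Ok (fun x : LA V m => x.1.1 1) (A ×ˢ Sp m) univ 𝕄.M univ :=
  .of_mem (.of_continuous (by fun_prop) _) (fun _ k => (h k.1).1 _) fun _ _ _ => trivial

theorem R1_oks : Ok (fun x : LS V => qB 1 (x, (1 : CM m))) D.Lam (Zr 1) (Bo m 1 D.Lam) (Zq 1) :=
  .of_mem (.of_continuous (continuous_qB.comp (by fun_prop)) _)
    (fun x h => ⟨(x, 1), ⟨h, one_mem_Sp⟩, rfl⟩) fun _ _ k => q_Zq.1 k



theorem g1 : D.G1 Q (D.dl1 Q) := by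
  refine ⟨D.isDeg_dl1 Q, ?_, fun x hx L hL hK => D.LD1 Q hx (by simp) hL hK⟩
  have o : Ok e1 (D.Lam ×ˢ univ) univ 𝕄.MM univ := Ok.top D.ok_e1
  have of : Ok Prod.fst (D.Lam ×ˢ (univ : Set Circle)) univ D.Lam univ :=
    .of_mem (.of_continuous continuous_fst _) (fun _ h => h.1) fun _ _ _ => trivial
  rw [TD1.dl1, top_dt.res_sl (Z₁ := univ) D.sub_e1 (fun _ _ _ => trivial), ← sl_fgt,
    pull_pull' (F := e1) (ok_fgt subset_rfl) D.ok_e1 (fun _ _ => rfl),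
    ← pull_pull' (F := e1) o (ok_fgt subset_rfl) (fun _ _ => rfl), D.fgt_thF Q, map_sub, map_sub,
    Q.pull_uu o, Q.pull_vv o,
    ← pull_pull' (F := fun x => (e1 x).1) of (D.ok_basL subset_rfl) (fun _ _ => rfl), R1_sl_fst, sub_zero]
  rfl

theorem exists_yb (hY : pull (qB 1) (D.Ls 1 ×ˢ Sp m) univ (D.YB Q) =
      pull (fun x : LA V m => x.1.1 1) (D.Ls 1 ×ˢ Sp m) univ Q.y) :
    ∃ b : H (Bo m 1 D.Lam) (Zq 1), IsDeg 7 b ∧
      pull id (Bo m 1 D.Lam) univ b =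
        tB 1 (Bo m 1 D.Lam) univ (pull (fun x : LA V m => x.1.1 1) (D.Lam ×ˢ Sp m) univ Q.y) ∧
      cup (Bo m 1 D.Lam) (Zq 1) (eB (Bo m 1 D.Lam)) b = D.bb Q 0 1 := by
  have o1 : Ok id ((D.Lam ×ˢ Sp m) \ (Zr 1 ×ˢ univ)) univ (D.Lam ×ˢ Sp m) univ := ok_fgt sdiff_subset
  have o2 : Ok (qB 1) ((D.Lam ×ˢ Sp m) \ (Zr 1 ×ˢ univ)) univ (Bo m 1 D.Lam \ Zq 1) univ :=
    .of_mem (.of_continuous continuous_qB _)
      (fun _ h => ⟨(D.cdL m 1).maps h.1, fun k => h.2 ⟨q_Zq.1 k, trivial⟩⟩) fun _ _ _ => trivial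
  have o3 : Ok id (Bo m 1 D.Lam \ Zq 1) univ (Bo m 1 (D.Ls 1)) univ := ok_fgt (D.BL_diff 1).subset
  have o4 : Ok id ((D.Lam ×ˢ Sp m) \ (Zr 1 ×ˢ univ)) univ (D.Ls 1 ×ˢ Sp m) univ :=
    ok_fgt fun _ h => ⟨⟨h.1.1, fun k => h.2 ⟨k, trivial⟩⟩, h.1.2⟩
  obtain ⟨b, h1, h2⟩ := (D.cdL m 1).glue (sdB _ _ 1) (pull id (Bo m 1 D.Lam \ Zq 1) univ (D.YB Q))
    (pull (fun x : LA V m => x.1.1 1) (D.Lam ×ˢ Sp m) univ Q.y) (by
      rw [pull_pull' (F := qB 1) o2 o3 fun _ _ => rfl,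
        ← pull_pull' (F := qB 1) o4 (D.cdLs m 1 1).ok_q' fun _ _ => rfl, hY,
        pull_pull' (F := fun x : LA V m => x.1.1 1) o4 (D.R1_okb D.Ls_Lam) fun _ _ => rfl,
        pull_pull' (F := fun x : LA V m => x.1.1 1) o1 (D.R1_okb subset_rfl) fun _ _ => rfl])
  rw [dlt_res o3 subset_rfl] at h2
  have e : dlt (Bo m 1 D.Lam) (Zq 1) (D.YB Q) = D.bb Q 0 1 := by
    rw [bb, pow_zero, one_mul, pow_one]
  have d1 : IsDeg 7 (tr (qB 1) Prod.snd (Bo m 1 D.Lam) univ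
      (pull (fun x : LA V m => x.1.1 1) (D.Lam ×ˢ Sp m) univ Q.y)) :=
    (D.cdL m 1).isDeg_tr (sd_univ _ _ _) (Q.isDeg_y.pull _ _ _)
  have d2 : IsDeg 9 (D.bb Q 0 1) := by simpa using D.isDeg_bb Q 0 1
  refine ⟨prj {7} b, isDeg_prj 7 b, ?_, ?_⟩
  · rw [pull_prj, h1]
    exact d1.prj_eq rfl
  · rw [eB, cup_prj_right (t := {9}) (fun p => by simp only [mem_singleton_iff]; omega)
      (D.cdL m 1).isDeg_ee, h2, e]
    exact d2.prj_eq rfl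

theorem R1_fgt {b : H (Bo m 1 D.Lam) (Zq 1)} (h1 : pull id (Bo m 1 D.Lam) univ b =
      tB 1 (Bo m 1 D.Lam) univ (pull (fun x : LA V m => x.1.1 1) (D.Lam ×ˢ Sp m) univ Q.y)) :
    pull id D.Lam univ (pull (fun x : LS V => qB 1 (x, (1 : CM m))) D.Lam (Zr 1) b) =
      -pull id D.Lam univ (D.dl1 Q) := by
  have os : Ok (fun x : LS V => (x, (1 : CM m))) D.Lam univ (D.Lam ×ˢ Sp m) univ := ok_slS' one_mem_Sp _
  have o1 : Ok (Prod.map (fun x : LS V => (x, (1 : CM m))) id) (D.Lam ×ˢ (univ : Set Circle)) univ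
      ((D.Lam ×ˢ Sp m) ×ˢ (univ : Set Circle)) (univ ×ˢ univ) :=
    .of_mem (.of_continuous (by fun_prop) _) (fun _ h => ⟨⟨h.1, one_mem_Sp⟩, trivial⟩) fun _ _ _ => trivial
  have o2 : Ok (fun z : LA V m × Circle => ac 1 z.2 z.1) ((D.Lam ×ˢ Sp m) ×ˢ (univ : Set Circle))
      (univ ×ˢ univ) (D.Lam ×ˢ Sp m) univ :=
    .of_mem (.of_continuous (continuous_ac.comp continuous_swap) _)
      (fun z h => D.inv_Lam.ac z.2 z.1 h.1) fun _ _ _ => ⟨trivial, trivial⟩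
  have o3 : Ok (fun z : LS V × Circle => ac 1 z.2 (z.1, (1 : CM m))) (D.Lam ×ˢ (univ : Set Circle)) univ
      (D.Lam ×ˢ Sp m) univ := o2.comp o1
  have dc : IsDeg (7 + 1) (pull (fun x : LA V m => x.1.1 1) (D.Lam ×ˢ Sp m) univ Q.y) :=
    Q.isDeg_y.pull _ _ _
  rw [pull_pull' (F := fun x : LS V => qB 1 (x, (1 : CM m))) (ok_fgt subset_rfl) D.R1_oks fun _ _ => rfl,
    ← pull_pull' (F := fun x : LS V => qB 1 (x, (1 : CM m))) (Ok.top D.R1_oks) (ok_fgt subset_rfl)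
      fun _ _ => rfl, h1,
    ← pull_pull' (F := fun x : LS V => qB 1 (x, (1 : CM m))) os (D.cdL m 1).ok_q' fun _ _ => rfl, tB,
    (D.cdL m 1).q_tr (sd_univ _ _ _) dc, map_smul,
    ← top_dt.sl_nat os (W₁ := univ) (fun _ _ _ => trivial) (fun _ _ _ => trivial) (fun _ _ _ => trivial),
    pull_pull' (F := fun z : LS V × Circle => ac 1 z.2 (z.1, (1 : CM m))) o1 o2 fun _ _ => rfl,
    pull_pull' (F := fun x : LS V × Circle => x.1.1 x.2) o3 (D.R1_okb subset_rfl)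
      fun z _ => by simp only [ac, shS, pow_one, sh_at_one],
    (D.g1 Q).fgt]
  norm_num



theorem R1_of (hm : 1 ≤ m) (hY : pull (qB 1) (D.Ls 1 ×ˢ Sp m) univ (D.YB Q) =
      pull (fun x : LA V m => x.1.1 1) (D.Ls 1 ×ˢ Sp m) univ Q.y)
    (v : ∀ a : H (D.Ls 1) univ, IsDeg 6 a → a = 0) :
    D.gy Q hm (D.yp Q) = eB (D.GB 1) ∨ D.gy Q hm (D.yp Q) = -eB (D.GB 1) := by
  obtain ⟨b, hb, h1, h2⟩ := D.exists_yb Q hY
  have o := D.ok_PU1 D.Le_Lam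
  obtain ⟨a, ha, e⟩ := (D.gd1 Q hm).exists_thom (p := 0) (c := pull D.PU1 D.T1 (zs _ _) b)
    (hb.pull _ _ _)
  obtain ⟨t, rfl⟩ := deg0_const (D.isConnected_GB Q).2 ha
  rw [map_smul, pull_oneH (D.gd1 Q hm).ok, map_smul, LinearMap.smul_apply, cm_one] at e
  have e1 : D.gy Q hm (D.yp Q) = t • eB (D.GB 1) := D.th1_inj Q hm (by
    have k := D.PU1_bb Q hm 0 1
    rw [pow_zero, one_mul, pow_one, ← h2, pull_cm o, D.PU1_eT, e, map_smul] at k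
    rw [← k, map_smul, th1_apply])
  have e2 : pull (fun x : LS V => qB 1 (x, (1 : CM m))) D.Lam (Zr 1) b = -D.dl1 Q :=
    eq_neg_of_add_eq_zero_left (supp_inj (U₂ := D.Ls 1) (Z₂ := univ) (Z := univ) rfl (by simp) v
      ((hb.pull _ _ _).add (D.isDeg_dl1 Q)) (by rw [map_add, D.R1_fgt Q h1, neg_add_cancel]))
  obtain ⟨c, hc⟩ := (D.isConnected_S Q.conn).nonempty
  have hx : (((c, (1 : ℝ)), (1 : CM m)) : LA V m) ∈ D.Xt := ⟨⟨hc, rfl⟩, one_mem_Sp⟩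
  have hy := (D.cdG 1).maps hx
  obtain ⟨L, hL, hK, -⟩ := Sg_fr D.rb_Kq hy
  have hK' : ∀ u, D.K (c, 1) (L u) = L u := fun u => by
    have := hK u
    rwa [Kq_q hx] at this
  have g : Gen 7 (pull (fun u => (qB 1 (((c, (1 : ℝ)), (1 : CM m)) : LA V m), L u)) univ {0} D.tau1) :=
    gen_thR_fib D.rb_Kq (D.ori_K Q hm) hy (by simp) hL hK
  have of : Ok (fun u => (qB 1 (((c, (1 : ℝ)), (1 : CM m)) : LA V m), L u)) univ {0} D.T1 (zs _ _) :=
    ok_fibR hy hL hK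
  have g' := (D.g1 Q).gen (c, 1) ⟨hc, one_mem_Sp⟩ L hL hK'
  have mt : ∀ u, (((c, (1 : CM m)), L u) : (LM V × CM m) × RN D.N) ∈ tot1 D.S D.K :=
    fun u => ⟨⟨hc, one_mem_Sp⟩, hK' u⟩
  have op : Ok (fun u => D.pu1 ((c, 1), L u)) univ {0} D.Lam (Zr 1) :=
    ok_of isOpen_univ.isLocallyClosed
      (D.c1.comp (continuous_const.prodMk L.continuous_of_finiteDimensional).continuousOn fun u _ => mt u)
      (fun u _ => D.mem1 (mt u)) fun u _ k => by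
        by_contra n
        exact (D.lt1 _ (mt u) fun z => n (hL (z.trans (map_zero L).symm))).not_ge k
  have e3 := congrArg (pull (fun u => (qB 1 (((c, (1 : ℝ)), (1 : CM m)) : LA V m), L u)) univ {0}) e
  rw [pull_pull' (F := fun u => qB 1 (D.pu1 ((c, 1), L u), (1 : CM m))) of o
      (fun u _ => PU1_q hx (hK' u)),
    ← pull_pull' (F := fun u => qB 1 (D.pu1 ((c, 1), L u), (1 : CM m))) op D.R1_oks fun _ _ => rfl,
    e2, map_neg, map_smul] at e3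
  rcases g.eq_or g' with k | k
  · right
    rw [e1, g.smul_inj (s := t) (t := -1) (by rw [k] at e3; rw [neg_one_smul]; exact e3.symm), neg_one_smul]
  · left
    rw [e1, g.smul_inj (s := t) (t := 1) (by rw [one_smul]; rw [k, neg_neg] at e3; exact e3.symm), one_smul]

end TD

end Pool.Agent.Work.MP_8c604c_gt.OT
end
end
end

-- merged part: Pool.Agent.Work.MP_8c604c_gt.OR.R2
section
/-!
The relation in degree 22 (owner helper4).
-/

noncomputable section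

set_option linter.unusedSectionVars false

namespace Pool.Agent.Work.MP_8c604c_gt.OT

open Set Topology Matrix Pool.Agent.Work.MP_849ab0_ag.G T

variable {V : Type} [NormedAddCommGroup V] [InnerProductSpace ℝ V] [FiniteDimensional ℝ V]
  {𝕄 : Mf V} {m : ℕ}

namespace TD

variable (D : TD 𝕄 m) (Q : MT 𝕄)

theorem R1' (hm : 1 ≤ m) :
    D.gy Q hm (D.yp Q) = eB (D.GB 1) ∨ D.gy Q hm (D.yp Q) = -eB (D.GB 1) :=
  D.R1_of Q hm (D.q_YB Q) (D.Ls_zero' Q one_pos le_rfl (by norm_num) (by norm_num) (by norm_num))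

variable {D Q} {z₀ : H D.Lam univ} {w₂ : H D.Lam (Zr 1)} {w₃ w₄ : H D.Lam (Zr 2)}

/-- the lift of the class of degree 30 -/
theorem exists_z (J : D.JC Q z₀ w₂ w₃ w₄) (d : IsDeg 38 w₂) : ∃ z : H D.Lam (Zr 1), IsDeg 30 z ∧
    pull id D.Lam univ z = z₀ ∧
    pull dbS D.Le (Zr (1 / 2)) z = (2 : ℂ) • pull id D.Le (Zr (1 / 2)) z ∧
    cup D.Lam (Zr 1) (pull bas D.Lam univ Q.y) z = w₂ := by
  obtain ⟨z, hz, e⟩ := lift_ex (Z := Zr 1) rfl
    (D.Ls_zero' Q one_pos le_rfl (by norm_num) (by norm_num) (by norm_num)) J.deg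
  refine ⟨z, hz, e, lift_uniq (p := 30) (D.Le_diff (by norm_num)) (D.Ls_zero' Q (by norm_num) (by norm_num)
    (by norm_num) (by norm_num) (by norm_num)) (hz.pull _ _ _) ((hz.pull _ _ _).smul _) ?_,
    lift_uniq (p := 38) rfl (D.Ls_zero' Q one_pos le_rfl (by norm_num) (by norm_num) (by norm_num))
      ((Q.isDeg_y.pull _ _ _).cup hz _ _) d (by rw [fgt_cm, e, J.mul])⟩
  have o : Ok dbS D.Le (Zr (1 / 2)) D.Lam (Zr 1) :=
    .of_mem (.of_continuous continuous_dbS _) D.db_Le fun x _ a => by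
      have : (1 : ℝ) ≤ 2 * x.2 := a
      change 1 / 2 ≤ x.2
      linarith
  have o' : Ok id D.Le (Zr (1 / 2)) D.Lam (Zr 1) := .id D.Le_Lam fun x _ a => by
    have : (1 : ℝ) ≤ x.2 := a
    change 1 / 2 ≤ x.2
    linarith
  rw [map_smul, pull_pull' (F := dbS) (ok_fgt subset_rfl) o fun _ _ => rfl,
    pull_pull' (F := id) (ok_fgt subset_rfl) o' fun _ _ => rfl,
    ← pull_pull' (F := dbS) (T.Ok.top o) (ok_fgt subset_rfl) fun _ _ => rfl,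
    ← pull_pull' (F := id) (T.Ok.top o') (ok_fgt subset_rfl) fun _ _ => rfl, e, J.dbl]

theorem R2' (hm : 1 ≤ m) (h : 20 ≤ m) (J : D.JC Q z₀ w₂ w₃ w₄) (g₂ : D.G2 w₂) (g₃ : D.G3 w₃) (g₄ : D.G3 w₄)
    (li : ∀ s t : ℂ, s • (eB (D.GB 1) ^ 10 * D.gy Q hm (D.yp Q)) +
      t • (eB (D.GB 1) ^ 6 * D.gy Q hm (D.yp Q ^ 2)) = 0 → s = 0 ∧ t = 0) :
    ∃ (z : H D.Xt univ) (l₁ l₂ ν : ℂ), IsDeg 23 z ∧ (ν = 0 ∨ ν = 4 ∨ ν = -4) ∧
      Gen 31 (D.uS Q * pull (fun c : LM V => ((c, (1 : ℝ)), (1 : CM m))) D.S univ z) ∧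
      tB 1 (D.GB 1) univ z = l₁ • (eB (D.GB 1) ^ 10 * D.gy Q hm (D.yp Q)) +
        l₂ • (eB (D.GB 1) ^ 6 * D.gy Q hm (D.yp Q ^ 2)) ∧
      ν • (eu D.EC 7 (D.GB 2) * D.eP) =
        ((4 - 1 / 2 ^ 10) * l₁) • pull kpB (D.GB 2) univ (eB (D.GB 1) ^ 10 * D.gy Q hm (D.yp Q)) +
          ((4 - 1 / 2 ^ 6) * l₂) • pull kpB (D.GB 2) univ (eB (D.GB 1) ^ 6 * D.gy Q hm (D.yp Q ^ 2)) := by
  obtain ⟨z, hz, e0, e1, e2⟩ := exists_z J g₂.1
  obtain ⟨u, hu, gu, eu'⟩ := D.PU1_bz Q hm hz e2 g₂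
  have p1 := D.PU1_bb Q hm 10 1
  have p2 := D.PU1_bb Q hm 6 2
  rw [pow_one] at p1
  have d1 : IsDeg 29 (D.bb Q 10 1) := D.isDeg_bb Q 10 1
  have d2 : IsDeg 29 (D.bb Q 6 2) := D.isDeg_bb Q 6 2
  have d3 : IsDeg 29 (D.bz z) := D.isDeg_bz (p := 29) hz
  -- restriction to the loops of speed less than two
  have r2 : Ok id (Bo m 1 (D.Ls 2)) (Zq 1) (Bo m 1 D.Lam) (Zq 1) := .id (Bo_mono D.Ls_Lam) fun _ _ a => a
  have pr : ∀ b : H (Bo m 1 D.Lam) (Zq 1), pull D.PU1 D.T1 (zs _ _) (pull id (Bo m 1 (D.Ls 2)) (Zq 1) b) =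
      pull D.PU1 D.T1 (zs _ _) b := pull_pull' (D.ok_PU1 D.Le_Ls) r2 fun _ _ => rfl
  obtain ⟨l₁, l₂, el⟩ := rk_two (D.L2_rk29 Q (m := m) (by omega)) (d1.pull id _ _) (d2.pull id _ _)
    (d3.pull id _ _) fun s t e => li s t (D.th1_inj Q hm (by
      have := congrArg (pull D.PU1 D.T1 (zs _ _)) e
      rw [map_add, map_smul, map_smul, pr, pr, p1, p2, map_zero] at this
      rw [map_add, map_smul, map_smul, this, map_zero]))
  have et : tB 1 (D.GB 1) univ u = l₁ • (eB (D.GB 1) ^ 10 * D.gy Q hm (D.yp Q)) +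
      l₂ • (eB (D.GB 1) ^ 6 * D.gy Q hm (D.yp Q ^ 2)) := D.th1_inj Q hm (by
    have := congrArg (pull D.PU1 D.T1 (zs _ _)) el
    rw [map_add, map_smul, map_smul, pr, pr, pr, p1, p2, eu'] at this
    rw [map_add, map_smul, map_smul, this])
  -- the lift to the loops of speed two
  obtain ⟨θ₀, hθ₀⟩ := (exact_supp_res (Z := Zq 1) (Z₂ := Zq 1) (D.BL_diff (m := m) (k := 1) 2)
    (by rw [D.BLs_diff one_le_two, D.BL_diff]) (D.bz z - l₁ • D.bb Q 10 1 - l₂ • D.bb Q 6 2)).1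
    (by rw [map_sub, map_sub, map_smul, map_smul, el]; abel)
  have dθ := (d3.sub (d1.smul l₁)).sub (d2.smul l₂)
  obtain ⟨θ, hθ, eθ⟩ : ∃ θ : H (Bo m 1 D.Lam) (Zq 2), IsDeg 29 θ ∧ pull id (Bo m 1 D.Lam) (Zq 1) θ =
      D.bz z - l₁ • D.bb Q 10 1 - l₂ • D.bb Q 6 2 :=
    ⟨prj {29} θ₀, isDeg_prj _ _, by rw [pull_prj, hθ₀, isDeg_iff.1 dθ]⟩
  have s21 : Ok id (Bo m 1 D.Lam) (Zq 1) (Bo m 1 D.Lam) (Zq 2) :=
    .id subset_rfl fun y _ a => (one_le_two.trans a : (1 : ℝ) ≤ lam y)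
  obtain ⟨ν, hν⟩ := D.tauE_span Q hm (hθ.pull D.PU2 _ _)
  refine ⟨u, l₁, l₂, ν, hu, D.nu_eq Q hm hθ g₃ g₄ (fun N c s v => ?_) hν, gu, et, ?_⟩
  · have o : Ok (fun x => qB 1 (x, (1 : CM m))) D.Lam univ (Bo m 1 D.Lam) (Zq 1) :=
      .of_mem (.of_continuous (continuous_qB.comp (by fun_prop)) _)
        (fun _ a => ⟨_, ⟨a, one_mem_Sp⟩, rfl⟩) fun _ _ _ => trivial
    have b1 : pull (fun x => qB 1 (x, (1 : CM m))) D.Lam univ (D.bb Q 10 1) = 0 := D.sl_bb Q one_mem_Sp 9 1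
    have b2 : pull (fun x => qB 1 (x, (1 : CM m))) D.Lam univ (D.bb Q 6 2) = 0 := D.sl_bb Q one_mem_Sp 5 2
    rw [← J.rot N c s v, ← map_neg, ← e0, ← D.sl_bz one_mem_Sp hz,
      ← pull_pull' (F := fun x => qB 1 (x, (1 : CM m))) o s21 fun _ _ => rfl, eθ]
    simp only [map_sub, map_smul, b1, b2, smul_zero, sub_zero]
  -- the doubling map
  have h12 : (1 / 2 : ℝ) ≤ 1 := by norm_num
  have s1h : Ok id (Bo m 2 D.Le) (Zq (1 / 2)) (Bo m 2 D.Le) (Zq 1) :=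
    .id subset_rfl fun _ _ a => h12.trans a
  have k1 := ok_kpB' (m := m) (r := 1) D.Le_Lam le_rfl
  have kh := ok_kpB' (m := m) (r := 1) D.Le_Lam h12
  have ps2 := ok_psB' (m := m) (r := 2) (s := 1) D.db_Le (by norm_num)
  have psh := ok_psB' (m := m) (r := 1) (s := 1 / 2) D.db_Le (by norm_num)
  have kz : pull kpB (Bo m 2 D.Le) (Zq (1 / 2)) (D.bz z) =
      l₁ • pull kpB (Bo m 2 D.Le) (Zq (1 / 2)) (D.bb Q 10 1) +
        l₂ • pull kpB (Bo m 2 D.Le) (Zq (1 / 2)) (D.bb Q 6 2) := by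
    have k := ok_kpB' (m := m) (r := 1) D.Le_Ls h12
    have := congrArg (pull kpB (Bo m 2 D.Le) (Zq (1 / 2))) el
    rwa [map_add, map_smul, map_smul, pull_pull' k r2 fun _ _ => rfl, pull_pull' k r2 fun _ _ => rfl,
      pull_pull' k r2 fun _ _ => rfl] at this
  have w1 := D.ps_bb Q (D.ps_YB Q (by omega)) 10 1
  have w2 := D.ps_bb Q (D.ps_YB Q (by omega)) 6 2
  have key : pull psB (Bo m 2 D.Le) (Zq 1) θ =
      ((4 - 1 / 2 ^ 10) * l₁) • pull kpB (Bo m 2 D.Le) (Zq 1) (D.bb Q 10 1) +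
        ((4 - 1 / 2 ^ 6) * l₂) • pull kpB (Bo m 2 D.Le) (Zq 1) (D.bb Q 6 2) := by
    refine sub_eq_zero.1 (D.inj_half ((hθ.pull _ _ _).sub
      (((d1.pull _ _ _).smul _).add ((d2.pull _ _ _).smul _))) ?_)
    rw [map_sub, map_add, map_smul, map_smul, pull_pull' (F := psB) s1h ps2 fun _ _ => rfl,
      pull_pull' (F := kpB) s1h k1 fun _ _ => rfl, pull_pull' (F := kpB) s1h k1 fun _ _ => rfl,
      ← pull_pull' (F := psB) psh s21 fun _ _ => rfl, eθ, map_sub, map_sub, map_smul, map_smul, D.ps_bz e1, kz,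
      w1, w2]
    module
  have pk : ∀ b : H (Bo m 1 D.Lam) (Zq 1), pull D.PV D.TK (zs _ _) (pull kpB (Bo m 2 D.Le) (Zq 1) b) =
      pull (Prod.map kpB id) D.TK (zs _ _) (pull D.PU1 D.T1 (zs _ _) b) := fun b => by
    rw [pull_pull' D.ok_PV k1 fun _ a => D.kp_PV a, pull_pull' D.ok_kT (D.ok_PU1 D.Le_Lam) fun _ _ => rfl]
  have := congrArg (pull D.PV D.TK (zs _ _)) key
  rw [map_add, map_smul, map_smul, pk, pk, p1, p2, D.kT_th1, D.kT_th1,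
    pull_pull' D.ok_PV ps2 fun _ a => D.ps_PV a, ← pull_pull' D.ok_io2 D.ok_PU2 fun _ _ => rfl, hν, map_smul,
    D.io_tauE Q hm] at this
  exact D.th2_inj Q hm (by rw [map_add, map_smul, map_smul, map_smul, this])

end TD

end Pool.Agent.Work.MP_8c604c_gt.OT
end
end
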